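import Mathlib

/-! Data of the polyhedral torus: 23 integral vertices, 21 convex faces, a triangulation with 46
triangles, the matching periodic triangulation of the plane with periods 13, and the certificates
used in the checks. -/

namespace Pool.Agent.W5h62.Torus.Data

def XL : List (ℤ × ℤ × ℤ) := [
  (.ofNat 2222610468636698750610, .ofNat 5032383592196785414590, .ofNat 9958709008504267776765),
  (.negSucc 6050481521518227994199, .negSucc 7594967340144944880119, .ofNat 3209607648114722274420),
  (.negSucc 5146297499071354625999, .negSucc 9233136039636927217799, .ofNat 2773471825522701002700),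
  (.ofNat 3526964016060254269500, .ofNat 3728030044773229895700, .ofNat 9741316750600341856950),
  (.negSucc 154879262509432611149, .negSucc 7000446167443482103349, .negSucc 1709461766576073960449),
  (.ofNat 5611612956731071650360, .negSucc 524231828911838855807, .negSucc 556163322727973108147),
  (.ofNat 4558126083674658194700, .negSucc 32604621485512576499, .negSucc 766860697339255799279),
  (.negSucc 320676041904570752399, .negSucc 4911406747064741523599, .negSucc 1742621122455101588699),
  (.ofNat 1948538170184742813600, .ofNat 5306455890648741351600, .ofNat 8177239068566554186200),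
  (.negSucc 4980123041758578113399, .negSucc 4734191039696426107799, .ofNat 1321884511084067030100),
  (.ofNat 5332467929328392044500, .ofNat 1922526131505092120700, .ofNat 3873429032478894088200),
  (.negSucc 3397067152416200085899, .negSucc 8660957888861876667299, .ofNat 860762007217532019600),
  (.ofNat 4303810036087660098000, .ofNat 2951184024745824067200, .negSucc 10157870013745671231299),
  (.ofNat 2151905018043830049000, .ofNat 5103089042789654116200, .negSucc 8620795000857221196299),
  (.ofNat 5670821493062939315025, .ofNat 671780604991887970425, .ofNat 1291143010826298029400),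
  (.negSucc 1291143010826298029399, .negSucc 7761085536151466391599, .negSucc 1099072149711642124199),
  (.ofNat 430381003608766009800, .ofNat 2566345984481901021400, .negSucc 583405360447438368839),
  (.negSucc 1673703902922978926999, .negSucc 1291143010826298029399, .negSucc 1267232955070255473299),
  (.negSucc 6455715054131490146999, .ofNat 7510148512972966871010, .ofNat 634811980322929864455),
  (.negSucc 8177239068566554186199, .ofNat 9059520125964524506290, .ofNat 1409497786818708682095),
  (.negSucc 1332131677836656696999, .ofNat 3012667025261362068600, .negSucc 604582838402790347099),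
  (.negSucc 2315859686085264719399, .ofNat 1291143010826298029400, .negSucc 911997840980480354099),
  (.negSucc 10329144086610384235199, .ofNat 9898763083001618225400, .ofNat 3443048028870128078400)]

/-- The coordinates of the vertex `v`. -/
def X (v : Fin 23) : ℤ × ℤ × ℤ := XL.getD v.1 (0, 0, 0)

def fvL : List (List (Fin 23)) := [
  [0, 8, 20, 21, 9, 1],
  [2, 3, 0, 1],
  [8, 0, 3, 10, 12, 13],
  [13, 12, 11, 2, 1, 9],
  [4, 5, 14, 10, 3, 2, 11, 15],
  [14, 5, 6, 16, 18, 19],
  [5, 4, 7, 6],
  [7, 4, 15, 19, 18, 17],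
  [6, 7, 17, 21, 20, 16],
  [22, 13, 9],
  [22, 9, 21],
  [21, 18, 22],
  [22, 8, 13],
  [18, 16, 20],
  [8, 22, 18],
  [12, 19, 15],
  [15, 11, 12],
  [12, 10, 14],
  [14, 19, 12],
  [18, 20, 8],
  [21, 17, 18]]

/-- The vertices of the face `f`. -/
def fv (f : Fin 21) : List (Fin 23) := fvL.getD f.1 []

def tvL : List (Fin 23 × Fin 23 × Fin 23) := [
  (0, 8, 20),
  (0, 20, 21),
  (0, 21, 9),
  (0, 9, 1),
  (2, 3, 0),
  (2, 0, 1),
  (8, 0, 3),
  (8, 3, 10),
  (8, 10, 12),
  (8, 12, 13),
  (13, 12, 11),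
  (13, 11, 2),
  (13, 2, 1),
  (13, 1, 9),
  (4, 5, 14),
  (4, 14, 10),
  (4, 10, 3),
  (4, 3, 2),
  (4, 2, 11),
  (4, 11, 15),
  (14, 5, 6),
  (14, 6, 16),
  (14, 16, 18),
  (14, 18, 19),
  (5, 4, 7),
  (5, 7, 6),
  (7, 4, 15),
  (7, 15, 19),
  (7, 19, 18),
  (7, 18, 17),
  (6, 7, 17),
  (6, 17, 21),
  (6, 21, 20),
  (6, 20, 16),
  (22, 13, 9),
  (22, 9, 21),
  (21, 18, 22),
  (22, 8, 13),
  (18, 16, 20),
  (8, 22, 18),
  (12, 19, 15),
  (15, 11, 12),
  (12, 10, 14),
  (14, 19, 12),
  (18, 20, 8),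
  (21, 17, 18)]

/-- The `i`-th vertex of the triangle `t`. -/
def tv (t : Fin 46) (i : Fin 3) : Fin 23 :=
  match i with
  | 0 => (tvL.getD t.1 (0, 0, 0)).1
  | 1 => (tvL.getD t.1 (0, 0, 0)).2.1
  | 2 => (tvL.getD t.1 (0, 0, 0)).2.2

def stL : List ℕ := [0, 4, 6, 10, 14, 20, 24, 26, 30, 34, 35, 36, 37, 38, 39, 40, 41, 42, 43, 44, 45]
def enL : List ℕ := [3, 5, 9, 13, 19, 23, 25, 29, 33, 34, 35, 36, 37, 38, 39, 40, 41, 42, 43, 44, 45]

/-- First and last triangle of the face `f`. -/
def st (f : Fin 21) : ℕ := stL.getD f.1 0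
def en (f : Fin 21) : ℕ := enL.getD f.1 0

def WL : List ((ℤ × ℤ) × (ℤ × ℤ) × (ℤ × ℤ)) := [
  ((.ofNat 13, .ofNat 13), (.ofNat 8, .ofNat 13), (.ofNat 11, .ofNat 11)),
  ((.ofNat 0, .ofNat 13), (.negSucc 1, .ofNat 11), (.ofNat 2, .ofNat 11)),
  ((.ofNat 0, .ofNat 13), (.ofNat 2, .ofNat 11), (.ofNat 3, .ofNat 13)),
  ((.ofNat 0, .ofNat 0), (.ofNat 3, .ofNat 0), (.ofNat 2, .ofNat 1)),
  ((.ofNat 1, .ofNat 2), (.negSucc 0, .ofNat 2), (.ofNat 0, .ofNat 0)),
  ((.ofNat 1, .ofNat 2), (.ofNat 0, .ofNat 0), (.ofNat 2, .ofNat 1)),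
  ((.ofNat 8, .ofNat 0), (.ofNat 13, .ofNat 0), (.ofNat 12, .ofNat 2)),
  ((.ofNat 8, .ofNat 0), (.ofNat 12, .ofNat 2), (.ofNat 10, .ofNat 3)),
  ((.ofNat 8, .ofNat 0), (.ofNat 10, .ofNat 3), (.ofNat 6, .ofNat 4)),
  ((.ofNat 8, .ofNat 0), (.ofNat 6, .ofNat 4), (.ofNat 4, .ofNat 1)),
  ((.ofNat 4, .ofNat 1), (.ofNat 6, .ofNat 4), (.ofNat 3, .ofNat 3)),
  ((.ofNat 4, .ofNat 1), (.ofNat 3, .ofNat 3), (.ofNat 1, .ofNat 2)),
  ((.ofNat 4, .ofNat 1), (.ofNat 1, .ofNat 2), (.ofNat 2, .ofNat 1)),
  ((.ofNat 4, .ofNat 1), (.ofNat 2, .ofNat 1), (.ofNat 3, .ofNat 0)),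
  ((.ofNat 13, .ofNat 4), (.ofNat 13, .ofNat 6), (.ofNat 10, .ofNat 6)),
  ((.ofNat 13, .ofNat 4), (.ofNat 10, .ofNat 6), (.ofNat 10, .ofNat 3)),
  ((.ofNat 13, .ofNat 4), (.ofNat 10, .ofNat 3), (.ofNat 12, .ofNat 2)),
  ((.ofNat 0, .ofNat 4), (.negSucc 0, .ofNat 2), (.ofNat 1, .ofNat 2)),
  ((.ofNat 0, .ofNat 4), (.ofNat 1, .ofNat 2), (.ofNat 3, .ofNat 3)),
  ((.ofNat 0, .ofNat 4), (.ofNat 3, .ofNat 3), (.ofNat 4, .ofNat 5)),
  ((.ofNat 10, .ofNat 6), (.ofNat 13, .ofNat 6), (.ofNat 13, .ofNat 8)),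
  ((.ofNat 10, .ofNat 6), (.ofNat 13, .ofNat 8), (.ofNat 10, .ofNat 9)),
  ((.ofNat 10, .ofNat 6), (.ofNat 10, .ofNat 9), (.ofNat 6, .ofNat 9)),
  ((.ofNat 10, .ofNat 6), (.ofNat 6, .ofNat 9), (.ofNat 6, .ofNat 6)),
  ((.ofNat 0, .ofNat 6), (.ofNat 0, .ofNat 4), (.ofNat 3, .ofNat 7)),
  ((.ofNat 0, .ofNat 6), (.ofNat 3, .ofNat 7), (.ofNat 0, .ofNat 8)),
  ((.ofNat 3, .ofNat 7), (.ofNat 0, .ofNat 4), (.ofNat 4, .ofNat 5)),
  ((.ofNat 3, .ofNat 7), (.ofNat 4, .ofNat 5), (.ofNat 6, .ofNat 6)),
  ((.ofNat 3, .ofNat 7), (.ofNat 6, .ofNat 6), (.ofNat 6, .ofNat 9)),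
  ((.ofNat 3, .ofNat 7), (.ofNat 6, .ofNat 9), (.ofNat 3, .ofNat 9)),
  ((.ofNat 0, .ofNat 8), (.ofNat 3, .ofNat 7), (.ofNat 3, .ofNat 9)),
  ((.ofNat 0, .ofNat 8), (.ofNat 3, .ofNat 9), (.ofNat 2, .ofNat 11)),
  ((.ofNat 0, .ofNat 8), (.ofNat 2, .ofNat 11), (.negSucc 1, .ofNat 11)),
  ((.ofNat 13, .ofNat 8), (.ofNat 11, .ofNat 11), (.ofNat 10, .ofNat 9)),
  ((.ofNat 5, .negSucc 0), (.ofNat 4, .ofNat 1), (.ofNat 3, .ofNat 0)),
  ((.ofNat 5, .ofNat 12), (.ofNat 3, .ofNat 13), (.ofNat 2, .ofNat 11)),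
  ((.ofNat 2, .ofNat 11), (.ofNat 6, .ofNat 9), (.ofNat 5, .ofNat 12)),
  ((.ofNat 5, .negSucc 0), (.ofNat 8, .ofNat 0), (.ofNat 4, .ofNat 1)),
  ((.ofNat 6, .ofNat 9), (.ofNat 10, .ofNat 9), (.ofNat 11, .ofNat 11)),
  ((.ofNat 8, .ofNat 13), (.ofNat 5, .ofNat 12), (.ofNat 6, .ofNat 9)),
  ((.ofNat 6, .ofNat 4), (.ofNat 6, .ofNat 6), (.ofNat 4, .ofNat 5)),
  ((.ofNat 4, .ofNat 5), (.ofNat 3, .ofNat 3), (.ofNat 6, .ofNat 4)),
  ((.ofNat 6, .ofNat 4), (.ofNat 10, .ofNat 3), (.ofNat 10, .ofNat 6)),
  ((.ofNat 10, .ofNat 6), (.ofNat 6, .ofNat 6), (.ofNat 6, .ofNat 4)),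
  ((.ofNat 6, .ofNat 9), (.ofNat 11, .ofNat 11), (.ofNat 8, .ofNat 13)),
  ((.ofNat 2, .ofNat 11), (.ofNat 3, .ofNat 9), (.ofNat 6, .ofNat 9))]

/-- The `i`-th vertex of the planar copy of the triangle `t`. -/
def WZ (t : Fin 46) (i : Fin 3) : ℤ × ℤ :=
  match i with
  | 0 => (WL.getD t.1 ((0, 0), (0, 0), (0, 0))).1
  | 1 => (WL.getD t.1 ((0, 0), (0, 0), (0, 0))).2.1
  | 2 => (WL.getD t.1 ((0, 0), (0, 0), (0, 0))).2.2

def nbL : List ((Fin 46 × Fin 3 × ℤ × ℤ) × (Fin 46 × Fin 3 × ℤ × ℤ) × (Fin 46 × Fin 3 × ℤ × ℤ)) := [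
  ((44, 0, .ofNat 0, .ofNat 0), (1, 2, .ofNat 1, .ofNat 0), (6, 2, .ofNat 0, .ofNat 1)),
  ((32, 0, .ofNat 0, .ofNat 0), (2, 2, .ofNat 0, .ofNat 0), (0, 1, .negSucc 0, .ofNat 0)),
  ((35, 0, .ofNat 0, .ofNat 0), (3, 2, .ofNat 0, .ofNat 1), (1, 1, .ofNat 0, .ofNat 0)),
  ((13, 0, .ofNat 0, .ofNat 0), (5, 0, .ofNat 0, .ofNat 0), (2, 1, .ofNat 0, .negSucc 0)),
  ((6, 0, .negSucc 0, .ofNat 0), (5, 2, .ofNat 0, .ofNat 0), (17, 0, .ofNat 0, .ofNat 0)),
  ((3, 1, .ofNat 0, .ofNat 0), (12, 0, .ofNat 0, .ofNat 0), (4, 1, .ofNat 0, .ofNat 0)),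
  ((4, 0, .ofNat 1, .ofNat 0), (7, 2, .ofNat 0, .ofNat 0), (0, 2, .ofNat 0, .negSucc 0)),
  ((16, 0, .ofNat 0, .ofNat 0), (8, 2, .ofNat 0, .ofNat 0), (6, 1, .ofNat 0, .ofNat 0)),
  ((42, 2, .ofNat 0, .ofNat 0), (9, 2, .ofNat 0, .ofNat 0), (7, 1, .ofNat 0, .ofNat 0)),
  ((10, 2, .ofNat 0, .ofNat 0), (37, 0, .ofNat 0, .ofNat 0), (8, 1, .ofNat 0, .ofNat 0)),
  ((41, 0, .ofNat 0, .ofNat 0), (11, 2, .ofNat 0, .ofNat 0), (9, 0, .ofNat 0, .ofNat 0)),
  ((18, 0, .ofNat 0, .ofNat 0), (12, 2, .ofNat 0, .ofNat 0), (10, 1, .ofNat 0, .ofNat 0)),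
  ((5, 1, .ofNat 0, .ofNat 0), (13, 2, .ofNat 0, .ofNat 0), (11, 1, .ofNat 0, .ofNat 0)),
  ((3, 0, .ofNat 0, .ofNat 0), (34, 0, .ofNat 0, .ofNat 0), (12, 1, .ofNat 0, .ofNat 0)),
  ((20, 2, .ofNat 0, .ofNat 0), (15, 2, .ofNat 0, .ofNat 0), (24, 2, .ofNat 1, .ofNat 0)),
  ((42, 0, .ofNat 0, .ofNat 0), (16, 2, .ofNat 0, .ofNat 0), (14, 1, .ofNat 0, .ofNat 0)),
  ((7, 0, .ofNat 0, .ofNat 0), (17, 2, .ofNat 1, .ofNat 0), (15, 1, .ofNat 0, .ofNat 0)),
  ((4, 2, .ofNat 0, .ofNat 0), (18, 2, .ofNat 0, .ofNat 0), (16, 1, .negSucc 0, .ofNat 0)),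
  ((11, 0, .ofNat 0, .ofNat 0), (19, 2, .ofNat 0, .ofNat 0), (17, 1, .ofNat 0, .ofNat 0)),
  ((41, 2, .ofNat 0, .ofNat 0), (26, 0, .ofNat 0, .ofNat 0), (18, 1, .ofNat 0, .ofNat 0)),
  ((25, 1, .ofNat 1, .ofNat 0), (21, 2, .ofNat 0, .ofNat 0), (14, 0, .ofNat 0, .ofNat 0)),
  ((33, 1, .ofNat 0, .ofNat 0), (22, 2, .ofNat 0, .ofNat 0), (20, 1, .ofNat 0, .ofNat 0)),
  ((38, 2, .ofNat 0, .ofNat 0), (23, 2, .ofNat 0, .ofNat 0), (21, 1, .ofNat 0, .ofNat 0)),
  ((28, 0, .ofNat 0, .ofNat 0), (43, 2, .ofNat 0, .ofNat 0), (22, 1, .ofNat 0, .ofNat 0)),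
  ((26, 2, .ofNat 0, .ofNat 0), (25, 2, .ofNat 0, .ofNat 0), (14, 2, .negSucc 0, .ofNat 0)),
  ((30, 2, .ofNat 0, .ofNat 0), (20, 0, .negSucc 0, .ofNat 0), (24, 1, .ofNat 0, .ofNat 0)),
  ((19, 1, .ofNat 0, .ofNat 0), (27, 2, .ofNat 0, .ofNat 0), (24, 0, .ofNat 0, .ofNat 0)),
  ((40, 0, .ofNat 0, .ofNat 0), (28, 2, .ofNat 0, .ofNat 0), (26, 1, .ofNat 0, .ofNat 0)),
  ((23, 0, .ofNat 0, .ofNat 0), (29, 2, .ofNat 0, .ofNat 0), (27, 1, .ofNat 0, .ofNat 0)),
  ((45, 0, .ofNat 0, .ofNat 0), (30, 0, .ofNat 0, .ofNat 0), (28, 1, .ofNat 0, .ofNat 0)),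
  ((29, 1, .ofNat 0, .ofNat 0), (31, 2, .ofNat 0, .ofNat 0), (25, 0, .ofNat 0, .ofNat 0)),
  ((45, 2, .ofNat 0, .ofNat 0), (32, 2, .ofNat 0, .ofNat 0), (30, 1, .ofNat 0, .ofNat 0)),
  ((1, 0, .ofNat 0, .ofNat 0), (33, 2, .negSucc 0, .ofNat 0), (31, 1, .ofNat 0, .ofNat 0)),
  ((38, 0, .ofNat 0, .ofNat 0), (21, 0, .ofNat 0, .ofNat 0), (32, 1, .ofNat 1, .ofNat 0)),
  ((13, 1, .ofNat 0, .ofNat 0), (35, 2, .ofNat 0, .negSucc 0), (37, 1, .ofNat 0, .ofNat 0)),
  ((2, 0, .ofNat 0, .ofNat 0), (36, 1, .ofNat 0, .ofNat 0), (34, 1, .ofNat 0, .ofNat 1)),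
  ((39, 0, .ofNat 0, .ofNat 0), (35, 1, .ofNat 0, .ofNat 0), (45, 1, .ofNat 0, .ofNat 0)),
  ((9, 1, .ofNat 0, .ofNat 0), (34, 2, .ofNat 0, .ofNat 0), (39, 2, .ofNat 0, .negSucc 0)),
  ((33, 0, .ofNat 0, .ofNat 0), (44, 2, .ofNat 0, .ofNat 0), (22, 0, .ofNat 0, .ofNat 0)),
  ((36, 0, .ofNat 0, .ofNat 0), (44, 1, .ofNat 0, .ofNat 0), (37, 2, .ofNat 0, .ofNat 1)),
  ((27, 0, .ofNat 0, .ofNat 0), (41, 1, .ofNat 0, .ofNat 0), (43, 0, .ofNat 0, .ofNat 0)),
  ((10, 0, .ofNat 0, .ofNat 0), (40, 1, .ofNat 0, .ofNat 0), (19, 0, .ofNat 0, .ofNat 0)),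
  ((15, 0, .ofNat 0, .ofNat 0), (43, 1, .ofNat 0, .ofNat 0), (8, 0, .ofNat 0, .ofNat 0)),
  ((40, 2, .ofNat 0, .ofNat 0), (42, 1, .ofNat 0, .ofNat 0), (23, 1, .ofNat 0, .ofNat 0)),
  ((0, 0, .ofNat 0, .ofNat 0), (39, 1, .ofNat 0, .ofNat 0), (38, 1, .ofNat 0, .ofNat 0)),
  ((29, 0, .ofNat 0, .ofNat 0), (36, 2, .ofNat 0, .ofNat 0), (31, 0, .ofNat 0, .ofNat 0))]

/-- The neighbour of the triangle `t` across the edge opposite to its `i`-th vertex. -/
def nb (t : Fin 46) (i : Fin 3) : Fin 46 × Fin 3 × ℤ × ℤ :=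
  match i with
  | 0 => (nbL.getD t.1 ((0, 0, 0, 0), (0, 0, 0, 0), (0, 0, 0, 0))).1
  | 1 => (nbL.getD t.1 ((0, 0, 0, 0), (0, 0, 0, 0), (0, 0, 0, 0))).2.1
  | 2 => (nbL.getD t.1 ((0, 0, 0, 0), (0, 0, 0, 0), (0, 0, 0, 0))).2.2

def nfL : List (ℤ × ℤ × ℤ × ℤ) := [
  (.negSucc 16, .ofNat 9, .ofNat 4, .negSucc 47341910396964261077999),
  (.negSucc 3, .negSucc 6, .ofNat 18, .negSucc 135139635133152527077199),
  (.ofNat 1, .ofNat 1, .ofNat 0, .negSucc 7254994060833484165199),
  (.negSucc 6, .negSucc 1, .negSucc 6, .negSucc 35076051794114429798699),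
  (.ofNat 13, .negSucc 12, .ofNat 8, .negSucc 75316675631534051714999),
  (.ofNat 9, .ofNat 15, .negSucc 9, .negSucc 48202672404181793097599),
  (.ofNat 1, .ofNat 0, .negSucc 4, .negSucc 8392429570370937191099),
  (.negSucc 8, .negSucc 0, .negSucc 17, .negSucc 39164671328397706891799),
  (.ofNat 1, .ofNat 3, .negSucc 19, .negSucc 19797526166003236450799),
  (.negSucc 154027, .negSucc 35234, .negSucc 145347, .negSucc 741754343242646868868133399),
  (.ofNat 5155, .ofNat 714, .ofNat 8074, .ofNat 18379851140115961214518800),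
  (.ofNat 20815, .ofNat 8517, .ofNat 21466, .ofNat 56784899997144196099021800),
  (.ofNat 3760429, .ofNat 9976054, .negSucc 75249, .negSucc 59649492716589947786886070799),
  (.ofNat 396971, .ofNat 1403790, .negSucc 3452979, .negSucc 5787946648457219025344564999),
  (.negSucc 158550, .negSucc 345971, .ofNat 75584, .ofNat 1526759395061953069125108000),
  (.ofNat 229502285, .ofNat 61898713, .ofNat 214943554, .ofNat 1012959951378546311892748596600),
  (.negSucc 64128306, .negSucc 40506592, .negSucc 87507461, .negSucc 493350962806397233321608824999),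
  (.ofNat 4046991, .ofNat 1482897, .negSucc 187977, .negSucc 23703238507943827686161107799),
  (.negSucc 317933142, .negSucc 523967608, .negSucc 66356401, .ofNat 2240608982717506181714289556200),
  (.negSucc 15126067, .negSucc 20246312, .ofNat 10939006, .ofNat 47459020511094235179394658400),
  (.negSucc 12142, .ofNat 3247, .negSucc 45553, .negSucc 73858975172311161239807399)]

/-- The plane of the face `f`. -/
def nf (f : Fin 21) : ℤ × ℤ × ℤ × ℤ := nfL.getD f.1 (0, 0, 0, 0)

def cfL : List (List (ℤ × ℤ × ℤ × ℤ)) := [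
  [(.negSucc 12, .ofNat 16, .negSucc 13, .ofNat 87797724736188265999200),
   (.negSucc 17, .ofNat 8, .ofNat 4, .negSucc 40086916336130776912799),
   (.negSucc 9, .ofNat 11, .ofNat 11, .negSucc 12265858602849831279299),
   (.negSucc 1, .ofNat 2, .negSucc 0, .ofNat 7900000000000000000000),
   (.negSucc 1, .negSucc 2, .ofNat 2, .ofNat 7800000000000000000000),
   (.negSucc 0, .ofNat 0, .ofNat 1, .ofNat 400000000000000000000),
   (.ofNat 6, .ofNat 1, .ofNat 10, .ofNat 22900000000000000000000),
   (.negSucc 17, .ofNat 6, .ofNat 24, .negSucc 27544384230961024627199),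
   (.ofNat 1, .ofNat 0, .ofNat 1, .ofNat 3658238530674511083300),
   (.ofNat 5172, .ofNat 705, .ofNat 8070, .ofNat 18427193050512925475596800),
   (.ofNat 2, .negSucc 0, .ofNat 0, .ofNat 5922862382996827468200),
   (.negSucc 0, .negSucc 2, .ofNat 1, .ofNat 9690666773564412682200),
   (.negSucc 0, .negSucc 1, .ofNat 1, .ofNat 5297785211088857787300),
   (.ofNat 0, .negSucc 0, .ofNat 0, .ofNat 5306455890648741351600),
   (.ofNat 5, .ofNat 1, .ofNat 7, .ofNat 21200000000000000000000),
   (.ofNat 0, .ofNat 1, .ofNat 1, .ofNat 5800000000000000000000),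
   (.negSucc 0, .ofNat 0, .ofNat 0, .ofNat 3300000000000000000000),
   (.negSucc 0, .negSucc 1, .ofNat 1, .ofNat 5600000000000000000000),
   (.negSucc 15126050, .negSucc 20246321, .ofNat 10939002, .ofNat 47459067853004632143655736400),
   (.ofNat 1, .ofNat 0, .ofNat 2, .ofNat 4139855368046225427600)],
  [(.negSucc 4, .negSucc 7, .ofNat 18, .negSucc 127884641072319042911999),
   (.ofNat 3, .negSucc 4, .ofNat 25, .negSucc 100063583339038097278499),
   (.negSucc 16, .ofNat 6, .ofNat 10, .negSucc 59822959501618475362199),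
   (.ofNat 0, .ofNat 0, .ofNat 1, .negSucc 1999999999999999999999),
   (.ofNat 0, .ofNat 0, .ofNat 1, .negSucc 1099999999999999999999),
   (.ofNat 0, .ofNat 0, .ofNat 1, .negSucc 1999999999999999999999),
   (.ofNat 0, .ofNat 0, .ofNat 1, .negSucc 999999999999999999999),
   (.ofNat 1, .ofNat 0, .ofNat 1, .ofNat 3300000000000000000000),
   (.ofNat 1, .ofNat 0, .ofNat 1, .ofNat 3040000000000000000000),
   (.ofNat 0, .negSucc 0, .ofNat 1, .negSucc 999999999999999999999),
   (.ofNat 0, .negSucc 0, .ofNat 0, .ofNat 5070000000000000000000),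
   (.ofNat 0, .ofNat 0, .ofNat 1, .negSucc 1699999999999999999999),
   (.ofNat 0, .negSucc 0, .ofNat 0, .ofNat 5170000000000000000000),
   (.ofNat 0, .ofNat 0, .ofNat 1, .negSucc 1999999999999999999999),
   (.ofNat 0, .ofNat 0, .ofNat 1, .negSucc 1799999999999999999999),
   (.negSucc 0, .ofNat 0, .ofNat 0, .ofNat 4000000000000000000000),
   (.ofNat 0, .ofNat 0, .ofNat 1, .negSucc 1999999999999999999999),
   (.ofNat 0, .negSucc 0, .ofNat 1, .negSucc 3799999999999999999999),
   (.ofNat 0, .ofNat 0, .ofNat 1, .negSucc 1699999999999999999999)],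
  [(.ofNat 8, .ofNat 3, .ofNat 7, .ofNat 27821057733280945633500),
   (.negSucc 11, .ofNat 14, .negSucc 7, .ofNat 68061681570700567549800),
   (.ofNat 1, .ofNat 1, .ofNat 0, .negSucc 6699999999999999999999),
   (.ofNat 0, .ofNat 1, .ofNat 0, .negSucc 899999999999999999999),
   (.ofNat 1, .ofNat 0, .ofNat 0, .negSucc 799999999999999999999),
   (.ofNat 1, .ofNat 1, .ofNat 0, .negSucc 5799999999999999999999),
   (.ofNat 2, .ofNat 0, .ofNat 1, .ofNat 4316984964769561098300),
   (.ofNat 1, .ofNat 0, .ofNat 0, .ofNat 1000000000000000000000),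
   (.ofNat 1, .ofNat 0, .ofNat 0, .ofNat 1000000000000000000000),
   (.negSucc 3760427, .negSucc 9976052, .ofNat 75250, .ofNat 59649485461595886953401905600),
   (.ofNat 1, .ofNat 0, .ofNat 0, .negSucc 1099999999999999999999),
   (.ofNat 0, .negSucc 0, .ofNat 0, .ofNat 5306455890648741351600),
   (.ofNat 2, .ofNat 2, .ofNat 1, .negSucc 4352118107921297099099),
   (.ofNat 0, .ofNat 1, .ofNat 1, .ofNat 7206685988999847164100),
   (.negSucc 4046989, .negSucc 1482895, .ofNat 187978, .ofNat 23703231252949766852676942600),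
   (.ofNat 7, .ofNat 10, .ofNat 1, .negSucc 49480640486326190126699),
   (.ofNat 1, .ofNat 0, .ofNat 0, .negSucc 1948538170184742813599),
   (.ofNat 1, .ofNat 0, .ofNat 0, .negSucc 99999999999999999999)],
  [(.negSucc 19, .ofNat 11, .negSucc 14, .ofNat 40240623837419621916300),
   (.ofNat 0, .negSucc 0, .negSucc 0, .negSucc 2199999999999999999999),
   (.negSucc 0, .ofNat 0, .negSucc 0, .negSucc 2209999999999999999999),
   (.negSucc 3, .negSucc 0, .negSucc 3, .negSucc 18299999999999999999999),
   (.negSucc 2, .negSucc 0, .negSucc 2, .negSucc 12699999999999999999999),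
   (.ofNat 154021, .ofNat 35233, .ofNat 145341, .ofNat 741719267190852754438334700),
   (.ofNat 0, .negSucc 0, .negSucc 0, .negSucc 3412306528612359077699),
   (.ofNat 0, .negSucc 0, .negSucc 0, .negSucc 1499999999999999999999),
   (.ofNat 0, .negSucc 0, .ofNat 0, .ofNat 5103089042789654116200),
   (.ofNat 0, .negSucc 0, .negSucc 0, .ofNat 0),
   (.ofNat 0, .negSucc 0, .ofNat 0, .ofNat 5210000000000000000000),
   (.negSucc 22, .negSucc 5, .negSucc 21, .negSucc 106778405323913640431399),
   (.ofNat 64128300, .ofNat 40506591, .ofNat 87507455, .ofNat 493350927730345439207179026300),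
   (.negSucc 0, .ofNat 0, .ofNat 0, .ofNat 4303810036087660098000),
   (.negSucc 16, .negSucc 4, .negSucc 15, .negSucc 74605229482711397698799),
   (.ofNat 0, .negSucc 0, .negSucc 0, .ofNat 0),
   (.ofNat 0, .negSucc 0, .negSucc 0, .negSucc 2899999999999999999999)],
  [(.ofNat 4, .negSucc 27, .ofNat 18, .negSucc 27114003227352258617399),
   (.ofNat 12, .negSucc 12, .ofNat 13, .negSucc 66924246061163114523899),
   (.ofNat 22, .negSucc 11, .ofNat 26, .negSucc 36152004303136344823199),
   (.ofNat 1, .negSucc 0, .ofNat 1, .negSucc 4399999999999999999999),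
   (.ofNat 1, .negSucc 0, .ofNat 0, .ofNat 230000000000000000000),
   (.ofNat 1, .negSucc 0, .ofNat 0, .ofNat 230000000000000000000),
   (.ofNat 0, .negSucc 0, .ofNat 1, .ofNat 1200000000000000000000),
   (.ofNat 0, .negSucc 0, .ofNat 0, .ofNat 4500000000000000000000),
   (.ofNat 0, .negSucc 0, .ofNat 1, .ofNat 1600000000000000000000),
   (.ofNat 0, .negSucc 0, .ofNat 0, .ofNat 4600000000000000000000),
   (.ofNat 2, .negSucc 0, .ofNat 2, .negSucc 2980655215075586084399),
   (.ofNat 64128320, .ofNat 40506580, .ofNat 87507470, .ofNat 493350887489721601787557110000),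
   (.negSucc 4046977, .negSucc 1482909, .ofNat 187986, .ofNat 23703163191268196152109392800),
   (.ofNat 0, .negSucc 1, .ofNat 1, .ofNat 52418199157477911450),
   (.ofNat 1, .negSucc 0, .ofNat 0, .ofNat 1800000000000000000000),
   (.ofNat 1, .negSucc 0, .ofNat 0, .ofNat 300000000000000000000)],
  [(.ofNat 8, .ofNat 15, .negSucc 4, .negSucc 39810242833810855906499),
   (.ofNat 18, .ofNat 16, .ofNat 8, .negSucc 9038001075784086205799),
   (.ofNat 8, .ofNat 12, .ofNat 10, .negSucc 28405146238178556646799),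
   (.ofNat 5, .ofNat 3, .ofNat 4, .ofNat 8130000000000000000000),
   (.ofNat 1, .ofNat 1, .ofNat 0, .negSucc 199999999999999999999),
   (.ofNat 2, .ofNat 2, .ofNat 1, .negSucc 2743678898005883312474),
   (.negSucc 22, .negSucc 59, .ofNat 0, .ofNat 355590000000000000000000),
   (.negSucc 396961, .negSucc 1403774, .ofNat 3452970, .ofNat 5787898445784814843551467400),
   (.ofNat 4, .ofNat 6, .negSucc 2, .negSucc 17333594920343051044694),
   (.ofNat 2, .ofNat 1, .ofNat 2, .ofNat 4475962437531166501920),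
   (.ofNat 0, .ofNat 1, .ofNat 1, .ofNat 5000000000000000000000),
   (.negSucc 0, .negSucc 0, .ofNat 0, .ofNat 6342602098054827285450),
   (.negSucc 317933151, .negSucc 523967623, .negSucc 66356391, .ofNat 2240609030920178585896082653800),
   (.ofNat 4, .ofNat 6, .negSucc 2, .negSucc 17333594920343051044694),
   (.ofNat 1, .ofNat 1, .ofNat 1, .negSucc 1689245439164406588464)],
  [(.ofNat 10, .ofNat 1, .ofNat 13, .ofNat 30772241758026769700700),
   (.ofNat 0, .negSucc 2, .ofNat 15, .ofNat 11405096595632299259700),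
   (.ofNat 1, .negSucc 0, .ofNat 0, .negSucc 1999999999999999999999),
   (.ofNat 1, .ofNat 0, .ofNat 0, .ofNat 1400000000000000000000),
   (.ofNat 0, .negSucc 0, .ofNat 0, .ofNat 700000000000000000000),
   (.ofNat 0, .negSucc 0, .ofNat 0, .ofNat 3000000000000000000000),
   (.ofNat 0, .negSucc 0, .ofNat 0, .ofNat 1300000000000000000000),
   (.ofNat 0, .negSucc 0, .ofNat 0, .ofNat 3000000000000000000000),
   (.ofNat 1, .ofNat 0, .ofNat 1, .ofNat 2230000000000000000000),
   (.ofNat 1, .ofNat 0, .ofNat 1, .ofNat 2230000000000000000000),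
   (.ofNat 0, .negSucc 0, .ofNat 0, .ofNat 400000000000000000000),
   (.ofNat 0, .negSucc 0, .ofNat 0, .ofNat 400000000000000000000),
   (.ofNat 0, .negSucc 0, .ofNat 0, .ofNat 1500000000000000000000),
   (.ofNat 1, .ofNat 0, .ofNat 0, .ofNat 1000000000000000000000)],
  [(.negSucc 9, .negSucc 3, .ofNat 2, .negSucc 19367145162394470440999),
   (.ofNat 17, .ofNat 4, .ofNat 16, .ofNat 80600000000000000000000),
   (.negSucc 5, .negSucc 0, .negSucc 9, .negSucc 22799999999999999999999),
   (.negSucc 2, .negSucc 0, .negSucc 3, .negSucc 9317748728129784112169),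
   (.negSucc 22, .negSucc 59, .ofNat 0, .ofNat 355590000000000000000000),
   (.negSucc 0, .negSucc 0, .ofNat 0, .ofNat 1054433458841476724010),
   (.negSucc 1, .negSucc 0, .negSucc 1, .negSucc 4131657634644153694079),
   (.ofNat 229502294, .ofNat 61898714, .ofNat 214943572, .ofNat 1012959990543217640290455488400),
   (.ofNat 4, .ofNat 2, .ofNat 5, .ofNat 26182103864166335521800),
   (.negSucc 0, .ofNat 0, .ofNat 0, .ofNat 3000000000000000000000),
   (.negSucc 1, .negSucc 1, .negSucc 0, .ofNat 3174059901614649322275),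
   (.negSucc 0, .negSucc 0, .ofNat 0, .ofNat 1054433458841476724010),
   (.ofNat 12134, .negSucc 3247, .ofNat 45536, .ofNat 73819810500982763532915600)],
  [(.ofNat 1, .ofNat 0, .ofNat 1, .ofNat 3500000000000000000000),
   (.ofNat 1, .ofNat 0, .ofNat 0, .ofNat 2315859686085264719400),
   (.ofNat 1, .ofNat 0, .ofNat 0, .ofNat 2315859686085264719400),
   (.ofNat 0, .negSucc 0, .ofNat 0, .ofNat 4100000000000000000000),
   (.negSucc 396969, .negSucc 1403786, .ofNat 3452960, .ofNat 5787926850931053022108114200),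
   (.ofNat 0, .negSucc 0, .ofNat 0, .ofNat 4200000000000000000000),
   (.ofNat 3, .ofNat 1, .ofNat 3, .ofNat 11180000000000000000000),
   (.ofNat 0, .ofNat 1, .ofNat 1, .ofNat 7000000000000000000000),
   (.negSucc 0, .negSucc 0, .ofNat 0, .ofNat 5500000000000000000000),
   (.negSucc 0, .negSucc 1, .ofNat 0, .ofNat 6300000000000000000000),
   (.ofNat 0, .negSucc 0, .ofNat 0, .ofNat 3012667025261362068600),
   (.ofNat 12144, .negSucc 3243, .ofNat 45534, .ofNat 73839177646145158003356600)],
  [(.negSucc 159182, .negSucc 35948, .negSucc 153421, .negSucc 760134194382762830082652199),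
   (.negSucc 2, .negSucc 0, .negSucc 2, .negSucc 10759525090219150244999),
   (.negSucc 3914456, .negSucc 10011288, .negSucc 70097, .ofNat 58907738373347300918017937400),
   (.negSucc 2, .negSucc 0, .negSucc 2, .negSucc 10299999999999999999999),
   (.negSucc 2, .negSucc 0, .negSucc 2, .negSucc 10759525090219150244999),
   (.negSucc 16, .negSucc 3, .negSucc 15, .negSucc 80499999999999999999999),
   (.negSucc 0, .ofNat 1, .ofNat 0, .ofNat 600000000000000000000),
   (.negSucc 0, .ofNat 0, .ofNat 0, .ofNat 3300000000000000000000),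
   (.negSucc 16, .negSucc 3, .negSucc 15, .negSucc 80499999999999999999999),
   (.negSucc 2, .negSucc 0, .negSucc 2, .negSucc 10299999999999999999999),
   (.negSucc 2, .negSucc 0, .negSucc 2, .negSucc 10399999999999999999999)],
  [(.negSucc 15659, .negSucc 7802, .negSucc 13391, .negSucc 38405048857028234884502999),
   (.negSucc 0, .negSucc 0, .ofNat 0, .negSucc 430381003608766009799),
   (.negSucc 0, .negSucc 0, .ofNat 0, .ofNat 400000000000000000000),
   (.negSucc 0, .negSucc 0, .ofNat 0, .negSucc 430381003608766009799),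
   (.ofNat 5, .ofNat 1, .ofNat 7, .ofNat 21200000000000000000000),
   (.negSucc 0, .ofNat 1, .ofNat 0, .ofNat 600000000000000000000),
   (.negSucc 0, .ofNat 0, .ofNat 0, .ofNat 1000000000000000000000),
   (.negSucc 0, .negSucc 0, .ofNat 0, .ofNat 300000000000000000000),
   (.negSucc 0, .negSucc 0, .ofNat 0, .ofNat 400000000000000000000),
   (.ofNat 1, .ofNat 0, .ofNat 2, .ofNat 4139855368046225427600)],
  [(.negSucc 0, .negSucc 1, .ofNat 0, .ofNat 9468382079392852215600),
   (.negSucc 0, .negSucc 0, .ofNat 0, .ofNat 1054433458841476724010),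
   (.negSucc 179365, .negSucc 354488, .ofNat 54118, .ofNat 1469974495064808873026086200),
   (.ofNat 3, .ofNat 1, .ofNat 3, .ofNat 11100000000000000000000),
   (.negSucc 0, .ofNat 1, .ofNat 0, .negSucc 999999999999999999999),
   (.negSucc 0, .ofNat 0, .ofNat 0, .ofNat 1000000000000000000000),
   (.negSucc 1, .negSucc 1, .negSucc 0, .ofNat 3000000000000000000000),
   (.negSucc 0, .negSucc 0, .ofNat 0, .ofNat 1054433458841476724010),
   (.ofNat 32958, .ofNat 5270, .ofNat 67020, .ofNat 130643875169455357338829200)],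
  [(.ofNat 1, .ofNat 2, .ofNat 0, .negSucc 8999999999999999999999),
   (.ofNat 3918980, .ofNat 10322026, .negSucc 150833, .negSucc 61176252111651900856011178799),
   (.ofNat 23, .ofNat 60, .ofNat 0, .negSucc 355579999999999999999999),
   (.ofNat 0, .ofNat 1, .ofNat 0, .negSucc 3999999999999999999999),
   (.negSucc 0, .ofNat 0, .ofNat 0, .ofNat 3300000000000000000000),
   (.ofNat 11, .ofNat 21, .ofNat 3, .negSucc 104549999999999999999999),
   (.ofNat 3, .ofNat 7, .negSucc 0, .negSucc 34813566676528863715799),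
   (.ofNat 1, .ofNat 2, .ofNat 0, .negSucc 8999999999999999999999)],
  [(.ofNat 0, .ofNat 0, .negSucc 0, .ofNat 634811980322929864455),
   (.ofNat 2, .ofNat 1, .ofNat 2, .ofNat 4310000000000000000000),
   (.negSucc 0, .ofNat 1, .ofNat 0, .negSucc 299999999999999999999),
   (.negSucc 0, .ofNat 0, .ofNat 0, .ofNat 2400000000000000000000),
   (.negSucc 1, .negSucc 2, .ofNat 0, .ofNat 10300000000000000000000),
   (.ofNat 15523039, .ofNat 21650103, .negSucc 14391985, .negSucc 53246967159551454204739223399),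
   (.ofNat 1, .ofNat 1, .ofNat 0, .negSucc 1054433458841476724009)],
  [(.ofNat 2, .ofNat 1, .ofNat 2, .ofNat 4310000000000000000000),
   (.ofNat 0, .ofNat 1, .ofNat 0, .negSucc 4099999999999999999999),
   (.negSucc 0, .ofNat 0, .ofNat 0, .ofNat 3200000000000000000000),
   (.negSucc 2, .negSucc 4, .ofNat 2, .ofNat 17400000000000000000000),
   (.negSucc 14967516, .negSucc 19900340, .ofNat 10863422, .ofNat 45932261116032282110269550400),
   (.ofNat 0, .ofNat 0, .ofNat 1, .negSucc 634811980322929864454)],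
  [(.ofNat 293630592, .ofNat 102405306, .ofNat 302451016, .ofNat 1506310914184943545214357421600),
   (.negSucc 0, .ofNat 0, .ofNat 0, .ofNat 4303810036087660098000),
   (.negSucc 547435427, .negSucc 585866321, .negSucc 281299955, .ofNat 1227649031338959869821540959600),
   (.negSucc 1, .negSucc 0, .negSucc 1, .negSucc 4299999999999999999999),
   (.negSucc 2, .negSucc 0, .negSucc 2, .negSucc 10599999999999999999999)],
  [(.negSucc 0, .ofNat 0, .ofNat 0, .ofNat 4303810036087660098000),
   (.ofNat 0, .negSucc 0, .negSucc 0, .negSucc 7206685988999847164099),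
   (.ofNat 0, .negSucc 0, .ofNat 0, .ofNat 2990000000000000000000),
   (.ofNat 0, .negSucc 0, .negSucc 0, .negSucc 3999999999999999999999)],
  [(.ofNat 321980134, .ofNat 525450506, .ofNat 66168424, .negSucc 2264312221225450009400450663999),
   (.ofNat 0, .negSucc 0, .ofNat 0, .ofNat 2990000000000000000000),
   (.ofNat 1, .ofNat 0, .ofNat 0, .negSucc 999999999999999999999)],
  [(.ofNat 3, .ofNat 5, .negSucc 1, .negSucc 17299999999999999999999),
   (.ofNat 2, .ofNat 2, .ofNat 1, .negSucc 2899999999999999999999)],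
  [(.ofNat 1, .ofNat 1, .ofNat 0, .negSucc 1054433458841476724009)],
  []]

/-- Separating functional of the faces `f` and `g`. -/
def cf (f g : Fin 21) : ℤ × ℤ × ℤ × ℤ := (cfL.getD f.1 []).getD (g.1 - f.1 - 1) (0, 0, 0, 0)

def alL : List ((ℤ × ℤ × ℤ × ℤ) × (ℤ × ℤ × ℤ × ℤ) × (ℤ × ℤ × ℤ × ℤ)) := [
  ((.ofNat 0, .negSucc 222819, .ofNat 58200, .ofNat 706469187763779094326672000), (.ofNat 0, .ofNat 268021, .negSucc 51245, .negSucc 838440480914364917115727199), (.ofNat 0, .negSucc 45200, .negSucc 6953, .ofNat 296721633196025575644506400)),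
  ((.ofNat 0, .negSucc 599, .ofNat 3360, .ofNat 3838998552190192807416000), (.ofNat 0, .ofNat 21217, .negSucc 7301, .negSucc 34053589495541032835417999), (.ofNat 0, .negSucc 20616, .ofNat 3942, .ofNat 64495421608797301316594400)),
  ((.ofNat 0, .ofNat 4360, .ofNat 11760, .ofNat 5095711082727789556032000), (.ofNat 0, .ofNat 16857, .negSucc 19061, .ofNat 105002020906447140626950800), (.ofNat 0, .negSucc 21216, .ofNat 7302, .ofNat 34053589495541032835418000)),
  ((.ofNat 0, .ofNat 245216, .ofNat 371616, .ofNat 669665955519182170992643200), (.ofNat 0, .ofNat 876711, .negSucc 1640297, .ofNat 11923304417733097488081462480), (.ofNat 0, .negSucc 1121926, .ofNat 1268682, .negSucc 6988467835884648581727058799)),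
  ((.negSucc 6232502, .negSucc 6232502, .ofNat 0, .ofNat 45216772249126872560061495600), (.ofNat 68163953, .negSucc 35210346, .ofNat 0, .ofNat 25690056996895399020514001400), (.negSucc 61931449, .ofNat 41442850, .ofNat 0, .ofNat 63929805671404583695815030000)),
  ((.ofNat 976797459, .negSucc 639970748, .ofNat 0, .ofNat 1049538038642360783423115127920), (.ofNat 126721672, .ofNat 69943780, .ofNat 0, .ofNat 1297947859558177022709469956000), (.negSucc 1103519130, .ofNat 570026969, .ofNat 0, .negSucc 415901193003793081440213157799)),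
  ((.ofNat 0, .ofNat 68029, .negSucc 408173, .ofNat 3722538067443665880544134000), (.ofNat 0, .ofNat 489450, .ofNat 493940, .negSucc 6636310301205790229272247999), (.ofNat 0, .negSucc 557478, .negSucc 85765, .ofNat 3659566809417648766282245600)),
  ((.ofNat 0, .ofNat 183625, .negSucc 56499, .negSucc 134175120562565024680237499), (.ofNat 0, .negSucc 134679, .ofNat 105894, .negSucc 151247074574214203759974799), (.ofNat 0, .negSucc 48944, .negSucc 49393, .ofNat 663631030120579022927224800)),
  ((.ofNat 0, .ofNat 41535, .ofNat 3045, .negSucc 91646714275962233731843499), (.ofNat 0, .negSucc 54274, .ofNat 6972, .ofNat 230996182678914421071903600), (.ofNat 0, .ofNat 12740, .negSucc 10016, .ofNat 14307155702966208463781400)),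
  ((.ofNat 0, .negSucc 4549, .ofNat 6370, .ofNat 78133519300153425249141000), (.ofNat 0, .negSucc 49724, .ofNat 602, .ofNat 258940821243231598088217600), (.ofNat 0, .ofNat 54275, .negSucc 6971, .negSucc 230996182678914421071903599)),
  ((.ofNat 0, .ofNat 293553, .ofNat 309365, .ofNat 2276160532786218688072362900), (.ofNat 0, .negSucc 252602, .negSucc 366694, .negSucc 1872146821363543727862759899), (.ofNat 0, .negSucc 40949, .ofNat 57330, .ofNat 703201673701380827242269000)),
  ((.ofNat 0, .ofNat 20230119, .ofNat 6051745, .ofNat 170003096572295876230848206700), (.ofNat 0, .negSucc 120513509, .negSucc 151629659, .negSucc 692177042520558749310552395999), (.ofNat 0, .ofNat 100283391, .ofNat 145577915, .ofNat 743242288081326859961515680300)),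
  ((.ofNat 0, .ofNat 59040779, .negSucc 221762925, .ofNat 1160184771599614713887100566400), (.ofNat 0, .negSucc 1601510703, .negSucc 1718967123, .negSucc 6646211463724369966883690636399), (.ofNat 0, .ofNat 1542469925, .ofNat 1940730050, .ofNat 8859274539953305359765403530000)),
  ((.ofNat 0, .negSucc 160922, .negSucc 243872, .negSucc 439468283309463299713922099), (.ofNat 0, .negSucc 847584, .negSucc 838599, .negSucc 2904096961385996711137802999), (.ofNat 0, .ofNat 1008508, .ofNat 1082473, .ofNat 4185271702597210306601820300)),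
  ((.ofNat 0, .negSucc 231444563, .ofNat 149845519, .negSucc 37992025334485512212261238899), (.ofNat 0, .ofNat 375938550, .negSucc 961234824, .ofNat 988543399502816566324136471250), (.ofNat 0, .negSucc 144493985, .ofNat 811389306, .ofNat 375516625903362488141491494600)),
  ((.ofNat 0, .negSucc 2922191, .ofNat 1415381, .ofNat 135612623856118560921970200), (.ofNat 0, .ofNat 6317766, .negSucc 10097501, .ofNat 26965887174579298186361320200), (.ofNat 0, .negSucc 3395573, .ofNat 8682121, .negSucc 8928779092283504470024458449)),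
  ((.ofNat 0, .negSucc 40948374, .ofNat 12599500, .ofNat 29921051885452000503692962500), (.ofNat 0, .ofNat 79907932, .negSucc 74867428, .ofNat 431408168880385591424969589150), (.ofNat 0, .negSucc 38959556, .ofNat 62267929, .negSucc 166289637576572338815894807899)),
  ((.ofNat 0, .ofNat 1484911285, .negSucc 2762142669, .ofNat 21371112774516128021644328082000), (.ofNat 0, .ofNat 955354023, .ofNat 475806569, .ofNat 7501277546853302881175880473100), (.ofNat 0, .negSucc 2440265307, .ofNat 2286336101, .negSucc 13174541772731775368900994376349)),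
  ((.ofNat 0, .ofNat 1288947582, .ofNat 385582610, .ofNat 10831625867320565828422614312600), (.ofNat 0, .ofNat 1732036761, .ofNat 1118994919, .ofNat 14037909136437063181559558202900), (.ofNat 0, .negSucc 3020984342, .negSucc 1504577528, .negSucc 23720256026536119921556162577099)),
  ((.ofNat 0, .ofNat 57504564, .ofNat 26403646, .ofNat 475317351892541513535676095600), (.ofNat 0, .ofNat 17909775, .ofNat 22318335, .ofNat 163528756134661711321625097000), (.ofNat 0, .negSucc 75414338, .negSucc 48721980, .negSucc 611222384134179433238109587099)),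
  ((.negSucc 1302131, .ofNat 0, .ofNat 6510660, .ofNat 10928051101326249186521425200), (.ofNat 12718680, .ofNat 0, .negSucc 6876574, .negSucc 63246722157716894635700861999), (.negSucc 11416547, .ofNat 0, .ofNat 365915, .ofNat 64268757180178208867642132700)),
  ((.ofNat 21944, .ofNat 0, .ofNat 493740, .ofNat 278606281924127458912010400), (.ofNat 224224, .ofNat 0, .negSucc 626834, .negSucc 462200649269241979713216599), (.negSucc 246167, .ofNat 0, .ofNat 133095, .ofNat 1224130106278391509078081200)),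
  ((.ofNat 13247, .ofNat 0, .ofNat 74880, .ofNat 37984136235498861726918600), (.ofNat 7137, .ofNat 0, .negSucc 131864, .ofNat 129783920126619591755497575), (.negSucc 20383, .ofNat 0, .ofNat 56985, .ofNat 42018240842658361792110600)),
  ((.ofNat 2808, .ofNat 0, .ofNat 6240, .ofNat 14166421114786141978576800), (.negSucc 428, .ofNat 0, .negSucc 50194, .ofNat 67241705848950030551878725), (.negSucc 2378, .ofNat 0, .ofNat 43955, .negSucc 43261306708873197251832524)),
  ((.ofNat 171131625, .ofNat 13581875, .ofNat 0, .ofNat 121583924662487224066529400000), (.ofNat 359392152, .negSucc 485966059, .ofNat 0, .negSucc 2271528533133543141800993851199), (.negSucc 530523776, .ofNat 472384185, .ofNat 0, .ofNat 3224732926118684139958805206200)),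
  ((.ofNat 9857225, .negSucc 9857224, .ofNat 0, .negSucc 45251865475172464330141919999), (.negSucc 993292, .negSucc 2128484, .ofNat 0, .ofNat 4458156284268861025796544600), (.negSucc 8863931, .ofNat 11985710, .ofNat 0, .ofNat 56024246332890077488365319200)),
  ((.negSucc 1945700, .ofNat 2906541, .ofNat 0, .ofNat 20045735068023480375205846200), (.ofNat 7289424, .negSucc 2482435, .ofNat 0, .negSucc 9854709283472224936636871999), (.negSucc 5343722, .negSucc 424104, .ofNat 0, .negSucc 3796556099138310738593563199)),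
  ((.ofNat 4823631, .ofNat 1974720, .ofNat 0, .ofNat 21553968282404090502673103400), (.negSucc 4006430, .negSucc 2253019, .ofNat 0, .negSucc 12350264064515575251609956399), (.negSucc 817199, .ofNat 278300, .ofNat 0, .ofNat 1104788036263702347156600000)),
  ((.negSucc 3671, .negSucc 4079, .ofNat 0, .ofNat 6936020254158873013936800), (.negSucc 29438, .negSucc 14539, .ofNat 0, .negSucc 80852236099950000133047599), (.ofNat 33111, .ofNat 18620, .ofNat 0, .ofNat 102068298053847729352148400)),
  ((.negSucc 62576, .negSucc 33999, .ofNat 0, .negSucc 148634231501305385314478999), (.negSucc 25739, .negSucc 9619, .ofNat 0, .negSucc 55501934225386464623807999), (.ofNat 88317, .ofNat 43620, .ofNat 0, .ofNat 242556708299850000399142800)),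
  ((.ofNat 28314, .ofNat 10582, .ofNat 0, .ofNat 61052127647925111086188800), (.ofNat 9843, .negSucc 48738, .ofNat 0, .negSucc 46454751688192058076465599), (.negSucc 38156, .ofNat 38157, .ofNat 0, .ofNat 175168511516796636116678400)),
  ((.ofNat 8316, .ofNat 2068, .ofNat 0, .ofNat 16588605403096277081731200), (.negSucc 4262, .negSucc 22136, .ofNat 0, .ofNat 18709522988880275978025600), (.negSucc 4052, .ofNat 20069, .ofNat 0, .ofNat 19128427165726141560897600)),
  ((.ofNat 1848, .negSucc 1055, .ofNat 0, .ofNat 5643155719318139920497600), (.negSucc 3268, .negSucc 6322, .ofNat 0, .ofNat 14694355145879561617264800), (.ofNat 1421, .ofNat 7379, .ofNat 0, .negSucc 6236507662960091992675199)),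
  ((.negSucc 4311, .negSucc 17027, .ofNat 0, .ofNat 45555542311318809626656800), (.negSucc 25108, .negSucc 39878, .ofNat 0, .ofNat 113149748134766236572478800), (.ofNat 29421, .ofNat 56907, .ofNat 0, .negSucc 132249196312916054555383199)),
  ((.ofNat 0, .ofNat 2264, .ofNat 2240, .ofNat 7757187209044398560635200), (.ofNat 0, .ofNat 483, .negSucc 3331, .ofNat 6691133463105485154360600), (.ofNat 0, .negSucc 2746, .ofNat 1092, .ofNat 23432093741479265403561000)),
  ((.negSucc 293, .ofNat 130, .ofNat 0, .negSucc 848711339116486571325599), (.negSucc 419, .negSucc 390, .ofNat 0, .negSucc 467824150922728652652599), (.ofNat 714, .ofNat 261, .ofNat 0, .ofNat 4791431713176391987103400)),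
  ((.negSucc 2330, .negSucc 3779, .ofNat 0, .ofNat 13340089587857311239760800), (.ofNat 8400, .ofNat 7820, .ofNat 0, .ofNat 9356483018454573053052000), (.negSucc 6068, .negSucc 4039, .ofNat 0, .negSucc 8838734671113227543262599)),
  ((.negSucc 49724, .ofNat 0, .negSucc 601, .ofNat 101813758431713402026352400), (.ofNat 35711, .ofNat 0, .ofNat 36946, .ofNat 241657212002307679438660800), (.ofNat 14014, .ofNat 0, .negSucc 36343, .ofNat 269886762791013859553462400)),
  ((.ofNat 3920, .ofNat 15480, .ofNat 0, .negSucc 41414129373926190569687999), (.ofNat 39501, .ofNat 45000, .ofNat 0, .negSucc 82949482730535516898802999), (.negSucc 43420, .negSucc 60479, .ofNat 0, .ofNat 173900178699161602685797800)),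
  ((.ofNat 23751, .ofNat 0, .ofNat 32760, .ofNat 132533247775297840121851200), (.negSucc 63790, .ofNat 0, .ofNat 71080, .negSucc 456938954579455742732738399), (.ofNat 40040, .ofNat 0, .negSucc 103839, .ofNat 771105036545753884438464000)),
  ((.ofNat 0, .ofNat 1382339, .negSucc 9268937, .ofNat 541219605754153172899852800), (.ofNat 0, .ofNat 4991820, .ofNat 5902960, .ofNat 45229720937933447956384344000), (.ofNat 0, .negSucc 6374158, .ofNat 3365978, .ofNat 53002483205117444150148196200)),
  ((.ofNat 5347595, .negSucc 3546388, .ofNat 0, .negSucc 12548986467597872433910969199), (.negSucc 4933187, .ofNat 2576574, .ofNat 0, .ofNat 13627559996931764843410651200), (.negSucc 414406, .ofNat 969815, .ofNat 0, .ofNat 6991758467555240691099988200)),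
  ((.ofNat 0, .ofNat 91728, .negSucc 44428, .negSucc 4256898506694304602931799), (.ofNat 0, .ofNat 406692, .ofNat 80969, .negSucc 377750356248955427610572699), (.ofNat 0, .negSucc 498419, .negSucc 36539, .ofNat 1099760571311546804782122000)),
  ((.ofNat 2054481, .ofNat 0, .ofNat 2216760, .ofNat 13675463984919442152897450000), (.negSucc 2033459, .ofNat 0, .ofNat 242795, .ofNat 11217905605970193549482563500), (.negSucc 21020, .ofNat 0, .negSucc 2459554, .ofNat 3294843586598551497042057525)),
  ((.negSucc 222819, .ofNat 0, .ofNat 83240, .negSucc 246500104986915576732935999), (.ofNat 191373, .ofNat 0, .negSucc 213239, .ofNat 1370816863738367228198215200), (.ofNat 31447, .ofNat 0, .ofNat 130000, .ofNat 120487313865292088273559000)),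
  ((.ofNat 25767, .ofNat 14000, .ofNat 0, .ofNat 61202330618184570423609000), (.negSucc 18206, .negSucc 12119, .ofNat 0, .negSucc 26516204013339682629787799), (.negSucc 7559, .negSucc 1879, .ofNat 0, .negSucc 15080550366451160983391999))]

/-- Barycentric functionals of the triangle `t`. -/
def al (t : Fin 46) (i : Fin 3) : ℤ × ℤ × ℤ × ℤ :=
  match i with
  | 0 => (alL.getD t.1 ((0, 0, 0, 0), (0, 0, 0, 0), (0, 0, 0, 0))).1
  | 1 => (alL.getD t.1 ((0, 0, 0, 0), (0, 0, 0, 0), (0, 0, 0, 0))).2.1
  | 2 => (alL.getD t.1 ((0, 0, 0, 0), (0, 0, 0, 0), (0, 0, 0, 0))).2.2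

def dlL : List ℤ := [.ofNat 164750340045439752855451200, .ofNat 34280830665446461288592400, .ofNat 144151321484715963018400800, .ofNat 5604502537367631077347046880, .ofNat 134836634917426855276390527000, .ofNat 1931584705196744724692371926120, .ofNat 745794575655524417554131600, .ofNat 378208834983799794487012500, .ofNat 153656624105918395803841500, .ofNat 106078157864470602265455000, .ofNat 1107215385124055787451872000, .ofNat 221068342133063986881811491000, .ofNat 3373247847828550106768813460000, .ofNat 841706457901750295750095200, .ofNat 1326068000071693542253366726950, .ofNat 18172720706151912277258831950, .ofNat 295039583189265253112767743750, .ofNat 15697848548637655533919214178750, .ofNat 1149278977221509088426009938400, .ofNat 27623723893023791619191605500, .ofNat 11950086123787563418462695900, .ofNat 1040535738933276988276875000, .ofNat 209786297204776815274526775, .ofNat 38146820254862975278623000, .ofNat 1074788317647628222224340755000, .ofNat 15230537141986474184019943800, .ofNat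 6394469685412944699975411000, .ofNat 10308492254152217598219747000, .ofNat 28152082208056602233037600, .ofNat 38420542573158150460855800, .ofNat 189765887476529689126401600, .ofNat 54426555557702694620654400, .ofNat 14101003202237609545087200, .ofNat 26456094133168991643752400, .ofNat 37880414413629149118556800, .ofNat 3474896223137176763125200, .ofNat 13857837935198656749550200, .ofNat 613357733225034941018475600, .ofNat 49536566594699895217306800, .ofNat 446699329741595981827576800, .ofNat 98773423748805045279432393000, .ofNat 8070331996889133100599670200, .ofNat 717753316555897072568617500, .ofNat 28188213177488187199422071025, .ofNat 1244804072616743739738838200, .ofNat 19605576238393726810429200]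

/-- Denominators of the barycentric functionals. -/
def dl (t : Fin 46) : ℤ := dlL.getD t.1 0

def ctL : List (List (ℤ × ℤ × ℤ × ℤ)) := [
  [(.ofNat 0, .ofNat 268021, .negSucc 51245, .negSucc 838440480914364917115727199),
   (.ofNat 0, .ofNat 268021, .negSucc 51245, .negSucc 838440480914364917115727199),
   (.ofNat 0, .ofNat 268021, .negSucc 51245, .negSucc 838440480914364917115727199),
   (.negSucc 12, .ofNat 16, .negSucc 13, .ofNat 87797724736188265999200),
   (.negSucc 12, .ofNat 16, .negSucc 13, .ofNat 87797724736188265999200),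
   (.negSucc 17, .ofNat 8, .ofNat 4, .negSucc 40086916336130776912799),
   (.negSucc 17, .ofNat 8, .ofNat 4, .negSucc 40086916336130776912799),
   (.negSucc 17, .ofNat 8, .ofNat 4, .negSucc 40086916336130776912799),
   (.negSucc 17, .ofNat 8, .ofNat 4, .negSucc 40086916336130776912799),
   (.negSucc 9, .ofNat 11, .ofNat 11, .negSucc 12265858602849831279299),
   (.negSucc 9, .ofNat 11, .ofNat 11, .negSucc 12265858602849831279299),
   (.negSucc 9, .ofNat 11, .ofNat 11, .negSucc 12265858602849831279299),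
   (.negSucc 9, .ofNat 11, .ofNat 11, .negSucc 12265858602849831279299),
   (.negSucc 1, .ofNat 2, .negSucc 0, .ofNat 7900000000000000000000),
   (.negSucc 1, .ofNat 2, .negSucc 0, .ofNat 7900000000000000000000),
   (.negSucc 1, .ofNat 2, .negSucc 0, .ofNat 7900000000000000000000),
   (.negSucc 1, .ofNat 2, .negSucc 0, .ofNat 7900000000000000000000),
   (.negSucc 1, .ofNat 2, .negSucc 0, .ofNat 7900000000000000000000),
   (.negSucc 1, .ofNat 2, .negSucc 0, .ofNat 7900000000000000000000),
   (.negSucc 1, .negSucc 2, .ofNat 2, .ofNat 7800000000000000000000),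
   (.negSucc 1, .negSucc 2, .ofNat 2, .ofNat 7800000000000000000000),
   (.negSucc 1, .negSucc 2, .ofNat 2, .ofNat 7800000000000000000000),
   (.negSucc 1, .negSucc 2, .ofNat 2, .ofNat 7800000000000000000000),
   (.negSucc 0, .ofNat 0, .ofNat 1, .ofNat 400000000000000000000),
   (.negSucc 0, .ofNat 0, .ofNat 1, .ofNat 400000000000000000000),
   (.ofNat 6, .ofNat 1, .ofNat 10, .ofNat 22900000000000000000000),
   (.ofNat 6, .ofNat 1, .ofNat 10, .ofNat 22900000000000000000000),
   (.ofNat 6, .ofNat 1, .ofNat 10, .ofNat 22900000000000000000000),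
   (.ofNat 6, .ofNat 1, .ofNat 10, .ofNat 22900000000000000000000),
   (.negSucc 17, .ofNat 6, .ofNat 24, .negSucc 27544384230961024627199),
   (.ofNat 0, .ofNat 0, .ofNat 1, .ofNat 690000000000000000000),
   (.negSucc 17, .ofNat 6, .ofNat 24, .negSucc 27544384230961024627199),
   (.negSucc 17, .ofNat 6, .ofNat 24, .negSucc 27544384230961024627199),
   (.ofNat 1, .ofNat 0, .ofNat 1, .ofNat 3658238530674511083300),
   (.ofNat 5172, .ofNat 705, .ofNat 8070, .ofNat 18427193050512925475596800),
   (.ofNat 2, .negSucc 0, .ofNat 0, .ofNat 5922862382996827468200),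
   (.negSucc 0, .negSucc 2, .ofNat 1, .ofNat 9690666773564412682200),
   (.negSucc 0, .negSucc 1, .ofNat 1, .ofNat 5297785211088857787300),
   (.ofNat 0, .negSucc 0, .ofNat 0, .ofNat 5306455890648741351600),
   (.ofNat 5, .ofNat 1, .ofNat 7, .ofNat 21200000000000000000000),
   (.ofNat 0, .ofNat 1, .ofNat 1, .ofNat 5800000000000000000000),
   (.negSucc 0, .ofNat 0, .ofNat 0, .ofNat 3300000000000000000000),
   (.negSucc 0, .negSucc 1, .ofNat 1, .ofNat 5600000000000000000000),
   (.negSucc 15126050, .negSucc 20246321, .ofNat 10939002, .ofNat 47459067853004632143655736400),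
   (.ofNat 1, .ofNat 0, .ofNat 2, .ofNat 4139855368046225427600)],
  [(.ofNat 0, .ofNat 21217, .negSucc 7301, .negSucc 34053589495541032835417999),
   (.ofNat 0, .ofNat 21217, .negSucc 7301, .negSucc 34053589495541032835417999),
   (.negSucc 12, .ofNat 16, .negSucc 13, .ofNat 87797724736188265999200),
   (.negSucc 12, .ofNat 16, .negSucc 13, .ofNat 87797724736188265999200),
   (.negSucc 17, .ofNat 8, .ofNat 4, .negSucc 40086916336130776912799),
   (.negSucc 1, .negSucc 0, .ofNat 1, .ofNat 990000000000000000000),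
   (.negSucc 1, .negSucc 0, .ofNat 1, .ofNat 990000000000000000000),
   (.negSucc 1, .negSucc 0, .ofNat 1, .ofNat 990000000000000000000),
   (.negSucc 9, .ofNat 11, .ofNat 11, .negSucc 12265858602849831279299),
   (.negSucc 9, .ofNat 11, .ofNat 11, .negSucc 12265858602849831279299),
   (.negSucc 9, .ofNat 11, .ofNat 11, .negSucc 12265858602849831279299),
   (.negSucc 9, .ofNat 11, .ofNat 11, .negSucc 12265858602849831279299),
   (.negSucc 1, .ofNat 2, .negSucc 0, .ofNat 7900000000000000000000),
   (.negSucc 1, .ofNat 2, .negSucc 0, .ofNat 7900000000000000000000),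
   (.negSucc 1, .ofNat 2, .negSucc 0, .ofNat 7900000000000000000000),
   (.negSucc 1, .ofNat 2, .negSucc 0, .ofNat 7900000000000000000000),
   (.negSucc 1, .ofNat 2, .negSucc 0, .ofNat 7900000000000000000000),
   (.negSucc 1, .ofNat 2, .negSucc 0, .ofNat 7900000000000000000000),
   (.negSucc 1, .negSucc 2, .ofNat 2, .ofNat 7800000000000000000000),
   (.negSucc 1, .negSucc 2, .ofNat 2, .ofNat 7800000000000000000000),
   (.negSucc 1, .negSucc 2, .ofNat 2, .ofNat 7800000000000000000000),
   (.negSucc 1, .negSucc 2, .ofNat 2, .ofNat 7800000000000000000000),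
   (.negSucc 0, .ofNat 0, .ofNat 1, .ofNat 400000000000000000000),
   (.negSucc 0, .ofNat 0, .ofNat 1, .ofNat 400000000000000000000),
   (.ofNat 6, .ofNat 1, .ofNat 10, .ofNat 22900000000000000000000),
   (.ofNat 6, .ofNat 1, .ofNat 10, .ofNat 22900000000000000000000),
   (.ofNat 6, .ofNat 1, .ofNat 10, .ofNat 22900000000000000000000),
   (.ofNat 6, .ofNat 1, .ofNat 10, .ofNat 22900000000000000000000),
   (.negSucc 17, .ofNat 6, .ofNat 24, .negSucc 27544384230961024627199),
   (.negSucc 17, .ofNat 6, .ofNat 24, .negSucc 27544384230961024627199),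
   (.negSucc 17, .ofNat 6, .ofNat 24, .negSucc 27544384230961024627199),
   (.negSucc 17, .ofNat 6, .ofNat 24, .negSucc 27544384230961024627199),
   (.ofNat 1, .ofNat 0, .ofNat 1, .ofNat 3658238530674511083300),
   (.ofNat 5172, .ofNat 705, .ofNat 8070, .ofNat 18427193050512925475596800),
   (.ofNat 2, .negSucc 0, .ofNat 0, .ofNat 5922862382996827468200),
   (.negSucc 0, .negSucc 2, .ofNat 1, .ofNat 9690666773564412682200),
   (.negSucc 0, .negSucc 1, .ofNat 1, .ofNat 5297785211088857787300),
   (.ofNat 0, .negSucc 0, .ofNat 0, .ofNat 5306455890648741351600),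
   (.ofNat 5, .ofNat 1, .ofNat 7, .ofNat 21200000000000000000000),
   (.ofNat 0, .ofNat 1, .ofNat 1, .ofNat 5800000000000000000000),
   (.negSucc 0, .ofNat 0, .ofNat 0, .ofNat 3300000000000000000000),
   (.negSucc 0, .negSucc 1, .ofNat 1, .ofNat 5600000000000000000000),
   (.negSucc 15126050, .negSucc 20246321, .ofNat 10939002, .ofNat 47459067853004632143655736400),
   (.ofNat 1, .ofNat 0, .ofNat 2, .ofNat 4139855368046225427600)],
  [(.ofNat 0, .ofNat 16857, .negSucc 19061, .ofNat 105002020906447140626950800),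
   (.negSucc 12, .ofNat 16, .negSucc 13, .ofNat 87797724736188265999200),
   (.negSucc 12, .ofNat 16, .negSucc 13, .ofNat 87797724736188265999200),
   (.negSucc 17, .ofNat 8, .ofNat 4, .negSucc 40086916336130776912799),
   (.negSucc 1, .negSucc 0, .ofNat 1, .ofNat 300000000000000000000),
   (.negSucc 1, .negSucc 0, .ofNat 1, .ofNat 300000000000000000000),
   (.negSucc 1, .negSucc 0, .ofNat 1, .ofNat 300000000000000000000),
   (.negSucc 9, .ofNat 11, .ofNat 11, .negSucc 12265858602849831279299),
   (.negSucc 9, .ofNat 11, .ofNat 11, .negSucc 12265858602849831279299),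
   (.ofNat 0, .ofNat 1, .ofNat 1, .ofNat 3470000000000000000000),
   (.negSucc 9, .ofNat 11, .ofNat 11, .negSucc 12265858602849831279299),
   (.negSucc 1, .ofNat 2, .negSucc 0, .ofNat 7900000000000000000000),
   (.negSucc 1, .ofNat 2, .negSucc 0, .ofNat 7900000000000000000000),
   (.negSucc 1, .ofNat 2, .negSucc 0, .ofNat 7900000000000000000000),
   (.negSucc 1, .ofNat 2, .negSucc 0, .ofNat 7900000000000000000000),
   (.negSucc 1, .ofNat 2, .negSucc 0, .ofNat 7900000000000000000000),
   (.negSucc 1, .ofNat 2, .negSucc 0, .ofNat 7900000000000000000000),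
   (.negSucc 1, .negSucc 2, .ofNat 2, .ofNat 7800000000000000000000),
   (.negSucc 1, .negSucc 2, .ofNat 2, .ofNat 7800000000000000000000),
   (.negSucc 1, .negSucc 2, .ofNat 2, .ofNat 7800000000000000000000),
   (.negSucc 1, .negSucc 2, .ofNat 2, .ofNat 7800000000000000000000),
   (.negSucc 0, .ofNat 0, .ofNat 1, .ofNat 400000000000000000000),
   (.negSucc 0, .ofNat 0, .ofNat 1, .ofNat 400000000000000000000),
   (.ofNat 6, .ofNat 1, .ofNat 10, .ofNat 22900000000000000000000),
   (.ofNat 6, .ofNat 1, .ofNat 10, .ofNat 22900000000000000000000),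
   (.ofNat 6, .ofNat 1, .ofNat 10, .ofNat 22900000000000000000000),
   (.ofNat 6, .ofNat 1, .ofNat 10, .ofNat 22900000000000000000000),
   (.negSucc 17, .ofNat 6, .ofNat 24, .negSucc 27544384230961024627199),
   (.negSucc 17, .ofNat 6, .ofNat 24, .negSucc 27544384230961024627199),
   (.negSucc 17, .ofNat 6, .ofNat 24, .negSucc 27544384230961024627199),
   (.negSucc 0, .ofNat 0, .ofNat 1, .negSucc 999999999999999999999),
   (.ofNat 1, .ofNat 0, .ofNat 1, .ofNat 3658238530674511083300),
   (.ofNat 5172, .ofNat 705, .ofNat 8070, .ofNat 18427193050512925475596800),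
   (.ofNat 2, .negSucc 0, .ofNat 0, .ofNat 5922862382996827468200),
   (.negSucc 0, .negSucc 2, .ofNat 1, .ofNat 9690666773564412682200),
   (.negSucc 0, .negSucc 1, .ofNat 1, .ofNat 5297785211088857787300),
   (.ofNat 0, .negSucc 0, .ofNat 0, .ofNat 5306455890648741351600),
   (.ofNat 5, .ofNat 1, .ofNat 7, .ofNat 21200000000000000000000),
   (.ofNat 0, .ofNat 1, .ofNat 1, .ofNat 5800000000000000000000),
   (.negSucc 0, .ofNat 0, .ofNat 0, .ofNat 3300000000000000000000),
   (.negSucc 0, .negSucc 1, .ofNat 1, .ofNat 5600000000000000000000),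
   (.negSucc 15126050, .negSucc 20246321, .ofNat 10939002, .ofNat 47459067853004632143655736400),
   (.ofNat 1, .ofNat 0, .ofNat 2, .ofNat 4139855368046225427600)],
  [(.negSucc 12, .ofNat 16, .negSucc 13, .ofNat 87797724736188265999200),
   (.negSucc 12, .ofNat 16, .negSucc 13, .ofNat 87797724736188265999200),
   (.negSucc 17, .ofNat 8, .ofNat 4, .negSucc 40086916336130776912799),
   (.negSucc 0, .ofNat 0, .ofNat 1, .negSucc 6259999999999999999999),
   (.negSucc 0, .ofNat 0, .ofNat 1, .negSucc 6259999999999999999999),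
   (.negSucc 0, .ofNat 0, .ofNat 1, .negSucc 6259999999999999999999),
   (.negSucc 9, .ofNat 11, .ofNat 11, .negSucc 12265858602849831279299),
   (.negSucc 9, .ofNat 11, .ofNat 11, .negSucc 12265858602849831279299),
   (.negSucc 9, .ofNat 11, .ofNat 11, .negSucc 12265858602849831279299),
   (.negSucc 9, .ofNat 11, .ofNat 11, .negSucc 12265858602849831279299),
   (.negSucc 1, .ofNat 2, .negSucc 0, .ofNat 7900000000000000000000),
   (.negSucc 1, .ofNat 2, .negSucc 0, .ofNat 7900000000000000000000),
   (.negSucc 1, .ofNat 2, .negSucc 0, .ofNat 7900000000000000000000),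
   (.negSucc 1, .ofNat 2, .negSucc 0, .ofNat 7900000000000000000000),
   (.negSucc 1, .ofNat 2, .negSucc 0, .ofNat 7900000000000000000000),
   (.negSucc 1, .ofNat 2, .negSucc 0, .ofNat 7900000000000000000000),
   (.negSucc 1, .negSucc 2, .ofNat 2, .ofNat 7800000000000000000000),
   (.negSucc 1, .negSucc 2, .ofNat 2, .ofNat 7800000000000000000000),
   (.negSucc 1, .negSucc 2, .ofNat 2, .ofNat 7800000000000000000000),
   (.negSucc 1, .negSucc 2, .ofNat 2, .ofNat 7800000000000000000000),
   (.negSucc 0, .ofNat 0, .ofNat 1, .ofNat 400000000000000000000),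
   (.negSucc 0, .ofNat 0, .ofNat 1, .ofNat 400000000000000000000),
   (.ofNat 6, .ofNat 1, .ofNat 10, .ofNat 22900000000000000000000),
   (.ofNat 6, .ofNat 1, .ofNat 10, .ofNat 22900000000000000000000),
   (.ofNat 6, .ofNat 1, .ofNat 10, .ofNat 22900000000000000000000),
   (.ofNat 6, .ofNat 1, .ofNat 10, .ofNat 22900000000000000000000),
   (.negSucc 17, .ofNat 6, .ofNat 24, .negSucc 27544384230961024627199),
   (.negSucc 17, .ofNat 6, .ofNat 24, .negSucc 27544384230961024627199),
   (.negSucc 17, .ofNat 6, .ofNat 24, .negSucc 27544384230961024627199),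
   (.negSucc 17, .ofNat 6, .ofNat 24, .negSucc 27544384230961024627199),
   (.ofNat 1, .ofNat 0, .ofNat 1, .ofNat 3658238530674511083300),
   (.ofNat 5172, .ofNat 705, .ofNat 8070, .ofNat 18427193050512925475596800),
   (.ofNat 2, .negSucc 0, .ofNat 0, .ofNat 5922862382996827468200),
   (.negSucc 0, .negSucc 2, .ofNat 1, .ofNat 9690666773564412682200),
   (.negSucc 0, .negSucc 1, .ofNat 1, .ofNat 5297785211088857787300),
   (.ofNat 0, .negSucc 0, .ofNat 0, .ofNat 5306455890648741351600),
   (.ofNat 5, .ofNat 1, .ofNat 7, .ofNat 21200000000000000000000),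
   (.ofNat 0, .ofNat 1, .ofNat 1, .ofNat 5800000000000000000000),
   (.negSucc 0, .ofNat 0, .ofNat 0, .ofNat 3300000000000000000000),
   (.negSucc 0, .negSucc 1, .ofNat 1, .ofNat 5600000000000000000000),
   (.negSucc 15126050, .negSucc 20246321, .ofNat 10939002, .ofNat 47459067853004632143655736400),
   (.ofNat 1, .ofNat 0, .ofNat 2, .ofNat 4139855368046225427600)],
  [(.ofNat 68163953, .negSucc 35210346, .ofNat 0, .ofNat 25690056996895399020514001400),
   (.negSucc 4, .negSucc 7, .ofNat 18, .negSucc 127884641072319042911999),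
   (.negSucc 4, .negSucc 7, .ofNat 18, .negSucc 127884641072319042911999),
   (.negSucc 4, .negSucc 7, .ofNat 18, .negSucc 127884641072319042911999),
   (.negSucc 4, .negSucc 7, .ofNat 18, .negSucc 127884641072319042911999),
   (.ofNat 3, .negSucc 4, .ofNat 25, .negSucc 100063583339038097278499),
   (.ofNat 3, .negSucc 4, .ofNat 25, .negSucc 100063583339038097278499),
   (.ofNat 3, .negSucc 4, .ofNat 25, .negSucc 100063583339038097278499),
   (.ofNat 1, .ofNat 0, .ofNat 1, .ofNat 2700000000000000000000),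
   (.negSucc 16, .ofNat 6, .ofNat 10, .negSucc 59822959501618475362199),
   (.negSucc 16, .ofNat 6, .ofNat 10, .negSucc 59822959501618475362199),
   (.negSucc 16, .ofNat 6, .ofNat 10, .negSucc 59822959501618475362199),
   (.negSucc 16, .ofNat 6, .ofNat 10, .negSucc 59822959501618475362199),
   (.negSucc 16, .ofNat 6, .ofNat 10, .negSucc 59822959501618475362199),
   (.negSucc 16, .ofNat 6, .ofNat 10, .negSucc 59822959501618475362199),
   (.ofNat 0, .ofNat 0, .ofNat 1, .negSucc 1999999999999999999999),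
   (.ofNat 0, .ofNat 0, .ofNat 1, .negSucc 1999999999999999999999),
   (.ofNat 0, .ofNat 0, .ofNat 1, .negSucc 1999999999999999999999),
   (.ofNat 0, .ofNat 0, .ofNat 1, .negSucc 1999999999999999999999),
   (.ofNat 0, .ofNat 0, .ofNat 1, .negSucc 1099999999999999999999),
   (.ofNat 0, .ofNat 0, .ofNat 1, .negSucc 1099999999999999999999),
   (.ofNat 0, .ofNat 0, .ofNat 1, .negSucc 1999999999999999999999),
   (.ofNat 0, .ofNat 0, .ofNat 1, .negSucc 1999999999999999999999),
   (.ofNat 0, .ofNat 0, .ofNat 1, .negSucc 1999999999999999999999),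
   (.ofNat 0, .ofNat 0, .ofNat 1, .negSucc 1999999999999999999999),
   (.ofNat 0, .ofNat 0, .ofNat 1, .negSucc 999999999999999999999),
   (.ofNat 0, .ofNat 0, .ofNat 1, .negSucc 999999999999999999999),
   (.ofNat 0, .ofNat 0, .ofNat 1, .negSucc 999999999999999999999),
   (.ofNat 0, .ofNat 0, .ofNat 1, .negSucc 999999999999999999999),
   (.ofNat 1, .ofNat 0, .ofNat 1, .ofNat 3300000000000000000000),
   (.ofNat 1, .ofNat 0, .ofNat 1, .ofNat 3040000000000000000000),
   (.ofNat 0, .negSucc 0, .ofNat 1, .negSucc 999999999999999999999),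
   (.ofNat 0, .negSucc 0, .ofNat 0, .ofNat 5070000000000000000000),
   (.ofNat 0, .ofNat 0, .ofNat 1, .negSucc 1699999999999999999999),
   (.ofNat 0, .negSucc 0, .ofNat 0, .ofNat 5170000000000000000000),
   (.ofNat 0, .ofNat 0, .ofNat 1, .negSucc 1999999999999999999999),
   (.ofNat 0, .ofNat 0, .ofNat 1, .negSucc 1799999999999999999999),
   (.negSucc 0, .ofNat 0, .ofNat 0, .ofNat 4000000000000000000000),
   (.ofNat 0, .ofNat 0, .ofNat 1, .negSucc 1999999999999999999999),
   (.ofNat 0, .negSucc 0, .ofNat 1, .negSucc 3799999999999999999999),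
   (.ofNat 0, .ofNat 0, .ofNat 1, .negSucc 1699999999999999999999)],
  [(.negSucc 4, .negSucc 7, .ofNat 18, .negSucc 127884641072319042911999),
   (.negSucc 0, .ofNat 0, .ofNat 1, .negSucc 6899999999999999999999),
   (.negSucc 4, .negSucc 7, .ofNat 18, .negSucc 127884641072319042911999),
   (.negSucc 4, .negSucc 7, .ofNat 18, .negSucc 127884641072319042911999),
   (.ofNat 3, .negSucc 4, .ofNat 25, .negSucc 100063583339038097278499),
   (.ofNat 3, .negSucc 4, .ofNat 25, .negSucc 100063583339038097278499),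
   (.ofNat 3, .negSucc 4, .ofNat 25, .negSucc 100063583339038097278499),
   (.ofNat 3, .negSucc 4, .ofNat 25, .negSucc 100063583339038097278499),
   (.negSucc 16, .ofNat 6, .ofNat 10, .negSucc 59822959501618475362199),
   (.negSucc 16, .ofNat 6, .ofNat 10, .negSucc 59822959501618475362199),
   (.negSucc 0, .ofNat 0, .ofNat 1, .negSucc 6899999999999999999999),
   (.negSucc 16, .ofNat 6, .ofNat 10, .negSucc 59822959501618475362199),
   (.negSucc 16, .ofNat 6, .ofNat 10, .negSucc 59822959501618475362199),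
   (.negSucc 16, .ofNat 6, .ofNat 10, .negSucc 59822959501618475362199),
   (.ofNat 0, .ofNat 0, .ofNat 1, .negSucc 1999999999999999999999),
   (.ofNat 0, .ofNat 0, .ofNat 1, .negSucc 1999999999999999999999),
   (.ofNat 0, .ofNat 0, .ofNat 1, .negSucc 1999999999999999999999),
   (.ofNat 0, .ofNat 0, .ofNat 1, .negSucc 1999999999999999999999),
   (.ofNat 0, .ofNat 0, .ofNat 1, .negSucc 1099999999999999999999),
   (.ofNat 0, .ofNat 0, .ofNat 1, .negSucc 1099999999999999999999),
   (.ofNat 0, .ofNat 0, .ofNat 1, .negSucc 1999999999999999999999),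
   (.ofNat 0, .ofNat 0, .ofNat 1, .negSucc 1999999999999999999999),
   (.ofNat 0, .ofNat 0, .ofNat 1, .negSucc 1999999999999999999999),
   (.ofNat 0, .ofNat 0, .ofNat 1, .negSucc 1999999999999999999999),
   (.ofNat 0, .ofNat 0, .ofNat 1, .negSucc 999999999999999999999),
   (.ofNat 0, .ofNat 0, .ofNat 1, .negSucc 999999999999999999999),
   (.ofNat 0, .ofNat 0, .ofNat 1, .negSucc 999999999999999999999),
   (.ofNat 0, .ofNat 0, .ofNat 1, .negSucc 999999999999999999999),
   (.ofNat 1, .ofNat 0, .ofNat 1, .ofNat 3300000000000000000000),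
   (.ofNat 1, .ofNat 0, .ofNat 1, .ofNat 3040000000000000000000),
   (.ofNat 0, .negSucc 0, .ofNat 1, .negSucc 999999999999999999999),
   (.ofNat 0, .negSucc 0, .ofNat 0, .ofNat 5070000000000000000000),
   (.ofNat 0, .ofNat 0, .ofNat 1, .negSucc 1699999999999999999999),
   (.ofNat 0, .negSucc 0, .ofNat 0, .ofNat 5170000000000000000000),
   (.ofNat 0, .ofNat 0, .ofNat 1, .negSucc 1999999999999999999999),
   (.ofNat 0, .ofNat 0, .ofNat 1, .negSucc 1799999999999999999999),
   (.negSucc 0, .ofNat 0, .ofNat 0, .ofNat 4000000000000000000000),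
   (.ofNat 0, .ofNat 0, .ofNat 1, .negSucc 1999999999999999999999),
   (.ofNat 0, .negSucc 0, .ofNat 1, .negSucc 3799999999999999999999),
   (.ofNat 0, .ofNat 0, .ofNat 1, .negSucc 1699999999999999999999)],
  [(.ofNat 0, .ofNat 489450, .ofNat 493940, .negSucc 6636310301205790229272247999),
   (.ofNat 0, .ofNat 489450, .ofNat 493940, .negSucc 6636310301205790229272247999),
   (.ofNat 0, .ofNat 489450, .ofNat 493940, .negSucc 6636310301205790229272247999),
   (.ofNat 8, .ofNat 3, .ofNat 7, .ofNat 27821057733280945633500),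
   (.ofNat 8, .ofNat 3, .ofNat 7, .ofNat 27821057733280945633500),
   (.ofNat 8, .ofNat 3, .ofNat 7, .ofNat 27821057733280945633500),
   (.ofNat 8, .ofNat 3, .ofNat 7, .ofNat 27821057733280945633500),
   (.negSucc 11, .ofNat 14, .negSucc 7, .ofNat 68061681570700567549800),
   (.ofNat 0, .ofNat 0, .ofNat 1, .negSucc 5999999999999999999999),
   (.negSucc 11, .ofNat 14, .negSucc 7, .ofNat 68061681570700567549800),
   (.negSucc 11, .ofNat 14, .negSucc 7, .ofNat 68061681570700567549800),
   (.negSucc 11, .ofNat 14, .negSucc 7, .ofNat 68061681570700567549800),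
   (.negSucc 11, .ofNat 14, .negSucc 7, .ofNat 68061681570700567549800),
   (.ofNat 1, .ofNat 1, .ofNat 0, .negSucc 6699999999999999999999),
   (.ofNat 1, .ofNat 1, .ofNat 0, .negSucc 6699999999999999999999),
   (.ofNat 1, .ofNat 1, .ofNat 0, .negSucc 6699999999999999999999),
   (.ofNat 1, .ofNat 1, .ofNat 0, .negSucc 6699999999999999999999),
   (.ofNat 0, .ofNat 1, .ofNat 0, .negSucc 899999999999999999999),
   (.ofNat 0, .ofNat 1, .ofNat 0, .negSucc 899999999999999999999),
   (.ofNat 1, .ofNat 0, .ofNat 0, .negSucc 799999999999999999999),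
   (.ofNat 1, .ofNat 0, .ofNat 0, .negSucc 799999999999999999999),
   (.ofNat 1, .ofNat 0, .ofNat 0, .negSucc 799999999999999999999),
   (.ofNat 1, .ofNat 0, .ofNat 0, .negSucc 799999999999999999999),
   (.ofNat 1, .ofNat 1, .ofNat 0, .negSucc 5799999999999999999999),
   (.ofNat 1, .ofNat 1, .ofNat 0, .negSucc 5799999999999999999999),
   (.ofNat 1, .ofNat 1, .ofNat 0, .negSucc 5799999999999999999999),
   (.ofNat 1, .ofNat 1, .ofNat 0, .negSucc 5799999999999999999999),
   (.ofNat 2, .ofNat 0, .ofNat 1, .ofNat 4316984964769561098300),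
   (.ofNat 1, .ofNat 0, .ofNat 0, .ofNat 1000000000000000000000),
   (.ofNat 1, .ofNat 0, .ofNat 0, .ofNat 1000000000000000000000),
   (.negSucc 3760427, .negSucc 9976052, .ofNat 75250, .ofNat 59649485461595886953401905600),
   (.ofNat 1, .ofNat 0, .ofNat 0, .negSucc 1099999999999999999999),
   (.ofNat 0, .negSucc 0, .ofNat 0, .ofNat 5306455890648741351600),
   (.ofNat 2, .ofNat 2, .ofNat 1, .negSucc 4352118107921297099099),
   (.ofNat 0, .ofNat 1, .ofNat 1, .ofNat 7206685988999847164100),
   (.negSucc 4046989, .negSucc 1482895, .ofNat 187978, .ofNat 23703231252949766852676942600),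
   (.ofNat 7, .ofNat 10, .ofNat 1, .negSucc 49480640486326190126699),
   (.ofNat 1, .ofNat 0, .ofNat 0, .negSucc 1948538170184742813599),
   (.ofNat 1, .ofNat 0, .ofNat 0, .negSucc 99999999999999999999)],
  [(.ofNat 0, .negSucc 134679, .ofNat 105894, .negSucc 151247074574214203759974799),
   (.ofNat 0, .negSucc 134679, .ofNat 105894, .negSucc 151247074574214203759974799),
   (.ofNat 8, .ofNat 3, .ofNat 7, .ofNat 27821057733280945633500),
   (.ofNat 8, .ofNat 3, .ofNat 7, .ofNat 27821057733280945633500),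
   (.ofNat 8, .ofNat 3, .ofNat 7, .ofNat 27821057733280945633500),
   (.ofNat 8, .ofNat 3, .ofNat 7, .ofNat 27821057733280945633500),
   (.negSucc 11, .ofNat 14, .negSucc 7, .ofNat 68061681570700567549800),
   (.negSucc 11, .ofNat 14, .negSucc 7, .ofNat 68061681570700567549800),
   (.negSucc 11, .ofNat 14, .negSucc 7, .ofNat 68061681570700567549800),
   (.negSucc 11, .ofNat 14, .negSucc 7, .ofNat 68061681570700567549800),
   (.negSucc 11, .ofNat 14, .negSucc 7, .ofNat 68061681570700567549800),
   (.negSucc 11, .ofNat 14, .negSucc 7, .ofNat 68061681570700567549800),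
   (.ofNat 1, .ofNat 1, .ofNat 0, .negSucc 6699999999999999999999),
   (.ofNat 1, .ofNat 1, .ofNat 0, .negSucc 6699999999999999999999),
   (.ofNat 1, .ofNat 1, .ofNat 0, .negSucc 6699999999999999999999),
   (.ofNat 1, .ofNat 1, .ofNat 0, .negSucc 6699999999999999999999),
   (.ofNat 0, .ofNat 1, .ofNat 0, .negSucc 899999999999999999999),
   (.ofNat 0, .ofNat 1, .ofNat 0, .negSucc 899999999999999999999),
   (.ofNat 1, .ofNat 0, .ofNat 0, .negSucc 799999999999999999999),
   (.ofNat 1, .ofNat 0, .ofNat 0, .negSucc 799999999999999999999),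
   (.ofNat 1, .ofNat 0, .ofNat 0, .negSucc 799999999999999999999),
   (.ofNat 1, .ofNat 0, .ofNat 0, .negSucc 799999999999999999999),
   (.ofNat 1, .ofNat 1, .ofNat 0, .negSucc 5799999999999999999999),
   (.ofNat 1, .ofNat 1, .ofNat 0, .negSucc 5799999999999999999999),
   (.ofNat 1, .ofNat 1, .ofNat 0, .negSucc 5799999999999999999999),
   (.ofNat 1, .ofNat 1, .ofNat 0, .negSucc 5799999999999999999999),
   (.ofNat 2, .ofNat 0, .ofNat 1, .ofNat 4316984964769561098300),
   (.ofNat 1, .ofNat 0, .ofNat 0, .ofNat 1000000000000000000000),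
   (.ofNat 1, .ofNat 0, .ofNat 0, .ofNat 1000000000000000000000),
   (.negSucc 3760427, .negSucc 9976052, .ofNat 75250, .ofNat 59649485461595886953401905600),
   (.ofNat 1, .ofNat 0, .ofNat 0, .negSucc 1099999999999999999999),
   (.ofNat 0, .negSucc 0, .ofNat 0, .ofNat 5306455890648741351600),
   (.ofNat 2, .ofNat 2, .ofNat 1, .negSucc 4352118107921297099099),
   (.ofNat 0, .ofNat 1, .ofNat 1, .ofNat 7206685988999847164100),
   (.negSucc 4046989, .negSucc 1482895, .ofNat 187978, .ofNat 23703231252949766852676942600),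
   (.ofNat 7, .ofNat 10, .ofNat 1, .negSucc 49480640486326190126699),
   (.ofNat 1, .ofNat 0, .ofNat 0, .negSucc 1948538170184742813599),
   (.ofNat 1, .ofNat 0, .ofNat 0, .negSucc 99999999999999999999)],
  [(.ofNat 0, .negSucc 54274, .ofNat 6972, .ofNat 230996182678914421071903600),
   (.ofNat 8, .ofNat 3, .ofNat 7, .ofNat 27821057733280945633500),
   (.ofNat 2, .ofNat 0, .ofNat 1, .ofNat 3000000000000000000000),
   (.ofNat 2, .ofNat 0, .ofNat 1, .ofNat 3000000000000000000000),
   (.ofNat 2, .ofNat 0, .ofNat 1, .ofNat 3000000000000000000000),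
   (.negSucc 11, .ofNat 14, .negSucc 7, .ofNat 68061681570700567549800),
   (.negSucc 11, .ofNat 14, .negSucc 7, .ofNat 68061681570700567549800),
   (.negSucc 11, .ofNat 14, .negSucc 7, .ofNat 68061681570700567549800),
   (.ofNat 0, .ofNat 1, .negSucc 0, .ofNat 4100000000000000000000),
   (.negSucc 11, .ofNat 14, .negSucc 7, .ofNat 68061681570700567549800),
   (.negSucc 11, .ofNat 14, .negSucc 7, .ofNat 68061681570700567549800),
   (.ofNat 1, .ofNat 1, .ofNat 0, .negSucc 6699999999999999999999),
   (.ofNat 1, .ofNat 1, .ofNat 0, .negSucc 6699999999999999999999),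
   (.ofNat 1, .ofNat 1, .ofNat 0, .negSucc 6699999999999999999999),
   (.ofNat 1, .ofNat 1, .ofNat 0, .negSucc 6699999999999999999999),
   (.ofNat 0, .ofNat 1, .ofNat 0, .negSucc 899999999999999999999),
   (.ofNat 0, .ofNat 1, .ofNat 0, .negSucc 899999999999999999999),
   (.ofNat 1, .ofNat 0, .ofNat 0, .negSucc 799999999999999999999),
   (.ofNat 1, .ofNat 0, .ofNat 0, .negSucc 799999999999999999999),
   (.ofNat 1, .ofNat 0, .ofNat 0, .negSucc 799999999999999999999),
   (.ofNat 1, .ofNat 0, .ofNat 0, .negSucc 799999999999999999999),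
   (.ofNat 1, .ofNat 1, .ofNat 0, .negSucc 5799999999999999999999),
   (.ofNat 1, .ofNat 1, .ofNat 0, .negSucc 5799999999999999999999),
   (.ofNat 1, .ofNat 1, .ofNat 0, .negSucc 5799999999999999999999),
   (.ofNat 1, .ofNat 1, .ofNat 0, .negSucc 5799999999999999999999),
   (.ofNat 2, .ofNat 0, .ofNat 1, .ofNat 4316984964769561098300),
   (.ofNat 1, .ofNat 0, .ofNat 0, .ofNat 1000000000000000000000),
   (.ofNat 1, .ofNat 0, .ofNat 0, .ofNat 1000000000000000000000),
   (.negSucc 3760427, .negSucc 9976052, .ofNat 75250, .ofNat 59649485461595886953401905600),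
   (.ofNat 1, .ofNat 0, .ofNat 0, .negSucc 1099999999999999999999),
   (.ofNat 0, .negSucc 0, .ofNat 0, .ofNat 5306455890648741351600),
   (.ofNat 2, .ofNat 2, .ofNat 1, .negSucc 4352118107921297099099),
   (.ofNat 0, .ofNat 1, .ofNat 1, .ofNat 7206685988999847164100),
   (.negSucc 4046989, .negSucc 1482895, .ofNat 187978, .ofNat 23703231252949766852676942600),
   (.ofNat 7, .ofNat 10, .ofNat 1, .negSucc 49480640486326190126699),
   (.ofNat 1, .ofNat 0, .ofNat 0, .negSucc 1948538170184742813599),
   (.ofNat 1, .ofNat 0, .ofNat 0, .negSucc 99999999999999999999)],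
  [(.ofNat 8, .ofNat 3, .ofNat 7, .ofNat 27821057733280945633500),
   (.ofNat 8, .ofNat 3, .ofNat 7, .ofNat 27821057733280945633500),
   (.ofNat 8, .ofNat 3, .ofNat 7, .ofNat 27821057733280945633500),
   (.ofNat 8, .ofNat 3, .ofNat 7, .ofNat 27821057733280945633500),
   (.negSucc 11, .ofNat 14, .negSucc 7, .ofNat 68061681570700567549800),
   (.negSucc 11, .ofNat 14, .negSucc 7, .ofNat 68061681570700567549800),
   (.negSucc 11, .ofNat 14, .negSucc 7, .ofNat 68061681570700567549800),
   (.negSucc 11, .ofNat 14, .negSucc 7, .ofNat 68061681570700567549800),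
   (.negSucc 11, .ofNat 14, .negSucc 7, .ofNat 68061681570700567549800),
   (.negSucc 11, .ofNat 14, .negSucc 7, .ofNat 68061681570700567549800),
   (.ofNat 1, .ofNat 1, .ofNat 0, .negSucc 6699999999999999999999),
   (.ofNat 1, .ofNat 1, .ofNat 0, .negSucc 6699999999999999999999),
   (.ofNat 1, .ofNat 1, .ofNat 0, .negSucc 6699999999999999999999),
   (.ofNat 1, .ofNat 1, .ofNat 0, .negSucc 6699999999999999999999),
   (.ofNat 0, .ofNat 1, .ofNat 0, .negSucc 899999999999999999999),
   (.ofNat 0, .ofNat 1, .ofNat 0, .negSucc 899999999999999999999),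
   (.ofNat 1, .ofNat 0, .ofNat 0, .negSucc 799999999999999999999),
   (.ofNat 1, .ofNat 0, .ofNat 0, .negSucc 799999999999999999999),
   (.ofNat 1, .ofNat 0, .ofNat 0, .negSucc 799999999999999999999),
   (.ofNat 1, .ofNat 0, .ofNat 0, .negSucc 799999999999999999999),
   (.ofNat 1, .ofNat 1, .ofNat 0, .negSucc 5799999999999999999999),
   (.ofNat 1, .ofNat 1, .ofNat 0, .negSucc 5799999999999999999999),
   (.ofNat 1, .ofNat 1, .ofNat 0, .negSucc 5799999999999999999999),
   (.ofNat 1, .ofNat 1, .ofNat 0, .negSucc 5799999999999999999999),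
   (.ofNat 2, .ofNat 0, .ofNat 1, .ofNat 4316984964769561098300),
   (.ofNat 1, .ofNat 0, .ofNat 0, .ofNat 1000000000000000000000),
   (.ofNat 1, .ofNat 0, .ofNat 0, .ofNat 1000000000000000000000),
   (.negSucc 3760427, .negSucc 9976052, .ofNat 75250, .ofNat 59649485461595886953401905600),
   (.ofNat 1, .ofNat 0, .ofNat 0, .negSucc 1099999999999999999999),
   (.ofNat 0, .negSucc 0, .ofNat 0, .ofNat 5306455890648741351600),
   (.ofNat 2, .ofNat 2, .ofNat 1, .negSucc 4352118107921297099099),
   (.ofNat 0, .ofNat 1, .ofNat 1, .ofNat 7206685988999847164100),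
   (.negSucc 4046989, .negSucc 1482895, .ofNat 187978, .ofNat 23703231252949766852676942600),
   (.ofNat 7, .ofNat 10, .ofNat 1, .negSucc 49480640486326190126699),
   (.ofNat 1, .ofNat 0, .ofNat 0, .negSucc 1948538170184742813599),
   (.ofNat 1, .ofNat 0, .ofNat 0, .negSucc 99999999999999999999)],
  [(.ofNat 0, .negSucc 252602, .negSucc 366694, .negSucc 1872146821363543727862759899),
   (.ofNat 0, .negSucc 252602, .negSucc 366694, .negSucc 1872146821363543727862759899),
   (.ofNat 0, .negSucc 252602, .negSucc 366694, .negSucc 1872146821363543727862759899),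
   (.negSucc 19, .ofNat 11, .negSucc 14, .ofNat 40240623837419621916300),
   (.negSucc 19, .ofNat 11, .negSucc 14, .ofNat 40240623837419621916300),
   (.negSucc 19, .ofNat 11, .negSucc 14, .ofNat 40240623837419621916300),
   (.negSucc 0, .ofNat 0, .negSucc 0, .negSucc 2449999999999999999999),
   (.negSucc 19, .ofNat 11, .negSucc 14, .ofNat 40240623837419621916300),
   (.negSucc 19, .ofNat 11, .negSucc 14, .ofNat 40240623837419621916300),
   (.ofNat 0, .negSucc 0, .negSucc 0, .negSucc 2199999999999999999999),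
   (.ofNat 0, .negSucc 0, .negSucc 0, .negSucc 2199999999999999999999),
   (.ofNat 0, .negSucc 0, .negSucc 0, .negSucc 2199999999999999999999),
   (.ofNat 0, .negSucc 0, .negSucc 0, .negSucc 2199999999999999999999),
   (.negSucc 0, .ofNat 0, .negSucc 0, .negSucc 2209999999999999999999),
   (.negSucc 0, .ofNat 0, .negSucc 0, .negSucc 2209999999999999999999),
   (.negSucc 3, .negSucc 0, .negSucc 3, .negSucc 18299999999999999999999),
   (.negSucc 3, .negSucc 0, .negSucc 3, .negSucc 18299999999999999999999),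
   (.negSucc 3, .negSucc 0, .negSucc 3, .negSucc 18299999999999999999999),
   (.negSucc 3, .negSucc 0, .negSucc 3, .negSucc 18299999999999999999999),
   (.negSucc 2, .negSucc 0, .negSucc 2, .negSucc 12699999999999999999999),
   (.negSucc 2, .negSucc 0, .negSucc 2, .negSucc 12699999999999999999999),
   (.negSucc 2, .negSucc 0, .negSucc 2, .negSucc 12699999999999999999999),
   (.negSucc 2, .negSucc 0, .negSucc 2, .negSucc 12699999999999999999999),
   (.ofNat 154021, .ofNat 35233, .ofNat 145341, .ofNat 741719267190852754438334700),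
   (.ofNat 0, .negSucc 0, .negSucc 0, .negSucc 3412306528612359077699),
   (.ofNat 0, .negSucc 0, .negSucc 0, .negSucc 1499999999999999999999),
   (.ofNat 0, .negSucc 0, .ofNat 0, .ofNat 5103089042789654116200),
   (.ofNat 0, .negSucc 0, .negSucc 0, .ofNat 0),
   (.ofNat 0, .negSucc 0, .ofNat 0, .ofNat 5210000000000000000000),
   (.negSucc 22, .negSucc 5, .negSucc 21, .negSucc 106778405323913640431399),
   (.ofNat 64128300, .ofNat 40506591, .ofNat 87507455, .ofNat 493350927730345439207179026300),
   (.negSucc 0, .ofNat 0, .ofNat 0, .ofNat 4303810036087660098000),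
   (.negSucc 16, .negSucc 4, .negSucc 15, .negSucc 74605229482711397698799),
   (.ofNat 0, .negSucc 0, .negSucc 0, .ofNat 0),
   (.ofNat 0, .negSucc 0, .negSucc 0, .negSucc 2899999999999999999999)],
  [(.ofNat 0, .negSucc 120513509, .negSucc 151629659, .negSucc 692177042520558749310552395999),
   (.ofNat 0, .negSucc 120513509, .negSucc 151629659, .negSucc 692177042520558749310552395999),
   (.negSucc 19, .ofNat 11, .negSucc 14, .ofNat 40240623837419621916300),
   (.negSucc 19, .ofNat 11, .negSucc 14, .ofNat 40240623837419621916300),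
   (.negSucc 19, .ofNat 11, .negSucc 14, .ofNat 40240623837419621916300),
   (.negSucc 19, .ofNat 11, .negSucc 14, .ofNat 40240623837419621916300),
   (.negSucc 19, .ofNat 11, .negSucc 14, .ofNat 40240623837419621916300),
   (.negSucc 19, .ofNat 11, .negSucc 14, .ofNat 40240623837419621916300),
   (.ofNat 0, .negSucc 0, .negSucc 0, .negSucc 2199999999999999999999),
   (.ofNat 0, .negSucc 0, .negSucc 0, .negSucc 2199999999999999999999),
   (.ofNat 0, .negSucc 0, .negSucc 0, .negSucc 2199999999999999999999),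
   (.ofNat 0, .negSucc 0, .negSucc 0, .negSucc 2199999999999999999999),
   (.negSucc 0, .ofNat 0, .negSucc 0, .negSucc 2209999999999999999999),
   (.negSucc 0, .ofNat 0, .negSucc 0, .negSucc 2209999999999999999999),
   (.negSucc 3, .negSucc 0, .negSucc 3, .negSucc 18299999999999999999999),
   (.negSucc 3, .negSucc 0, .negSucc 3, .negSucc 18299999999999999999999),
   (.negSucc 3, .negSucc 0, .negSucc 3, .negSucc 18299999999999999999999),
   (.negSucc 3, .negSucc 0, .negSucc 3, .negSucc 18299999999999999999999),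
   (.negSucc 2, .negSucc 0, .negSucc 2, .negSucc 12699999999999999999999),
   (.negSucc 2, .negSucc 0, .negSucc 2, .negSucc 12699999999999999999999),
   (.negSucc 2, .negSucc 0, .negSucc 2, .negSucc 12699999999999999999999),
   (.negSucc 2, .negSucc 0, .negSucc 2, .negSucc 12699999999999999999999),
   (.ofNat 154021, .ofNat 35233, .ofNat 145341, .ofNat 741719267190852754438334700),
   (.ofNat 0, .negSucc 0, .negSucc 0, .negSucc 3412306528612359077699),
   (.ofNat 0, .negSucc 0, .negSucc 0, .negSucc 1499999999999999999999),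
   (.ofNat 0, .negSucc 0, .ofNat 0, .ofNat 5103089042789654116200),
   (.ofNat 0, .negSucc 0, .negSucc 0, .ofNat 0),
   (.ofNat 0, .negSucc 0, .ofNat 0, .ofNat 5210000000000000000000),
   (.negSucc 22, .negSucc 5, .negSucc 21, .negSucc 106778405323913640431399),
   (.ofNat 64128300, .ofNat 40506591, .ofNat 87507455, .ofNat 493350927730345439207179026300),
   (.negSucc 0, .ofNat 0, .ofNat 0, .ofNat 4303810036087660098000),
   (.negSucc 16, .negSucc 4, .negSucc 15, .negSucc 74605229482711397698799),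
   (.ofNat 0, .negSucc 0, .negSucc 0, .ofNat 0),
   (.ofNat 0, .negSucc 0, .negSucc 0, .negSucc 2899999999999999999999)],
  [(.ofNat 0, .negSucc 1601510703, .negSucc 1718967123, .negSucc 6646211463724369966883690636399),
   (.negSucc 19, .ofNat 11, .negSucc 14, .ofNat 40240623837419621916300),
   (.negSucc 19, .ofNat 11, .negSucc 14, .ofNat 40240623837419621916300),
   (.negSucc 19, .ofNat 11, .negSucc 14, .ofNat 40240623837419621916300),
   (.negSucc 19, .ofNat 11, .negSucc 14, .ofNat 40240623837419621916300),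
   (.negSucc 19, .ofNat 11, .negSucc 14, .ofNat 40240623837419621916300),
   (.negSucc 0, .ofNat 1, .ofNat 0, .ofNat 4700000000000000000000),
   (.ofNat 0, .negSucc 0, .negSucc 0, .negSucc 2199999999999999999999),
   (.ofNat 0, .negSucc 0, .negSucc 0, .negSucc 2199999999999999999999),
   (.ofNat 0, .negSucc 0, .negSucc 0, .negSucc 2199999999999999999999),
   (.ofNat 0, .negSucc 0, .negSucc 0, .negSucc 2199999999999999999999),
   (.negSucc 0, .ofNat 0, .negSucc 0, .negSucc 2209999999999999999999),
   (.negSucc 0, .ofNat 0, .negSucc 0, .negSucc 2209999999999999999999),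
   (.negSucc 3, .negSucc 0, .negSucc 3, .negSucc 18299999999999999999999),
   (.negSucc 3, .negSucc 0, .negSucc 3, .negSucc 18299999999999999999999),
   (.negSucc 3, .negSucc 0, .negSucc 3, .negSucc 18299999999999999999999),
   (.negSucc 3, .negSucc 0, .negSucc 3, .negSucc 18299999999999999999999),
   (.negSucc 2, .negSucc 0, .negSucc 2, .negSucc 12699999999999999999999),
   (.negSucc 2, .negSucc 0, .negSucc 2, .negSucc 12699999999999999999999),
   (.negSucc 2, .negSucc 0, .negSucc 2, .negSucc 12699999999999999999999),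
   (.negSucc 2, .negSucc 0, .negSucc 2, .negSucc 12699999999999999999999),
   (.ofNat 154021, .ofNat 35233, .ofNat 145341, .ofNat 741719267190852754438334700),
   (.ofNat 0, .negSucc 0, .negSucc 0, .negSucc 3412306528612359077699),
   (.ofNat 0, .negSucc 0, .negSucc 0, .negSucc 1499999999999999999999),
   (.ofNat 0, .negSucc 0, .ofNat 0, .ofNat 5103089042789654116200),
   (.ofNat 0, .negSucc 0, .negSucc 0, .ofNat 0),
   (.ofNat 0, .negSucc 0, .ofNat 0, .ofNat 5210000000000000000000),
   (.negSucc 22, .negSucc 5, .negSucc 21, .negSucc 106778405323913640431399),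
   (.ofNat 64128300, .ofNat 40506591, .ofNat 87507455, .ofNat 493350927730345439207179026300),
   (.negSucc 0, .ofNat 0, .ofNat 0, .ofNat 4303810036087660098000),
   (.negSucc 16, .negSucc 4, .negSucc 15, .negSucc 74605229482711397698799),
   (.ofNat 0, .negSucc 0, .negSucc 0, .ofNat 0),
   (.ofNat 0, .negSucc 0, .negSucc 0, .negSucc 2899999999999999999999)],
  [(.negSucc 19, .ofNat 11, .negSucc 14, .ofNat 40240623837419621916300),
   (.negSucc 19, .ofNat 11, .negSucc 14, .ofNat 40240623837419621916300),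
   (.negSucc 19, .ofNat 11, .negSucc 14, .ofNat 40240623837419621916300),
   (.negSucc 19, .ofNat 11, .negSucc 14, .ofNat 40240623837419621916300),
   (.negSucc 19, .ofNat 11, .negSucc 14, .ofNat 40240623837419621916300),
   (.negSucc 19, .ofNat 11, .negSucc 14, .ofNat 40240623837419621916300),
   (.ofNat 0, .negSucc 0, .negSucc 0, .negSucc 2199999999999999999999),
   (.ofNat 0, .negSucc 0, .negSucc 0, .negSucc 2199999999999999999999),
   (.ofNat 0, .negSucc 0, .negSucc 0, .negSucc 2199999999999999999999),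
   (.ofNat 0, .negSucc 0, .negSucc 0, .negSucc 2199999999999999999999),
   (.negSucc 0, .ofNat 0, .negSucc 0, .negSucc 2209999999999999999999),
   (.negSucc 0, .ofNat 0, .negSucc 0, .negSucc 2209999999999999999999),
   (.negSucc 3, .negSucc 0, .negSucc 3, .negSucc 18299999999999999999999),
   (.negSucc 3, .negSucc 0, .negSucc 3, .negSucc 18299999999999999999999),
   (.negSucc 3, .negSucc 0, .negSucc 3, .negSucc 18299999999999999999999),
   (.negSucc 3, .negSucc 0, .negSucc 3, .negSucc 18299999999999999999999),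
   (.negSucc 2, .negSucc 0, .negSucc 2, .negSucc 12699999999999999999999),
   (.negSucc 2, .negSucc 0, .negSucc 2, .negSucc 12699999999999999999999),
   (.negSucc 2, .negSucc 0, .negSucc 2, .negSucc 12699999999999999999999),
   (.negSucc 2, .negSucc 0, .negSucc 2, .negSucc 12699999999999999999999),
   (.ofNat 154021, .ofNat 35233, .ofNat 145341, .ofNat 741719267190852754438334700),
   (.ofNat 0, .negSucc 0, .negSucc 0, .negSucc 3412306528612359077699),
   (.ofNat 0, .negSucc 0, .negSucc 0, .negSucc 1499999999999999999999),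
   (.ofNat 0, .negSucc 0, .ofNat 0, .ofNat 5103089042789654116200),
   (.ofNat 0, .negSucc 0, .negSucc 0, .ofNat 0),
   (.ofNat 0, .negSucc 0, .ofNat 0, .ofNat 5210000000000000000000),
   (.negSucc 22, .negSucc 5, .negSucc 21, .negSucc 106778405323913640431399),
   (.ofNat 64128300, .ofNat 40506591, .ofNat 87507455, .ofNat 493350927730345439207179026300),
   (.negSucc 0, .ofNat 0, .ofNat 0, .ofNat 4303810036087660098000),
   (.negSucc 16, .negSucc 4, .negSucc 15, .negSucc 74605229482711397698799),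
   (.ofNat 0, .negSucc 0, .negSucc 0, .ofNat 0),
   (.ofNat 0, .negSucc 0, .negSucc 0, .negSucc 2899999999999999999999)],
  [(.ofNat 0, .ofNat 375938550, .negSucc 961234824, .ofNat 988543399502816566324136471250),
   (.ofNat 0, .ofNat 375938550, .negSucc 961234824, .ofNat 988543399502816566324136471250),
   (.ofNat 0, .ofNat 375938550, .negSucc 961234824, .ofNat 988543399502816566324136471250),
   (.ofNat 0, .ofNat 375938550, .negSucc 961234824, .ofNat 988543399502816566324136471250),
   (.ofNat 0, .ofNat 375938550, .negSucc 961234824, .ofNat 988543399502816566324136471250),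
   (.ofNat 4, .negSucc 27, .ofNat 18, .negSucc 27114003227352258617399),
   (.ofNat 4, .negSucc 27, .ofNat 18, .negSucc 27114003227352258617399),
   (.ofNat 4, .negSucc 27, .ofNat 18, .negSucc 27114003227352258617399),
   (.ofNat 4, .negSucc 27, .ofNat 18, .negSucc 27114003227352258617399),
   (.ofNat 12, .negSucc 12, .ofNat 13, .negSucc 66924246061163114523899),
   (.ofNat 12, .negSucc 12, .ofNat 13, .negSucc 66924246061163114523899),
   (.ofNat 22, .negSucc 11, .ofNat 26, .negSucc 36152004303136344823199),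
   (.ofNat 1, .ofNat 0, .ofNat 0, .ofNat 240000000000000000000),
   (.ofNat 22, .negSucc 11, .ofNat 26, .negSucc 36152004303136344823199),
   (.ofNat 22, .negSucc 11, .ofNat 26, .negSucc 36152004303136344823199),
   (.ofNat 1, .negSucc 0, .ofNat 1, .negSucc 4399999999999999999999),
   (.ofNat 1, .negSucc 0, .ofNat 1, .negSucc 4399999999999999999999),
   (.ofNat 1, .negSucc 0, .ofNat 1, .negSucc 4399999999999999999999),
   (.ofNat 1, .negSucc 0, .ofNat 1, .negSucc 4399999999999999999999),
   (.ofNat 1, .negSucc 0, .ofNat 0, .ofNat 230000000000000000000),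
   (.ofNat 1, .negSucc 0, .ofNat 0, .ofNat 230000000000000000000),
   (.ofNat 0, .negSucc 0, .ofNat 1, .ofNat 1200000000000000000000),
   (.ofNat 0, .negSucc 0, .ofNat 0, .ofNat 4500000000000000000000),
   (.ofNat 0, .negSucc 0, .ofNat 1, .ofNat 1600000000000000000000),
   (.ofNat 0, .negSucc 0, .ofNat 0, .ofNat 4600000000000000000000),
   (.ofNat 2, .negSucc 0, .ofNat 2, .negSucc 2980655215075586084399),
   (.ofNat 64128320, .ofNat 40506580, .ofNat 87507470, .ofNat 493350887489721601787557110000),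
   (.negSucc 4046977, .negSucc 1482909, .ofNat 187986, .ofNat 23703163191268196152109392800),
   (.ofNat 0, .negSucc 1, .ofNat 1, .ofNat 52418199157477911450),
   (.ofNat 1, .negSucc 0, .ofNat 0, .ofNat 1800000000000000000000),
   (.ofNat 1, .negSucc 0, .ofNat 0, .ofNat 300000000000000000000)],
  [(.ofNat 0, .ofNat 6317766, .negSucc 10097501, .ofNat 26965887174579298186361320200),
   (.ofNat 0, .ofNat 6317766, .negSucc 10097501, .ofNat 26965887174579298186361320200),
   (.ofNat 0, .ofNat 6317766, .negSucc 10097501, .ofNat 26965887174579298186361320200),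
   (.ofNat 0, .ofNat 6317766, .negSucc 10097501, .ofNat 26965887174579298186361320200),
   (.ofNat 4, .negSucc 27, .ofNat 18, .negSucc 27114003227352258617399),
   (.ofNat 4, .negSucc 27, .ofNat 18, .negSucc 27114003227352258617399),
   (.ofNat 4, .negSucc 27, .ofNat 18, .negSucc 27114003227352258617399),
   (.ofNat 4, .negSucc 27, .ofNat 18, .negSucc 27114003227352258617399),
   (.ofNat 12, .negSucc 12, .ofNat 13, .negSucc 66924246061163114523899),
   (.ofNat 0, .negSucc 0, .ofNat 2, .negSucc 1599999999999999999999),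
   (.ofNat 22, .negSucc 11, .ofNat 26, .negSucc 36152004303136344823199),
   (.ofNat 1, .ofNat 0, .ofNat 0, .ofNat 240000000000000000000),
   (.ofNat 22, .negSucc 11, .ofNat 26, .negSucc 36152004303136344823199),
   (.ofNat 22, .negSucc 11, .ofNat 26, .negSucc 36152004303136344823199),
   (.ofNat 1, .negSucc 0, .ofNat 1, .negSucc 4399999999999999999999),
   (.ofNat 1, .negSucc 0, .ofNat 1, .negSucc 4399999999999999999999),
   (.ofNat 1, .negSucc 0, .ofNat 1, .negSucc 4399999999999999999999),
   (.ofNat 1, .negSucc 0, .ofNat 1, .negSucc 4399999999999999999999),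
   (.ofNat 1, .negSucc 0, .ofNat 0, .ofNat 230000000000000000000),
   (.ofNat 1, .negSucc 0, .ofNat 0, .ofNat 230000000000000000000),
   (.ofNat 0, .negSucc 0, .ofNat 1, .ofNat 1200000000000000000000),
   (.ofNat 0, .negSucc 0, .ofNat 0, .ofNat 4500000000000000000000),
   (.ofNat 0, .negSucc 0, .ofNat 1, .ofNat 1600000000000000000000),
   (.ofNat 0, .negSucc 0, .ofNat 0, .ofNat 4600000000000000000000),
   (.ofNat 2, .negSucc 0, .ofNat 2, .negSucc 2980655215075586084399),
   (.ofNat 64128320, .ofNat 40506580, .ofNat 87507470, .ofNat 493350887489721601787557110000),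
   (.negSucc 4046977, .negSucc 1482909, .ofNat 187986, .ofNat 23703163191268196152109392800),
   (.ofNat 0, .negSucc 1, .ofNat 1, .ofNat 52418199157477911450),
   (.ofNat 1, .negSucc 0, .ofNat 0, .ofNat 1800000000000000000000),
   (.ofNat 1, .negSucc 0, .ofNat 0, .ofNat 300000000000000000000)],
  [(.ofNat 0, .ofNat 79907932, .negSucc 74867428, .ofNat 431408168880385591424969589150),
   (.ofNat 0, .ofNat 79907932, .negSucc 74867428, .ofNat 431408168880385591424969589150),
   (.ofNat 0, .ofNat 79907932, .negSucc 74867428, .ofNat 431408168880385591424969589150),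
   (.ofNat 4, .negSucc 27, .ofNat 18, .negSucc 27114003227352258617399),
   (.ofNat 4, .negSucc 27, .ofNat 18, .negSucc 27114003227352258617399),
   (.ofNat 4, .negSucc 27, .ofNat 18, .negSucc 27114003227352258617399),
   (.ofNat 4, .negSucc 27, .ofNat 18, .negSucc 27114003227352258617399),
   (.ofNat 12, .negSucc 12, .ofNat 13, .negSucc 66924246061163114523899),
   (.ofNat 0, .negSucc 0, .ofNat 2, .negSucc 2499999999999999999999),
   (.ofNat 22, .negSucc 11, .ofNat 26, .negSucc 36152004303136344823199),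
   (.ofNat 1, .ofNat 0, .ofNat 0, .ofNat 240000000000000000000),
   (.ofNat 22, .negSucc 11, .ofNat 26, .negSucc 36152004303136344823199),
   (.ofNat 22, .negSucc 11, .ofNat 26, .negSucc 36152004303136344823199),
   (.ofNat 1, .negSucc 0, .ofNat 1, .negSucc 4399999999999999999999),
   (.ofNat 1, .negSucc 0, .ofNat 1, .negSucc 4399999999999999999999),
   (.ofNat 1, .negSucc 0, .ofNat 1, .negSucc 4399999999999999999999),
   (.ofNat 1, .negSucc 0, .ofNat 1, .negSucc 4399999999999999999999),
   (.ofNat 1, .negSucc 0, .ofNat 0, .ofNat 230000000000000000000),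
   (.ofNat 1, .negSucc 0, .ofNat 0, .ofNat 230000000000000000000),
   (.ofNat 0, .negSucc 0, .ofNat 1, .ofNat 1200000000000000000000),
   (.ofNat 0, .negSucc 0, .ofNat 0, .ofNat 4500000000000000000000),
   (.ofNat 0, .negSucc 0, .ofNat 1, .ofNat 1600000000000000000000),
   (.ofNat 0, .negSucc 0, .ofNat 0, .ofNat 4600000000000000000000),
   (.ofNat 2, .negSucc 0, .ofNat 2, .negSucc 2980655215075586084399),
   (.ofNat 64128320, .ofNat 40506580, .ofNat 87507470, .ofNat 493350887489721601787557110000),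
   (.negSucc 4046977, .negSucc 1482909, .ofNat 187986, .ofNat 23703163191268196152109392800),
   (.ofNat 0, .negSucc 1, .ofNat 1, .ofNat 52418199157477911450),
   (.ofNat 1, .negSucc 0, .ofNat 0, .ofNat 1800000000000000000000),
   (.ofNat 1, .negSucc 0, .ofNat 0, .ofNat 300000000000000000000)],
  [(.ofNat 0, .ofNat 955354023, .ofNat 475806569, .ofNat 7501277546853302881175880473100),
   (.ofNat 0, .ofNat 955354023, .ofNat 475806569, .ofNat 7501277546853302881175880473100),
   (.ofNat 4, .negSucc 27, .ofNat 18, .negSucc 27114003227352258617399),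
   (.ofNat 4, .negSucc 27, .ofNat 18, .negSucc 27114003227352258617399),
   (.ofNat 4, .negSucc 27, .ofNat 18, .negSucc 27114003227352258617399),
   (.ofNat 4, .negSucc 27, .ofNat 18, .negSucc 27114003227352258617399),
   (.ofNat 12, .negSucc 12, .ofNat 13, .negSucc 66924246061163114523899),
   (.ofNat 0, .negSucc 0, .ofNat 1, .negSucc 4199999999999999999999),
   (.ofNat 22, .negSucc 11, .ofNat 26, .negSucc 36152004303136344823199),
   (.ofNat 2, .negSucc 0, .ofNat 2, .negSucc 3119999999999999999999),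
   (.ofNat 22, .negSucc 11, .ofNat 26, .negSucc 36152004303136344823199),
   (.ofNat 22, .negSucc 11, .ofNat 26, .negSucc 36152004303136344823199),
   (.ofNat 1, .negSucc 0, .ofNat 1, .negSucc 4399999999999999999999),
   (.ofNat 1, .negSucc 0, .ofNat 1, .negSucc 4399999999999999999999),
   (.ofNat 1, .negSucc 0, .ofNat 1, .negSucc 4399999999999999999999),
   (.ofNat 1, .negSucc 0, .ofNat 1, .negSucc 4399999999999999999999),
   (.ofNat 1, .negSucc 0, .ofNat 0, .ofNat 230000000000000000000),
   (.ofNat 1, .negSucc 0, .ofNat 0, .ofNat 230000000000000000000),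
   (.ofNat 0, .negSucc 0, .ofNat 1, .ofNat 1200000000000000000000),
   (.ofNat 0, .negSucc 0, .ofNat 0, .ofNat 4500000000000000000000),
   (.ofNat 0, .negSucc 0, .ofNat 1, .ofNat 1600000000000000000000),
   (.ofNat 0, .negSucc 0, .ofNat 0, .ofNat 4600000000000000000000),
   (.ofNat 2, .negSucc 0, .ofNat 2, .negSucc 2980655215075586084399),
   (.ofNat 64128320, .ofNat 40506580, .ofNat 87507470, .ofNat 493350887489721601787557110000),
   (.negSucc 4046977, .negSucc 1482909, .ofNat 187986, .ofNat 23703163191268196152109392800),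
   (.ofNat 0, .negSucc 1, .ofNat 1, .ofNat 52418199157477911450),
   (.ofNat 1, .negSucc 0, .ofNat 0, .ofNat 1800000000000000000000),
   (.ofNat 1, .negSucc 0, .ofNat 0, .ofNat 300000000000000000000)],
  [(.ofNat 0, .ofNat 1732036761, .ofNat 1118994919, .ofNat 14037909136437063181559558202900),
   (.ofNat 4, .negSucc 27, .ofNat 18, .negSucc 27114003227352258617399),
   (.ofNat 4, .negSucc 27, .ofNat 18, .negSucc 27114003227352258617399),
   (.ofNat 4, .negSucc 27, .ofNat 18, .negSucc 27114003227352258617399),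
   (.ofNat 4, .negSucc 27, .ofNat 18, .negSucc 27114003227352258617399),
   (.ofNat 12, .negSucc 12, .ofNat 13, .negSucc 66924246061163114523899),
   (.ofNat 0, .negSucc 0, .ofNat 0, .negSucc 5899999999999999999999),
   (.ofNat 22, .negSucc 11, .ofNat 26, .negSucc 36152004303136344823199),
   (.ofNat 2, .negSucc 0, .ofNat 2, .negSucc 3119999999999999999999),
   (.ofNat 22, .negSucc 11, .ofNat 26, .negSucc 36152004303136344823199),
   (.ofNat 22, .negSucc 11, .ofNat 26, .negSucc 36152004303136344823199),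
   (.ofNat 1, .negSucc 0, .ofNat 1, .negSucc 4399999999999999999999),
   (.ofNat 1, .negSucc 0, .ofNat 1, .negSucc 4399999999999999999999),
   (.ofNat 1, .negSucc 0, .ofNat 1, .negSucc 4399999999999999999999),
   (.ofNat 1, .negSucc 0, .ofNat 1, .negSucc 4399999999999999999999),
   (.ofNat 1, .negSucc 0, .ofNat 0, .ofNat 230000000000000000000),
   (.ofNat 1, .negSucc 0, .ofNat 0, .ofNat 230000000000000000000),
   (.ofNat 0, .negSucc 0, .ofNat 1, .ofNat 1200000000000000000000),
   (.ofNat 0, .negSucc 0, .ofNat 0, .ofNat 4500000000000000000000),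
   (.ofNat 0, .negSucc 0, .ofNat 1, .ofNat 1600000000000000000000),
   (.ofNat 0, .negSucc 0, .ofNat 0, .ofNat 4600000000000000000000),
   (.ofNat 2, .negSucc 0, .ofNat 2, .negSucc 2980655215075586084399),
   (.ofNat 64128320, .ofNat 40506580, .ofNat 87507470, .ofNat 493350887489721601787557110000),
   (.negSucc 4046977, .negSucc 1482909, .ofNat 187986, .ofNat 23703163191268196152109392800),
   (.ofNat 0, .negSucc 1, .ofNat 1, .ofNat 52418199157477911450),
   (.ofNat 1, .negSucc 0, .ofNat 0, .ofNat 1800000000000000000000),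
   (.ofNat 1, .negSucc 0, .ofNat 0, .ofNat 300000000000000000000)],
  [(.ofNat 4, .negSucc 27, .ofNat 18, .negSucc 27114003227352258617399),
   (.ofNat 4, .negSucc 27, .ofNat 18, .negSucc 27114003227352258617399),
   (.ofNat 4, .negSucc 27, .ofNat 18, .negSucc 27114003227352258617399),
   (.ofNat 4, .negSucc 27, .ofNat 18, .negSucc 27114003227352258617399),
   (.ofNat 12, .negSucc 12, .ofNat 13, .negSucc 66924246061163114523899),
   (.ofNat 0, .negSucc 0, .ofNat 0, .negSucc 5899999999999999999999),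
   (.ofNat 22, .negSucc 11, .ofNat 26, .negSucc 36152004303136344823199),
   (.ofNat 22, .negSucc 11, .ofNat 26, .negSucc 36152004303136344823199),
   (.ofNat 22, .negSucc 11, .ofNat 26, .negSucc 36152004303136344823199),
   (.ofNat 22, .negSucc 11, .ofNat 26, .negSucc 36152004303136344823199),
   (.ofNat 1, .negSucc 0, .ofNat 1, .negSucc 4399999999999999999999),
   (.ofNat 1, .negSucc 0, .ofNat 1, .negSucc 4399999999999999999999),
   (.ofNat 1, .negSucc 0, .ofNat 1, .negSucc 4399999999999999999999),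
   (.ofNat 1, .negSucc 0, .ofNat 1, .negSucc 4399999999999999999999),
   (.ofNat 1, .negSucc 0, .ofNat 0, .ofNat 230000000000000000000),
   (.ofNat 1, .negSucc 0, .ofNat 0, .ofNat 230000000000000000000),
   (.ofNat 0, .negSucc 0, .ofNat 1, .ofNat 1200000000000000000000),
   (.ofNat 0, .negSucc 0, .ofNat 0, .ofNat 4500000000000000000000),
   (.ofNat 0, .negSucc 0, .ofNat 1, .ofNat 1600000000000000000000),
   (.ofNat 0, .negSucc 0, .ofNat 0, .ofNat 4600000000000000000000),
   (.ofNat 2, .negSucc 0, .ofNat 2, .negSucc 2980655215075586084399),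
   (.ofNat 64128320, .ofNat 40506580, .ofNat 87507470, .ofNat 493350887489721601787557110000),
   (.negSucc 4046977, .negSucc 1482909, .ofNat 187986, .ofNat 23703163191268196152109392800),
   (.ofNat 0, .negSucc 1, .ofNat 1, .ofNat 52418199157477911450),
   (.ofNat 1, .negSucc 0, .ofNat 0, .ofNat 1800000000000000000000),
   (.ofNat 1, .negSucc 0, .ofNat 0, .ofNat 300000000000000000000)],
  [(.ofNat 12718680, .ofNat 0, .negSucc 6876574, .negSucc 63246722157716894635700861999),
   (.ofNat 12718680, .ofNat 0, .negSucc 6876574, .negSucc 63246722157716894635700861999),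
   (.ofNat 12718680, .ofNat 0, .negSucc 6876574, .negSucc 63246722157716894635700861999),
   (.ofNat 8, .ofNat 15, .negSucc 4, .negSucc 39810242833810855906499),
   (.ofNat 8, .ofNat 15, .negSucc 4, .negSucc 39810242833810855906499),
   (.ofNat 18, .ofNat 16, .ofNat 8, .negSucc 9038001075784086205799),
   (.ofNat 18, .ofNat 16, .ofNat 8, .negSucc 9038001075784086205799),
   (.ofNat 18, .ofNat 16, .ofNat 8, .negSucc 9038001075784086205799),
   (.ofNat 18, .ofNat 16, .ofNat 8, .negSucc 9038001075784086205799),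
   (.ofNat 8, .ofNat 12, .ofNat 10, .negSucc 28405146238178556646799),
   (.ofNat 8, .ofNat 12, .ofNat 10, .negSucc 28405146238178556646799),
   (.ofNat 8, .ofNat 12, .ofNat 10, .negSucc 28405146238178556646799),
   (.ofNat 8, .ofNat 12, .ofNat 10, .negSucc 28405146238178556646799),
   (.ofNat 5, .ofNat 3, .ofNat 4, .ofNat 8130000000000000000000),
   (.ofNat 1, .ofNat 1, .ofNat 0, .negSucc 199999999999999999999),
   (.ofNat 2, .ofNat 2, .ofNat 1, .negSucc 2743678898005883312474),
   (.negSucc 22, .negSucc 59, .ofNat 0, .ofNat 355590000000000000000000),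
   (.negSucc 396961, .negSucc 1403774, .ofNat 3452970, .ofNat 5787898445784814843551467400),
   (.ofNat 4, .ofNat 6, .negSucc 2, .negSucc 17333594920343051044694),
   (.ofNat 2, .ofNat 1, .ofNat 2, .ofNat 4475962437531166501920),
   (.ofNat 0, .ofNat 1, .ofNat 1, .ofNat 5000000000000000000000),
   (.negSucc 0, .negSucc 0, .ofNat 0, .ofNat 6342602098054827285450),
   (.negSucc 317933151, .negSucc 523967623, .negSucc 66356391, .ofNat 2240609030920178585896082653800),
   (.ofNat 4, .ofNat 6, .negSucc 2, .negSucc 17333594920343051044694),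
   (.ofNat 1, .ofNat 1, .ofNat 1, .negSucc 1689245439164406588464)],
  [(.ofNat 224224, .ofNat 0, .negSucc 626834, .negSucc 462200649269241979713216599),
   (.ofNat 224224, .ofNat 0, .negSucc 626834, .negSucc 462200649269241979713216599),
   (.ofNat 0, .ofNat 1, .ofNat 0, .ofNat 300000000000000000000),
   (.ofNat 8, .ofNat 15, .negSucc 4, .negSucc 39810242833810855906499),
   (.ofNat 18, .ofNat 16, .ofNat 8, .negSucc 9038001075784086205799),
   (.ofNat 18, .ofNat 16, .ofNat 8, .negSucc 9038001075784086205799),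
   (.ofNat 18, .ofNat 16, .ofNat 8, .negSucc 9038001075784086205799),
   (.ofNat 18, .ofNat 16, .ofNat 8, .negSucc 9038001075784086205799),
   (.ofNat 8, .ofNat 12, .ofNat 10, .negSucc 28405146238178556646799),
   (.ofNat 8, .ofNat 12, .ofNat 10, .negSucc 28405146238178556646799),
   (.ofNat 8, .ofNat 12, .ofNat 10, .negSucc 28405146238178556646799),
   (.ofNat 8, .ofNat 12, .ofNat 10, .negSucc 28405146238178556646799),
   (.ofNat 5, .ofNat 3, .ofNat 4, .ofNat 8130000000000000000000),
   (.ofNat 1, .ofNat 1, .ofNat 0, .negSucc 199999999999999999999),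
   (.ofNat 2, .ofNat 2, .ofNat 1, .negSucc 2743678898005883312474),
   (.negSucc 22, .negSucc 59, .ofNat 0, .ofNat 355590000000000000000000),
   (.negSucc 396961, .negSucc 1403774, .ofNat 3452970, .ofNat 5787898445784814843551467400),
   (.ofNat 4, .ofNat 6, .negSucc 2, .negSucc 17333594920343051044694),
   (.ofNat 2, .ofNat 1, .ofNat 2, .ofNat 4475962437531166501920),
   (.ofNat 0, .ofNat 1, .ofNat 1, .ofNat 5000000000000000000000),
   (.negSucc 0, .negSucc 0, .ofNat 0, .ofNat 6342602098054827285450),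
   (.negSucc 317933151, .negSucc 523967623, .negSucc 66356391, .ofNat 2240609030920178585896082653800),
   (.ofNat 4, .ofNat 6, .negSucc 2, .negSucc 17333594920343051044694),
   (.ofNat 1, .ofNat 1, .ofNat 1, .negSucc 1689245439164406588464)],
  [(.ofNat 7137, .ofNat 0, .negSucc 131864, .ofNat 129783920126619591755497575),
   (.ofNat 8, .ofNat 15, .negSucc 4, .negSucc 39810242833810855906499),
   (.ofNat 8, .ofNat 15, .negSucc 4, .negSucc 39810242833810855906499),
   (.ofNat 18, .ofNat 16, .ofNat 8, .negSucc 9038001075784086205799),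
   (.ofNat 1, .ofNat 1, .ofNat 0, .negSucc 959999999999999999999),
   (.ofNat 18, .ofNat 16, .ofNat 8, .negSucc 9038001075784086205799),
   (.ofNat 18, .ofNat 16, .ofNat 8, .negSucc 9038001075784086205799),
   (.ofNat 0, .ofNat 0, .ofNat 1, .ofNat 680000000000000000000),
   (.ofNat 0, .ofNat 0, .ofNat 1, .ofNat 680000000000000000000),
   (.ofNat 0, .ofNat 0, .ofNat 1, .ofNat 594000000000000000000),
   (.ofNat 8, .ofNat 12, .ofNat 10, .negSucc 28405146238178556646799),
   (.ofNat 5, .ofNat 3, .ofNat 4, .ofNat 8130000000000000000000),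
   (.ofNat 1, .ofNat 1, .ofNat 0, .negSucc 199999999999999999999),
   (.ofNat 2, .ofNat 2, .ofNat 1, .negSucc 2743678898005883312474),
   (.negSucc 22, .negSucc 59, .ofNat 0, .ofNat 355590000000000000000000),
   (.negSucc 396961, .negSucc 1403774, .ofNat 3452970, .ofNat 5787898445784814843551467400),
   (.ofNat 4, .ofNat 6, .negSucc 2, .negSucc 17333594920343051044694),
   (.ofNat 2, .ofNat 1, .ofNat 2, .ofNat 4475962437531166501920),
   (.ofNat 0, .ofNat 1, .ofNat 1, .ofNat 5000000000000000000000),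
   (.negSucc 0, .negSucc 0, .ofNat 0, .ofNat 6342602098054827285450),
   (.negSucc 317933151, .negSucc 523967623, .negSucc 66356391, .ofNat 2240609030920178585896082653800),
   (.ofNat 4, .ofNat 6, .negSucc 2, .negSucc 17333594920343051044694),
   (.ofNat 1, .ofNat 1, .ofNat 1, .negSucc 1689245439164406588464)],
  [(.ofNat 8, .ofNat 15, .negSucc 4, .negSucc 39810242833810855906499),
   (.ofNat 8, .ofNat 15, .negSucc 4, .negSucc 39810242833810855906499),
   (.ofNat 18, .ofNat 16, .ofNat 8, .negSucc 9038001075784086205799),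
   (.ofNat 18, .ofNat 16, .ofNat 8, .negSucc 9038001075784086205799),
   (.ofNat 18, .ofNat 16, .ofNat 8, .negSucc 9038001075784086205799),
   (.ofNat 18, .ofNat 16, .ofNat 8, .negSucc 9038001075784086205799),
   (.ofNat 8, .ofNat 12, .ofNat 10, .negSucc 28405146238178556646799),
   (.ofNat 8, .ofNat 12, .ofNat 10, .negSucc 28405146238178556646799),
   (.ofNat 8, .ofNat 12, .ofNat 10, .negSucc 28405146238178556646799),
   (.ofNat 8, .ofNat 12, .ofNat 10, .negSucc 28405146238178556646799),
   (.ofNat 5, .ofNat 3, .ofNat 4, .ofNat 8130000000000000000000),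
   (.ofNat 1, .ofNat 1, .ofNat 0, .negSucc 199999999999999999999),
   (.ofNat 2, .ofNat 2, .ofNat 1, .negSucc 2743678898005883312474),
   (.negSucc 22, .negSucc 59, .ofNat 0, .ofNat 355590000000000000000000),
   (.negSucc 396961, .negSucc 1403774, .ofNat 3452970, .ofNat 5787898445784814843551467400),
   (.ofNat 4, .ofNat 6, .negSucc 2, .negSucc 17333594920343051044694),
   (.ofNat 2, .ofNat 1, .ofNat 2, .ofNat 4475962437531166501920),
   (.ofNat 0, .ofNat 1, .ofNat 1, .ofNat 5000000000000000000000),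
   (.negSucc 0, .negSucc 0, .ofNat 0, .ofNat 6342602098054827285450),
   (.negSucc 317933151, .negSucc 523967623, .negSucc 66356391, .ofNat 2240609030920178585896082653800),
   (.ofNat 4, .ofNat 6, .negSucc 2, .negSucc 17333594920343051044694),
   (.ofNat 1, .ofNat 1, .ofNat 1, .negSucc 1689245439164406588464)],
  [(.ofNat 359392152, .negSucc 485966059, .ofNat 0, .negSucc 2271528533133543141800993851199),
   (.ofNat 10, .ofNat 1, .ofNat 13, .ofNat 30772241758026769700700),
   (.ofNat 10, .ofNat 1, .ofNat 13, .ofNat 30772241758026769700700),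
   (.ofNat 10, .ofNat 1, .ofNat 13, .ofNat 30772241758026769700700),
   (.ofNat 10, .ofNat 1, .ofNat 13, .ofNat 30772241758026769700700),
   (.ofNat 0, .negSucc 2, .ofNat 15, .ofNat 11405096595632299259700),
   (.ofNat 1, .negSucc 0, .negSucc 0, .negSucc 5799999999999999999999),
   (.ofNat 0, .negSucc 0, .ofNat 0, .negSucc 199999999999999999999),
   (.ofNat 0, .negSucc 0, .ofNat 0, .negSucc 199999999999999999999),
   (.ofNat 1, .negSucc 0, .ofNat 0, .negSucc 1999999999999999999999),
   (.ofNat 1, .ofNat 0, .ofNat 0, .ofNat 1400000000000000000000),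
   (.ofNat 0, .negSucc 0, .ofNat 0, .ofNat 700000000000000000000),
   (.ofNat 0, .negSucc 0, .ofNat 0, .ofNat 3000000000000000000000),
   (.ofNat 0, .negSucc 0, .ofNat 0, .ofNat 1300000000000000000000),
   (.ofNat 0, .negSucc 0, .ofNat 0, .ofNat 3000000000000000000000),
   (.ofNat 1, .ofNat 0, .ofNat 1, .ofNat 2230000000000000000000),
   (.ofNat 1, .ofNat 0, .ofNat 1, .ofNat 2230000000000000000000),
   (.ofNat 0, .negSucc 0, .ofNat 0, .ofNat 400000000000000000000),
   (.ofNat 0, .negSucc 0, .ofNat 0, .ofNat 400000000000000000000),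
   (.ofNat 0, .negSucc 0, .ofNat 0, .ofNat 1500000000000000000000),
   (.ofNat 1, .ofNat 0, .ofNat 0, .ofNat 1000000000000000000000)],
  [(.ofNat 10, .ofNat 1, .ofNat 13, .ofNat 30772241758026769700700),
   (.ofNat 10, .ofNat 1, .ofNat 13, .ofNat 30772241758026769700700),
   (.ofNat 10, .ofNat 1, .ofNat 13, .ofNat 30772241758026769700700),
   (.ofNat 10, .ofNat 1, .ofNat 13, .ofNat 30772241758026769700700),
   (.ofNat 0, .negSucc 2, .ofNat 15, .ofNat 11405096595632299259700),
   (.ofNat 0, .negSucc 2, .ofNat 15, .ofNat 11405096595632299259700),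
   (.ofNat 0, .negSucc 2, .ofNat 15, .ofNat 11405096595632299259700),
   (.ofNat 0, .negSucc 2, .ofNat 15, .ofNat 11405096595632299259700),
   (.ofNat 1, .negSucc 0, .ofNat 0, .negSucc 1999999999999999999999),
   (.ofNat 1, .ofNat 0, .ofNat 0, .ofNat 1400000000000000000000),
   (.ofNat 0, .negSucc 0, .ofNat 0, .ofNat 700000000000000000000),
   (.ofNat 0, .negSucc 0, .ofNat 0, .ofNat 3000000000000000000000),
   (.ofNat 0, .negSucc 0, .ofNat 0, .ofNat 1300000000000000000000),
   (.ofNat 0, .negSucc 0, .ofNat 0, .ofNat 3000000000000000000000),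
   (.ofNat 1, .ofNat 0, .ofNat 1, .ofNat 2230000000000000000000),
   (.ofNat 1, .ofNat 0, .ofNat 1, .ofNat 2230000000000000000000),
   (.ofNat 0, .negSucc 0, .ofNat 0, .ofNat 400000000000000000000),
   (.ofNat 0, .negSucc 0, .ofNat 0, .ofNat 400000000000000000000),
   (.ofNat 0, .negSucc 0, .ofNat 0, .ofNat 1500000000000000000000),
   (.ofNat 1, .ofNat 0, .ofNat 0, .ofNat 1000000000000000000000)],
  [(.ofNat 7289424, .negSucc 2482435, .ofNat 0, .negSucc 9854709283472224936636871999),
   (.ofNat 7289424, .negSucc 2482435, .ofNat 0, .negSucc 9854709283472224936636871999),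
   (.ofNat 7289424, .negSucc 2482435, .ofNat 0, .negSucc 9854709283472224936636871999),
   (.negSucc 9, .negSucc 3, .ofNat 2, .negSucc 19367145162394470440999),
   (.ofNat 0, .negSucc 0, .ofNat 0, .negSucc 3099999999999999999999),
   (.negSucc 9, .negSucc 3, .ofNat 2, .negSucc 19367145162394470440999),
   (.negSucc 9, .negSucc 3, .ofNat 2, .negSucc 19367145162394470440999),
   (.ofNat 17, .ofNat 4, .ofNat 16, .ofNat 80600000000000000000000),
   (.negSucc 5, .negSucc 0, .negSucc 9, .negSucc 22799999999999999999999),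
   (.negSucc 2, .negSucc 0, .negSucc 3, .negSucc 9317748728129784112169),
   (.negSucc 22, .negSucc 59, .ofNat 0, .ofNat 355590000000000000000000),
   (.negSucc 0, .negSucc 0, .ofNat 0, .ofNat 1054433458841476724010),
   (.negSucc 1, .negSucc 0, .negSucc 1, .negSucc 4131657634644153694079),
   (.ofNat 229502294, .ofNat 61898714, .ofNat 214943572, .ofNat 1012959990543217640290455488400),
   (.ofNat 4, .ofNat 2, .ofNat 5, .ofNat 26182103864166335521800),
   (.negSucc 0, .ofNat 0, .ofNat 0, .ofNat 3000000000000000000000),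
   (.negSucc 1, .negSucc 1, .negSucc 0, .ofNat 3174059901614649322275),
   (.negSucc 0, .negSucc 0, .ofNat 0, .ofNat 1054433458841476724010),
   (.ofNat 12134, .negSucc 3247, .ofNat 45536, .ofNat 73819810500982763532915600)],
  [(.negSucc 4006430, .negSucc 2253019, .ofNat 0, .negSucc 12350264064515575251609956399),
   (.negSucc 4006430, .negSucc 2253019, .ofNat 0, .negSucc 12350264064515575251609956399),
   (.negSucc 9, .negSucc 3, .ofNat 2, .negSucc 19367145162394470440999),
   (.negSucc 1, .negSucc 0, .ofNat 0, .negSucc 4999999999999999999999),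
   (.negSucc 9, .negSucc 3, .ofNat 2, .negSucc 19367145162394470440999),
   (.negSucc 9, .negSucc 3, .ofNat 2, .negSucc 19367145162394470440999),
   (.ofNat 17, .ofNat 4, .ofNat 16, .ofNat 80600000000000000000000),
   (.negSucc 5, .negSucc 0, .negSucc 9, .negSucc 22799999999999999999999),
   (.negSucc 2, .negSucc 0, .negSucc 3, .negSucc 9317748728129784112169),
   (.negSucc 22, .negSucc 59, .ofNat 0, .ofNat 355590000000000000000000),
   (.negSucc 0, .negSucc 0, .ofNat 0, .ofNat 1054433458841476724010),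
   (.negSucc 1, .negSucc 0, .negSucc 1, .negSucc 4131657634644153694079),
   (.ofNat 229502294, .ofNat 61898714, .ofNat 214943572, .ofNat 1012959990543217640290455488400),
   (.ofNat 4, .ofNat 2, .ofNat 5, .ofNat 26182103864166335521800),
   (.negSucc 0, .ofNat 0, .ofNat 0, .ofNat 3000000000000000000000),
   (.negSucc 1, .negSucc 1, .negSucc 0, .ofNat 3174059901614649322275),
   (.negSucc 0, .negSucc 0, .ofNat 0, .ofNat 1054433458841476724010),
   (.ofNat 12134, .negSucc 3247, .ofNat 45536, .ofNat 73819810500982763532915600)],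
  [(.negSucc 29438, .negSucc 14539, .ofNat 0, .negSucc 80852236099950000133047599),
   (.negSucc 9, .negSucc 3, .ofNat 2, .negSucc 19367145162394470440999),
   (.negSucc 1, .negSucc 0, .ofNat 0, .negSucc 4999999999999999999999),
   (.negSucc 9, .negSucc 3, .ofNat 2, .negSucc 19367145162394470440999),
   (.negSucc 9, .negSucc 3, .ofNat 2, .negSucc 19367145162394470440999),
   (.ofNat 17, .ofNat 4, .ofNat 16, .ofNat 80600000000000000000000),
   (.negSucc 5, .negSucc 0, .negSucc 9, .negSucc 22799999999999999999999),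
   (.negSucc 2, .negSucc 0, .negSucc 3, .negSucc 9317748728129784112169),
   (.negSucc 22, .negSucc 59, .ofNat 0, .ofNat 355590000000000000000000),
   (.negSucc 0, .negSucc 0, .ofNat 0, .ofNat 1054433458841476724010),
   (.negSucc 1, .negSucc 0, .negSucc 1, .negSucc 4131657634644153694079),
   (.ofNat 229502294, .ofNat 61898714, .ofNat 214943572, .ofNat 1012959990543217640290455488400),
   (.ofNat 4, .ofNat 2, .ofNat 5, .ofNat 26182103864166335521800),
   (.negSucc 0, .ofNat 0, .ofNat 0, .ofNat 3000000000000000000000),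
   (.negSucc 1, .negSucc 1, .negSucc 0, .ofNat 3174059901614649322275),
   (.negSucc 0, .negSucc 0, .ofNat 0, .ofNat 1054433458841476724010),
   (.ofNat 12134, .negSucc 3247, .ofNat 45536, .ofNat 73819810500982763532915600)],
  [(.negSucc 9, .negSucc 3, .ofNat 2, .negSucc 19367145162394470440999),
   (.negSucc 9, .negSucc 3, .ofNat 2, .negSucc 19367145162394470440999),
   (.negSucc 9, .negSucc 3, .ofNat 2, .negSucc 19367145162394470440999),
   (.negSucc 9, .negSucc 3, .ofNat 2, .negSucc 19367145162394470440999),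
   (.ofNat 17, .ofNat 4, .ofNat 16, .ofNat 80600000000000000000000),
   (.negSucc 5, .negSucc 0, .negSucc 9, .negSucc 22799999999999999999999),
   (.negSucc 2, .negSucc 0, .negSucc 3, .negSucc 9317748728129784112169),
   (.negSucc 22, .negSucc 59, .ofNat 0, .ofNat 355590000000000000000000),
   (.negSucc 0, .negSucc 0, .ofNat 0, .ofNat 1054433458841476724010),
   (.negSucc 1, .negSucc 0, .negSucc 1, .negSucc 4131657634644153694079),
   (.ofNat 229502294, .ofNat 61898714, .ofNat 214943572, .ofNat 1012959990543217640290455488400),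
   (.ofNat 4, .ofNat 2, .ofNat 5, .ofNat 26182103864166335521800),
   (.negSucc 0, .ofNat 0, .ofNat 0, .ofNat 3000000000000000000000),
   (.negSucc 1, .negSucc 1, .negSucc 0, .ofNat 3174059901614649322275),
   (.negSucc 0, .negSucc 0, .ofNat 0, .ofNat 1054433458841476724010),
   (.ofNat 12134, .negSucc 3247, .ofNat 45536, .ofNat 73819810500982763532915600)],
  [(.ofNat 9843, .negSucc 48738, .ofNat 0, .negSucc 46454751688192058076465599),
   (.ofNat 9843, .negSucc 48738, .ofNat 0, .negSucc 46454751688192058076465599),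
   (.ofNat 9843, .negSucc 48738, .ofNat 0, .negSucc 46454751688192058076465599),
   (.ofNat 1, .ofNat 0, .ofNat 1, .ofNat 3500000000000000000000),
   (.ofNat 1, .ofNat 0, .ofNat 0, .ofNat 2315859686085264719400),
   (.ofNat 1, .ofNat 0, .ofNat 0, .ofNat 2315859686085264719400),
   (.ofNat 0, .negSucc 0, .ofNat 0, .ofNat 4100000000000000000000),
   (.negSucc 396969, .negSucc 1403786, .ofNat 3452960, .ofNat 5787926850931053022108114200),
   (.ofNat 0, .negSucc 0, .ofNat 0, .ofNat 4200000000000000000000),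
   (.ofNat 3, .ofNat 1, .ofNat 3, .ofNat 11180000000000000000000),
   (.ofNat 0, .ofNat 1, .ofNat 1, .ofNat 7000000000000000000000),
   (.negSucc 0, .negSucc 0, .ofNat 0, .ofNat 5500000000000000000000),
   (.negSucc 0, .negSucc 1, .ofNat 0, .ofNat 6300000000000000000000),
   (.ofNat 0, .negSucc 0, .ofNat 0, .ofNat 3012667025261362068600),
   (.ofNat 12144, .negSucc 3243, .ofNat 45534, .ofNat 73839177646145158003356600)],
  [(.negSucc 4262, .negSucc 22136, .ofNat 0, .ofNat 18709522988880275978025600),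
   (.negSucc 4262, .negSucc 22136, .ofNat 0, .ofNat 18709522988880275978025600),
   (.ofNat 1, .ofNat 0, .ofNat 1, .ofNat 3500000000000000000000),
   (.ofNat 1, .ofNat 0, .ofNat 0, .ofNat 2315859686085264719400),
   (.ofNat 1, .ofNat 0, .ofNat 0, .ofNat 2315859686085264719400),
   (.ofNat 0, .negSucc 0, .ofNat 0, .ofNat 4100000000000000000000),
   (.negSucc 396969, .negSucc 1403786, .ofNat 3452960, .ofNat 5787926850931053022108114200),
   (.ofNat 0, .negSucc 0, .ofNat 0, .ofNat 4200000000000000000000),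
   (.ofNat 3, .ofNat 1, .ofNat 3, .ofNat 11180000000000000000000),
   (.ofNat 0, .ofNat 1, .ofNat 1, .ofNat 7000000000000000000000),
   (.negSucc 0, .negSucc 0, .ofNat 0, .ofNat 5500000000000000000000),
   (.negSucc 0, .negSucc 1, .ofNat 0, .ofNat 6300000000000000000000),
   (.ofNat 0, .negSucc 0, .ofNat 0, .ofNat 3012667025261362068600),
   (.ofNat 12144, .negSucc 3243, .ofNat 45534, .ofNat 73839177646145158003356600)],
  [(.negSucc 3268, .negSucc 6322, .ofNat 0, .ofNat 14694355145879561617264800),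
   (.ofNat 1, .ofNat 0, .ofNat 1, .ofNat 3500000000000000000000),
   (.ofNat 1, .ofNat 0, .ofNat 0, .ofNat 2315859686085264719400),
   (.ofNat 1, .ofNat 0, .ofNat 0, .ofNat 2315859686085264719400),
   (.ofNat 0, .negSucc 0, .ofNat 0, .ofNat 4100000000000000000000),
   (.negSucc 396969, .negSucc 1403786, .ofNat 3452960, .ofNat 5787926850931053022108114200),
   (.ofNat 0, .negSucc 0, .ofNat 0, .ofNat 4200000000000000000000),
   (.ofNat 3, .ofNat 1, .ofNat 3, .ofNat 11180000000000000000000),
   (.ofNat 0, .ofNat 1, .ofNat 1, .ofNat 7000000000000000000000),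
   (.negSucc 0, .negSucc 0, .ofNat 0, .ofNat 5500000000000000000000),
   (.negSucc 0, .negSucc 1, .ofNat 0, .ofNat 6300000000000000000000),
   (.ofNat 0, .negSucc 0, .ofNat 0, .ofNat 3012667025261362068600),
   (.ofNat 12144, .negSucc 3243, .ofNat 45534, .ofNat 73839177646145158003356600)],
  [(.ofNat 1, .ofNat 0, .ofNat 1, .ofNat 3500000000000000000000),
   (.ofNat 1, .ofNat 0, .ofNat 0, .ofNat 2315859686085264719400),
   (.ofNat 1, .ofNat 0, .ofNat 0, .ofNat 2315859686085264719400),
   (.ofNat 0, .negSucc 0, .ofNat 0, .ofNat 4100000000000000000000),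
   (.negSucc 396969, .negSucc 1403786, .ofNat 3452960, .ofNat 5787926850931053022108114200),
   (.ofNat 0, .negSucc 0, .ofNat 0, .ofNat 4200000000000000000000),
   (.ofNat 3, .ofNat 1, .ofNat 3, .ofNat 11180000000000000000000),
   (.ofNat 0, .ofNat 1, .ofNat 1, .ofNat 7000000000000000000000),
   (.negSucc 0, .negSucc 0, .ofNat 0, .ofNat 5500000000000000000000),
   (.negSucc 0, .negSucc 1, .ofNat 0, .ofNat 6300000000000000000000),
   (.ofNat 0, .negSucc 0, .ofNat 0, .ofNat 3012667025261362068600),
   (.ofNat 12144, .negSucc 3243, .ofNat 45534, .ofNat 73839177646145158003356600)],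
  [(.negSucc 159182, .negSucc 35948, .negSucc 153421, .negSucc 760134194382762830082652199),
   (.negSucc 2, .negSucc 0, .negSucc 2, .negSucc 10759525090219150244999),
   (.negSucc 3914456, .negSucc 10011288, .negSucc 70097, .ofNat 58907738373347300918017937400),
   (.negSucc 2, .negSucc 0, .negSucc 2, .negSucc 10299999999999999999999),
   (.negSucc 2, .negSucc 0, .negSucc 2, .negSucc 10759525090219150244999),
   (.negSucc 16, .negSucc 3, .negSucc 15, .negSucc 80499999999999999999999),
   (.negSucc 0, .ofNat 1, .ofNat 0, .ofNat 600000000000000000000),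
   (.negSucc 0, .ofNat 0, .ofNat 0, .ofNat 3300000000000000000000),
   (.negSucc 16, .negSucc 3, .negSucc 15, .negSucc 80499999999999999999999),
   (.negSucc 2, .negSucc 0, .negSucc 2, .negSucc 10299999999999999999999),
   (.negSucc 2, .negSucc 0, .negSucc 2, .negSucc 10399999999999999999999)],
  [(.negSucc 15659, .negSucc 7802, .negSucc 13391, .negSucc 38405048857028234884502999),
   (.negSucc 0, .negSucc 0, .ofNat 0, .negSucc 430381003608766009799),
   (.negSucc 0, .negSucc 0, .ofNat 0, .ofNat 400000000000000000000),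
   (.negSucc 0, .negSucc 0, .ofNat 0, .negSucc 430381003608766009799),
   (.ofNat 5, .ofNat 1, .ofNat 7, .ofNat 21200000000000000000000),
   (.negSucc 0, .ofNat 1, .ofNat 0, .ofNat 600000000000000000000),
   (.negSucc 0, .ofNat 0, .ofNat 0, .ofNat 1000000000000000000000),
   (.negSucc 0, .negSucc 0, .ofNat 0, .ofNat 300000000000000000000),
   (.negSucc 0, .negSucc 0, .ofNat 0, .ofNat 400000000000000000000),
   (.ofNat 1, .ofNat 0, .ofNat 2, .ofNat 4139855368046225427600)],
  [(.negSucc 0, .negSucc 1, .ofNat 0, .ofNat 9468382079392852215600),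
   (.negSucc 0, .negSucc 0, .ofNat 0, .ofNat 1054433458841476724010),
   (.negSucc 179365, .negSucc 354488, .ofNat 54118, .ofNat 1469974495064808873026086200),
   (.ofNat 3, .ofNat 1, .ofNat 3, .ofNat 11100000000000000000000),
   (.negSucc 0, .ofNat 1, .ofNat 0, .negSucc 999999999999999999999),
   (.negSucc 0, .ofNat 0, .ofNat 0, .ofNat 1000000000000000000000),
   (.negSucc 1, .negSucc 1, .negSucc 0, .ofNat 3000000000000000000000),
   (.negSucc 0, .negSucc 0, .ofNat 0, .ofNat 1054433458841476724010),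
   (.ofNat 32958, .ofNat 5270, .ofNat 67020, .ofNat 130643875169455357338829200)],
  [(.ofNat 1, .ofNat 2, .ofNat 0, .negSucc 8999999999999999999999),
   (.ofNat 3918980, .ofNat 10322026, .negSucc 150833, .negSucc 61176252111651900856011178799),
   (.ofNat 23, .ofNat 60, .ofNat 0, .negSucc 355579999999999999999999),
   (.ofNat 0, .ofNat 1, .ofNat 0, .negSucc 3999999999999999999999),
   (.negSucc 0, .ofNat 0, .ofNat 0, .ofNat 3300000000000000000000),
   (.ofNat 11, .ofNat 21, .ofNat 3, .negSucc 104549999999999999999999),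
   (.ofNat 3, .ofNat 7, .negSucc 0, .negSucc 34813566676528863715799),
   (.ofNat 1, .ofNat 2, .ofNat 0, .negSucc 8999999999999999999999)],
  [(.ofNat 0, .ofNat 0, .negSucc 0, .ofNat 634811980322929864455),
   (.ofNat 2, .ofNat 1, .ofNat 2, .ofNat 4310000000000000000000),
   (.negSucc 0, .ofNat 1, .ofNat 0, .negSucc 299999999999999999999),
   (.negSucc 0, .ofNat 0, .ofNat 0, .ofNat 2400000000000000000000),
   (.negSucc 1, .negSucc 2, .ofNat 0, .ofNat 10300000000000000000000),
   (.ofNat 15523039, .ofNat 21650103, .negSucc 14391985, .negSucc 53246967159551454204739223399),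
   (.ofNat 1, .ofNat 1, .ofNat 0, .negSucc 1054433458841476724009)],
  [(.ofNat 2, .ofNat 1, .ofNat 2, .ofNat 4310000000000000000000),
   (.ofNat 0, .ofNat 1, .ofNat 0, .negSucc 4099999999999999999999),
   (.negSucc 0, .ofNat 0, .ofNat 0, .ofNat 3200000000000000000000),
   (.negSucc 2, .negSucc 4, .ofNat 2, .ofNat 17400000000000000000000),
   (.negSucc 14967516, .negSucc 19900340, .ofNat 10863422, .ofNat 45932261116032282110269550400),
   (.ofNat 0, .ofNat 0, .ofNat 1, .negSucc 634811980322929864454)],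
  [(.ofNat 293630592, .ofNat 102405306, .ofNat 302451016, .ofNat 1506310914184943545214357421600),
   (.negSucc 0, .ofNat 0, .ofNat 0, .ofNat 4303810036087660098000),
   (.negSucc 547435427, .negSucc 585866321, .negSucc 281299955, .ofNat 1227649031338959869821540959600),
   (.negSucc 1, .negSucc 0, .negSucc 1, .negSucc 4299999999999999999999),
   (.negSucc 2, .negSucc 0, .negSucc 2, .negSucc 10599999999999999999999)],
  [(.negSucc 0, .ofNat 0, .ofNat 0, .ofNat 4303810036087660098000),
   (.ofNat 0, .negSucc 0, .negSucc 0, .negSucc 7206685988999847164099),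
   (.ofNat 0, .negSucc 0, .ofNat 0, .ofNat 2990000000000000000000),
   (.ofNat 0, .negSucc 0, .negSucc 0, .negSucc 3999999999999999999999)],
  [(.ofNat 321980134, .ofNat 525450506, .ofNat 66168424, .negSucc 2264312221225450009400450663999),
   (.ofNat 0, .negSucc 0, .ofNat 0, .ofNat 2990000000000000000000),
   (.ofNat 1, .ofNat 0, .ofNat 0, .negSucc 999999999999999999999)],
  [(.ofNat 3, .ofNat 5, .negSucc 1, .negSucc 17299999999999999999999),
   (.ofNat 2, .ofNat 2, .ofNat 1, .negSucc 2899999999999999999999)],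
  [(.ofNat 1, .ofNat 1, .ofNat 0, .negSucc 1054433458841476724009)],
  []]

/-- Separating functional of the triangles `t` and `s`. -/
def ct (t s : Fin 46) : ℤ × ℤ × ℤ × ℤ := (ctL.getD t.1 []).getD (s.1 - t.1 - 1) (0, 0, 0, 0)

end Pool.Agent.W5h62.Torus.Data
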