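import Mathlib
import Pool.Agent.W5h62.Torus.Data

namespace Pool.Agent.W5h62.Torus
open Data

def ev2 (h : ℤ × ℤ × ℤ) (x : ℤ × ℤ) : ℤ := h.1 * x.1 + h.2.1 * x.2 + h.2.2

def shf (x : ℤ × ℤ) (m n : ℤ) : ℤ × ℤ := (x.1 + m * 13, x.2 + n * 13)

def arZ (A B C : ℤ × ℤ) : ℤ := (B.1 - A.1) * (C.2 - A.2) - (B.2 - A.2) * (C.1 - A.1)

def edgeFun (a b : ℤ × ℤ) : ℤ × ℤ × ℤ := (a.2 - b.2, b.1 - a.1, a.1 * b.2 - a.2 * b.1)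

def cand (a b c : ℤ × ℤ) : List (ℤ × ℤ × ℤ) :=
  [(-1, 0, max a.1 (max b.1 c.1)), (1, 0, - min a.1 (min b.1 c.1)),
   (0, -1, max a.2 (max b.2 c.2)), (0, 1, - min a.2 (min b.2 c.2)),
   edgeFun a b, edgeFun b c, edgeFun c a]

def chk2 (t s : Fin 46) (m n : ℤ) (h : ℤ × ℤ × ℤ) : Prop :=
  (∀ i : Fin 3, 0 ≤ ev2 h (WZ t i)) ∧
    ∀ j : Fin 3, ev2 h (shf (WZ s j) m n) < 0 ∨ (ev2 h (shf (WZ s j) m n) ≤ 0 ∧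
      ∃ i : Fin 3, tv t i = tv s j ∧ WZ t i = shf (WZ s j) m n)

instance (t s : Fin 46) (m n : ℤ) (h : ℤ × ℤ × ℤ) : Decidable (chk2 t s m n h) := by
  unfold chk2; infer_instance

theorem checkFlat : ∀ t s : Fin 46, t ≤ s → ∀ m ∈ [(-1 : ℤ), 0, 1], ∀ n ∈ [(-1 : ℤ), 0, 1],
    (t = s ∧ m = 0 ∧ n = 0) ∨ (∃ h ∈ cand (WZ t 0) (WZ t 1) (WZ t 2), chk2 t s m n h) ∨
      (∃ h ∈ cand (WZ s 0) (WZ s 1) (WZ s 2), chk2 s t (-m) (-n) h) := by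
  decide +kernel

end Pool.Agent.W5h62.Torus
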