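import Mathlib
import Pool.Agent.W5h62.Torus.Data

namespace Pool.Agent.W5h62.Torus
open Data

/-- Value of an affine functional at an integral point. -/
def evZ (h : ℤ × ℤ × ℤ × ℤ) (x : ℤ × ℤ × ℤ) : ℤ :=
  h.1 * x.1 + h.2.1 * x.2.1 + h.2.2.1 * x.2.2 + h.2.2.2

def negZ (h : ℤ × ℤ × ℤ × ℤ) : ℤ × ℤ × ℤ × ℤ := (-h.1, -h.2.1, -h.2.2.1, -h.2.2.2)

def chkF (f g : Fin 21) : Bool :=
  (fv f).all (fun v => if v ∈ fv g then evZ (cf f g) (X v) == 0 else decide (0 < evZ (cf f g) (X v)))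
    && (fv g).all (fun v => v ∈ fv f || decide (evZ (cf f g) (X v) < 0))

theorem checkFaces : ∀ f g : Fin 21, f < g → chkF f g = true := by
  decide +kernel

def chk3 (t s : Fin 46) (h : ℤ × ℤ × ℤ × ℤ) : Prop :=
  (∀ i : Fin 3, 0 ≤ evZ h (X (tv t i))) ∧
    ∀ j : Fin 3, evZ h (X (tv s j)) < 0 ∨ (evZ h (X (tv s j)) ≤ 0 ∧ ∃ i : Fin 3, tv t i = tv s j)

instance (t s : Fin 46) (h : ℤ × ℤ × ℤ × ℤ) : Decidable (chk3 t s h) := by
  unfold chk3; infer_instance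

theorem checkTri : ∀ t s : Fin 46, t < s → chk3 t s (ct t s) ∨ chk3 s t (negZ (ct t s)) := by
  decide +kernel

theorem checkBary : ∀ t : Fin 46, (∀ k j : Fin 3, j ≠ k → evZ (al t k) (X (tv t j)) = 0) ∧
    (∀ k : Fin 3, evZ (al t k) (X (tv t k)) = dl t) ∧ 0 < dl t := by
  decide +kernel

end Pool.Agent.W5h62.Torus
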