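import Mathlib
import Pool.Agent.W5h62.Torus.Check3
import Pool.Agent.W5h62.Torus.Check2

namespace Pool.Agent.W5h62.Torus
open Data

theorem checkPos : ∀ t : Fin 46, 0 < arZ (WZ t 0) (WZ t 1) (WZ t 2) := by decide +kernel

theorem checkNb : ∀ t : Fin 46, ∀ i : Fin 3,
    shf (WZ (nb t i).1 ((nb t i).2.1 + 1)) (nb t i).2.2.1 (nb t i).2.2.2 = WZ t (i + 2) ∧
    shf (WZ (nb t i).1 ((nb t i).2.1 + 2)) (nb t i).2.2.1 (nb t i).2.2.2 = WZ t (i + 1) := by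
  decide +kernel

theorem checkInj : ∀ t : Fin 46, tv t 0 ≠ tv t 1 ∧ tv t 0 ≠ tv t 2 ∧ tv t 1 ≠ tv t 2 := by
  decide +kernel

theorem checkBox : ∀ t : Fin 46, ∀ i : Fin 3, -2 ≤ (WZ t i).1 ∧ (WZ t i).1 ≤ 13 ∧
    -2 ≤ (WZ t i).2 ∧ (WZ t i).2 ≤ 13 := by
  decide +kernel

theorem checkLift : ∀ t s : Fin 46, ∃ m ∈ [(-1 : ℤ), 0, 1], ∃ n ∈ [(-1 : ℤ), 0, 1],
    ∀ i j : Fin 3, tv t i = tv s j → WZ t i = shf (WZ s j) m n := by
  decide +kernel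

theorem checkPlane : ∀ f g : Fin 21, f ≠ g → (∀ v ∈ fv f, evZ (nf f) (X v) = 0) ∧
    ∃ v ∈ fv g, evZ (nf f) (X v) ≠ 0 := by
  decide +kernel

theorem checkOwn : ∀ t : Fin 46, ∃ f : Fin 21, st f ≤ t.1 ∧ t.1 ≤ en f := by
  decide +kernel

theorem checkRange : ∀ f : Fin 21, st f ≤ en f ∧ en f < 46 := by
  decide +kernel

def chkFan (f : Fin 21) (t : Fin 46) : Prop :=
  (∀ k : Fin 3, tv t k ∈ fv f) ∧ ∀ v ∈ fv f,
    0 ≤ evZ (al t 0) (X v) ∧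
    evZ (al t 0) (X v) + evZ (al t 1) (X v) + evZ (al t 2) (X v) = dl t ∧
    evZ (al t 0) (X v) * (X (tv t 0)).1 + evZ (al t 1) (X v) * (X (tv t 1)).1 +
      evZ (al t 2) (X v) * (X (tv t 2)).1 = dl t * (X v).1 ∧
    evZ (al t 0) (X v) * (X (tv t 0)).2.1 + evZ (al t 1) (X v) * (X (tv t 1)).2.1 +
      evZ (al t 2) (X v) * (X (tv t 2)).2.1 = dl t * (X v).2.1 ∧
    evZ (al t 0) (X v) * (X (tv t 0)).2.2 + evZ (al t 1) (X v) * (X (tv t 1)).2.2 +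
      evZ (al t 2) (X v) * (X (tv t 2)).2.2 = dl t * (X v).2.2

instance (f : Fin 21) (t : Fin 46) : Decidable (chkFan f t) := by unfold chkFan; infer_instance

theorem checkFan : ∀ f : Fin 21, ∀ t : Fin 46, st f ≤ t.1 → t.1 ≤ en f → chkFan f t := by
  decide +kernel

theorem checkFirst : ∀ f : Fin 21, ∀ t : Fin 46, t.1 = st f →
    ∀ v ∈ fv f, 0 ≤ evZ (al t 2) (X v) := by
  decide +kernel

theorem checkLast : ∀ f : Fin 21, ∀ t : Fin 46, t.1 = en f →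
    ∀ v ∈ fv f, 0 ≤ evZ (al t 1) (X v) := by
  decide +kernel

theorem checkStep : ∀ f : Fin 21, ∀ t s : Fin 46, s.1 = t.1 + 1 → st f ≤ t.1 → s.1 ≤ en f →
    evZ (al t 1) (X (tv s 2)) < 0 ∧ ∀ v ∈ fv f,
      dl s * evZ (al t 1) (X v) = evZ (al t 1) (X (tv s 2)) * evZ (al s 2) (X v) := by
  decide +kernel

theorem checkXinj : ∀ v w : Fin 23, v ≠ w → X v ≠ X w := by decide +kernel

/-- Common vertices of two faces. -/
def cm (f g : Fin 21) : List (Fin 23) := (fv f).filter (fun v => v ∈ fv g)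

theorem checkCm : ∀ f g : Fin 21, f ≠ g → (cm f g).length ≤ 2 ∧ (cm f g).Nodup := by
  decide +kernel

theorem checkCmSymm : ∀ f g : Fin 21, (∀ v, v ∈ cm f g ↔ v ∈ cm g f) := by
  decide +kernel

theorem checkAdj : ∀ q ∈ [((0 : Fin 21), (1 : Fin 21)), (0, 2), (0, 3), (4, 1), (4, 2), (4, 3),
    (1, 2), (2, 3), (1, 3), (4, 5), (4, 6), (4, 7), (8, 5), (8, 6), (8, 7), (5, 6), (6, 7), (5, 7),
    (0, 8)], (cm q.1 q.2).length = 2 := by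
  decide +kernel

end Pool.Agent.W5h62.Torus
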