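import Mathlib

namespace Pool.Agent.W5h62.Torus

/-- The formal barycentric combination with coefficients `x` of the labels `a 0, a 1, a 2`. -/
def gam {V : Type*} [DecidableEq V] (a : Fin 3 → V) (x : Fin 3 → ℝ) : V → ℝ :=
  fun v => ∑ i, if a i = v then x i else 0

theorem gam_smul_sum {V M : Type*} [Fintype V] [DecidableEq V] [AddCommGroup M] [Module ℝ M]
    (a : Fin 3 → V) (x : Fin 3 → ℝ) (U : V → M) :
    ∑ v, gam a x v • U v = ∑ i, x i • U (a i) := by
  simp only [gam, Finset.sum_smul]
  rw [Finset.sum_comm]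
  refine Finset.sum_congr rfl fun i _ => ?_
  rw [Finset.sum_eq_single (a i)]
  · simp
  · intro b _ hb
    rw [if_neg (fun h => hb h.symm), zero_smul]
  · simp

theorem sum_affine {E : Type*} [AddCommGroup E] [Module ℝ E] {ι : Type*} [Fintype ι]
    (A : ι → E) (x : ι → ℝ) (hx : ∑ i, x i = 1) (l : E →ₗ[ℝ] ℝ) (c : ℝ) :
    l (∑ i, x i • A i) + c = ∑ i, x i * (l (A i) + c) := by
  simp only [map_sum, map_smul, smul_eq_mul, mul_add, Finset.sum_add_distrib, ← Finset.sum_mul, hx,
    one_mul]

theorem sum_match {V M : Type*} [DecidableEq V] [AddCommGroup M] [Module ℝ M]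
    (a : Fin 3 → V) (ha : Function.Injective a) (A : Fin 3 → M) (v : V) (w : ℝ) (B : M)
    (h : w = 0 ∨ ∃ i, a i = v ∧ A i = B) :
    ∑ i, (if a i = v then w else 0) • A i = w • B := by
  rcases h with h | ⟨i, hi, hB⟩
  · subst h; simp
  · rw [Finset.sum_eq_single i]
    · rw [if_pos hi, hB]
    · intro k _ hk
      rw [if_neg, zero_smul]
      intro h'
      exact hk (ha (h'.trans hi.symm))
    · simp

/-- One-sided separation lemma. -/
theorem sep {V E : Type*} [DecidableEq V] [AddCommGroup E] [Module ℝ E]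
    (A B : Fin 3 → E) (a b : Fin 3 → V) (ha : Function.Injective a)
    (hA : ∀ x x' : Fin 3 → ℝ, ∑ i, x i = 1 → ∑ i, x' i = 1 →
      ∑ i, x i • A i = ∑ i, x' i • A i → x = x')
    (l : E →ₗ[ℝ] ℝ) (c : ℝ) (h1 : ∀ i, 0 ≤ l (A i) + c)
    (h2 : ∀ j, l (B j) + c < 0 ∨ (l (B j) + c ≤ 0 ∧ ∃ i, a i = b j ∧ A i = B j))
    (x y : Fin 3 → ℝ) (hx : x ∈ stdSimplex ℝ (Fin 3)) (hy : y ∈ stdSimplex ℝ (Fin 3))
    (h : ∑ i, x i • A i = ∑ j, y j • B j) : gam a x = gam b y := by
  obtain ⟨hx0, hx1⟩ := hx
  obtain ⟨hy0, hy1⟩ := hy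
  have e1 := sum_affine A x hx1 l c
  have e2 := sum_affine B y hy1 l c
  have p1 : 0 ≤ l (∑ i, x i • A i) + c := by
    rw [e1]; exact Finset.sum_nonneg fun i _ => mul_nonneg (hx0 i) (h1 i)
  have hB : ∀ j, l (B j) + c ≤ 0 := fun j => by
    rcases h2 j with h | h
    · exact h.le
    · exact h.1
  have p2 : ∀ j ∈ Finset.univ, 0 ≤ -(y j * (l (B j) + c)) := fun j _ => by
    have := mul_nonneg (hy0 j) (neg_nonneg.2 (hB j)); linarith
  have p3 : ∑ j, -(y j * (l (B j) + c)) = 0 := by
    refine le_antisymm ?_ (Finset.sum_nonneg p2)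
    rw [Finset.sum_neg_distrib, ← e2, ← h]; linarith
  have p4 := (Finset.sum_eq_zero_iff_of_nonneg p2).1 p3
  have key : ∀ j, y j = 0 ∨ ∃ i, a i = b j ∧ A i = B j := by
    intro j
    rcases h2 j with h | h
    · left
      have := p4 j (Finset.mem_univ j)
      have h' : y j * (l (B j) + c) = 0 := by linarith
      rcases mul_eq_zero.1 h' with h'' | h''
      · exact h''
      · exact absurd h'' h.ne
    · exact Or.inr h.2
  set x' : Fin 3 → ℝ := fun i => ∑ j, if a i = b j then y j else 0 with hx'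
  have s1 : ∑ i, x' i • A i = ∑ j, y j • B j := by
    simp only [hx', Finset.sum_smul]
    rw [Finset.sum_comm]
    refine Finset.sum_congr rfl fun j _ => ?_
    exact sum_match a ha A (b j) (y j) (B j) (key j)
  have s2 : ∑ i, x' i = 1 := by
    rw [← hy1]
    simp only [hx']
    rw [Finset.sum_comm]
    refine Finset.sum_congr rfl fun j _ => ?_
    have := sum_match a ha (fun _ => (1 : ℝ)) (b j) (y j) 1 ((key j).imp id fun ⟨i, hi, _⟩ => ⟨i, hi, rfl⟩)
    simpa using this
  have hxx : x = x' := hA x x' hx1 s2 (h.trans s1.symm)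
  funext v
  simp only [gam, hxx, hx']
  have : ∀ i, (if a i = v then ∑ j, (if a i = b j then y j else 0) else 0)
      = ∑ j, if a i = b j then (if b j = v then y j else 0) else 0 := by
    intro i
    by_cases hi : a i = v
    · rw [if_pos hi]
      refine Finset.sum_congr rfl fun j _ => ?_
      by_cases hj : a i = b j
      · rw [if_pos hj, if_pos hj, if_pos (hj ▸ hi)]
      · rw [if_neg hj, if_neg hj]
    · rw [if_neg hi]
      symm
      refine Finset.sum_eq_zero fun j _ => ?_
      by_cases hj : a i = b j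
      · rw [if_pos hj, if_neg (hj ▸ hi)]
      · rw [if_neg hj]
  simp only [this]
  rw [Finset.sum_comm]
  refine Finset.sum_congr rfl fun j _ => ?_
  have := sum_match a ha (fun _ => (1 : ℝ)) (b j) (if b j = v then y j else 0) 1
    ((key j).imp (fun h => by simp [h]) fun ⟨i, hi, _⟩ => ⟨i, hi, rfl⟩)
  simpa using this

/-- Points of the hull of an indexed family. -/
theorem mem_hull {V E : Type*} [Fintype V] [AddCommGroup E] [Module ℝ E]
    (P : V → E) (s : Set V) (p : E) :
    p ∈ convexHull ℝ (P '' s) ↔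
      ∃ w : V → ℝ, (∀ v, 0 ≤ w v) ∧ (∀ v, v ∉ s → w v = 0) ∧ ∑ v, w v = 1 ∧
        ∑ v, w v • P v = p := by
  classical
  constructor
  · intro h
    rw [mem_convexHull_iff_exists_fintype] at h
    obtain ⟨ι, _, w, z, hw0, hw1, hz, hp⟩ := h
    choose u hu hP using hz
    refine ⟨fun v => ∑ i, if u i = v then w i else 0, ?_, ?_, ?_, ?_⟩
    · intro v
      exact Finset.sum_nonneg fun i _ => by split_ifs <;> simp [hw0 i]
    · intro v hv
      refine Finset.sum_eq_zero fun i _ => ?_
      rw [if_neg]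
      rintro rfl
      exact hv (hu i)
    · rw [Finset.sum_comm]
      simpa using hw1
    · simp only [Finset.sum_smul]
      rw [Finset.sum_comm, ← hp]
      refine Finset.sum_congr rfl fun i _ => ?_
      rw [Finset.sum_eq_single (u i)]
      · simp [hP]
      · intro b _ hb
        rw [if_neg (fun h => hb h.symm), zero_smul]
      · simp
  · rintro ⟨w, hw0, hws, hw1, hp⟩
    by_cases hs : ∃ v, v ∈ s
    · obtain ⟨v0, hv0⟩ := hs
      refine mem_convexHull_of_exists_fintype w (fun v => if v ∈ s then P v else P v0)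
        hw0 hw1 ?_ ?_
      · intro v
        by_cases hv : v ∈ s
        · simp only [if_pos hv]; exact ⟨v, hv, rfl⟩
        · simp only [if_neg hv]; exact ⟨v0, hv0, rfl⟩
      · rw [← hp]
        refine Finset.sum_congr rfl fun v _ => ?_
        by_cases hv : v ∈ s
        · simp only [if_pos hv]
        · rw [hws v hv, zero_smul, zero_smul]
    · exfalso
      push Not at hs
      have : ∑ v, w v = 0 := Finset.sum_eq_zero fun v _ => hws v (hs v)
      linarith
end Pool.Agent.W5h62.Torus
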