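import Mathlib
import Pool.Agent.W5h62.Torus.Sep

namespace Pool.Agent.W5h62.Torus

open Topology

/-- Twice the signed area. -/
def ar (A B C : ℝ × ℝ) : ℝ := (B.1 - A.1) * (C.2 - A.2) - (B.2 - A.2) * (C.1 - A.1)

theorem ar_cyc (A B C : ℝ × ℝ) : ar A B C = ar B C A := by unfold ar; ring

theorem continuous_ar {X : Type*} [TopologicalSpace X] {f g h : X → ℝ × ℝ} (hf : Continuous f)
    (hg : Continuous g) (hh : Continuous h) : Continuous fun p => ar (f p) (g p) (h p) := by
  unfold ar; fun_prop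

/-- Membership in the closed triangle. -/
def Mem (A B C p : ℝ × ℝ) : Prop :=
  ∃ u v w : ℝ, 0 ≤ u ∧ 0 ≤ v ∧ 0 ≤ w ∧ u + v + w = 1 ∧ p = u • A + v • B + w • C

theorem Mem.cyc {A B C p : ℝ × ℝ} (h : Mem A B C p) : Mem B C A p := by
  obtain ⟨u, v, w, hu, hv, hw, h1, rfl⟩ := h
  exact ⟨v, w, u, hv, hw, hu, by linarith, by abel⟩

theorem mem_of_ar {A B C p : ℝ × ℝ} (h : 0 < ar A B C) (h1 : 0 ≤ ar p B C) (h2 : 0 ≤ ar A p C)
    (h3 : 0 ≤ ar A B p) : Mem A B C p := by
  refine ⟨ar p B C / ar A B C, ar A p C / ar A B C, ar A B p / ar A B C,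
    div_nonneg h1 h.le, div_nonneg h2 h.le, div_nonneg h3 h.le, ?_, ?_⟩
  · rw [← add_div, ← add_div, div_eq_one_iff_eq h.ne']
    unfold ar; ring
  · have h0 := h.ne'
    ext
    · simp only [Prod.fst_add, Prod.smul_fst, smul_eq_mul]
      field_simp
      unfold ar; ring
    · simp only [Prod.snd_add, Prod.smul_snd, smul_eq_mul]
      field_simp
      unfold ar; ring

theorem near_interior {A B C : ℝ × ℝ} (h : 0 < ar A B C) {u v w : ℝ} (hu : 0 < u) (hv : 0 < v)
    (hw : 0 < w) (h1 : u + v + w = 1) :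
    ∀ᶠ p in 𝓝 (u • A + v • B + w • C), Mem A B C p := by
  have e1 : ar (u • A + v • B + w • C) B C = u * ar A B C := by
    have : w = 1 - u - v := by linarith
    subst this
    simp only [ar, Prod.fst_add, Prod.snd_add, Prod.smul_fst, Prod.smul_snd, smul_eq_mul]; ring
  have e2 : ar A (u • A + v • B + w • C) C = v * ar A B C := by
    have : w = 1 - u - v := by linarith
    subst this
    simp only [ar, Prod.fst_add, Prod.snd_add, Prod.smul_fst, Prod.smul_snd, smul_eq_mul]; ring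
  have e3 : ar A B (u • A + v • B + w • C) = w * ar A B C := by
    have : u = 1 - w - v := by linarith
    subst this
    simp only [ar, Prod.fst_add, Prod.snd_add, Prod.smul_fst, Prod.smul_snd, smul_eq_mul]; ring
  have c1 : ∀ᶠ p in 𝓝 (u • A + v • B + w • C), 0 < ar p B C :=
    (continuous_ar continuous_id continuous_const continuous_const).continuousAt.eventually
      (lt_mem_nhds (by simp only [id]; rw [e1]; positivity))
  have c2 : ∀ᶠ p in 𝓝 (u • A + v • B + w • C), 0 < ar A p C :=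
    (continuous_ar continuous_const continuous_id continuous_const).continuousAt.eventually
      (lt_mem_nhds (by simp only [id]; rw [e2]; positivity))
  have c3 : ∀ᶠ p in 𝓝 (u • A + v • B + w • C), 0 < ar A B p :=
    (continuous_ar continuous_const continuous_const continuous_id).continuousAt.eventually
      (lt_mem_nhds (by simp only [id]; rw [e3]; positivity))
  filter_upwards [c1, c2, c3] with p h1 h2 h3
  exact mem_of_ar h h1.le h2.le h3.le

theorem near_edge {A B C A' : ℝ × ℝ} (h : 0 < ar A B C) (h' : 0 < ar A' C B) {v w : ℝ}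
    (hv : 0 < v) (hw : 0 < w) (h1 : v + w = 1) :
    ∀ᶠ p in 𝓝 (v • B + w • C), Mem A B C p ∨ Mem A' C B p := by
  have hw' : w = 1 - v := by linarith
  have e2 : ar A (v • B + w • C) C = v * ar A B C := by
    subst hw'
    simp only [ar, Prod.fst_add, Prod.snd_add, Prod.smul_fst, Prod.smul_snd, smul_eq_mul]; ring
  have e3 : ar A B (v • B + w • C) = w * ar A B C := by
    subst hw'
    simp only [ar, Prod.fst_add, Prod.snd_add, Prod.smul_fst, Prod.smul_snd, smul_eq_mul]; ring
  have e4 : ar A' (v • B + w • C) B = w * ar A' C B := by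
    subst hw'
    simp only [ar, Prod.fst_add, Prod.snd_add, Prod.smul_fst, Prod.smul_snd, smul_eq_mul]; ring
  have e5 : ar A' C (v • B + w • C) = v * ar A' C B := by
    subst hw'
    simp only [ar, Prod.fst_add, Prod.snd_add, Prod.smul_fst, Prod.smul_snd, smul_eq_mul]; ring
  have c2 : ∀ᶠ p in 𝓝 (v • B + w • C), 0 < ar A p C :=
    (continuous_ar continuous_const continuous_id continuous_const).continuousAt.eventually
      (lt_mem_nhds (by simp only [id]; rw [e2]; positivity))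
  have c3 : ∀ᶠ p in 𝓝 (v • B + w • C), 0 < ar A B p :=
    (continuous_ar continuous_const continuous_const continuous_id).continuousAt.eventually
      (lt_mem_nhds (by simp only [id]; rw [e3]; positivity))
  have c4 : ∀ᶠ p in 𝓝 (v • B + w • C), 0 < ar A' p B :=
    (continuous_ar continuous_const continuous_id continuous_const).continuousAt.eventually
      (lt_mem_nhds (by simp only [id]; rw [e4]; positivity))
  have c5 : ∀ᶠ p in 𝓝 (v • B + w • C), 0 < ar A' C p :=
    (continuous_ar continuous_const continuous_const continuous_id).continuousAt.eventually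
      (lt_mem_nhds (by simp only [id]; rw [e5]; positivity))
  filter_upwards [c2, c3, c4, c5] with p h2 h3 h4 h5
  rcases le_total 0 (ar p B C) with h6 | h6
  · exact Or.inl (mem_of_ar h h6 h2.le h3.le)
  · right
    refine mem_of_ar h' ?_ h4.le h5.le
    have : ar p C B = - ar p B C := by unfold ar; ring
    rw [this]; linarith

/-- The projection of the plane onto the torus, with periods `N`. -/
noncomputable def proj (N : ℝ) (p : ℝ × ℝ) : Circle × Circle :=
  (Circle.exp (2 * Real.pi / N * p.1), Circle.exp (2 * Real.pi / N * p.2))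

theorem continuous_proj (N : ℝ) : Continuous (proj N) := by
  unfold proj; fun_prop

theorem exp_eq_iff {N : ℝ} (hN : 0 < N) (a b : ℝ) :
    Circle.exp (2 * Real.pi / N * a) = Circle.exp (2 * Real.pi / N * b) ↔
      ∃ m : ℤ, a = b + m * N := by
  rw [Circle.exp_eq_exp]
  have hpi := Real.pi_pos
  constructor
  · rintro ⟨m, hm⟩
    refine ⟨m, ?_⟩
    have h2 : (2 * Real.pi / N) ≠ 0 := by positivity
    apply mul_left_cancel₀ h2
    rw [hm]
    field_simp
  · rintro ⟨m, hm⟩
    refine ⟨m, ?_⟩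
    rw [hm]
    field_simp

theorem proj_eq_iff {N : ℝ} (hN : 0 < N) (p q : ℝ × ℝ) :
    proj N p = proj N q ↔ ∃ m n : ℤ, p = q + ((m : ℝ) * N, (n : ℝ) * N) := by
  unfold proj
  rw [Prod.mk.injEq, exp_eq_iff hN, exp_eq_iff hN]
  constructor
  · rintro ⟨⟨m, hm⟩, ⟨n, hn⟩⟩
    exact ⟨m, n, Prod.ext hm hn⟩
  · rintro ⟨m, n, h⟩
    exact ⟨⟨m, by rw [h]; rfl⟩, ⟨n, by rw [h]; rfl⟩⟩

theorem proj_surjective {N : ℝ} (hN : 0 < N) : Function.Surjective (proj N) := by
  rintro ⟨z, w⟩
  obtain ⟨a, rfl⟩ := Circle.exp_surjective z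
  obtain ⟨b, rfl⟩ := Circle.exp_surjective w
  refine ⟨(N / (2 * Real.pi) * a, N / (2 * Real.pi) * b), ?_⟩
  have hpi := Real.pi_pos
  unfold proj
  have : ∀ t : ℝ, 2 * Real.pi / N * (N / (2 * Real.pi) * t) = t := by
    intro t; field_simp
  simp only [this]

/-- The map from the disjoint union of the triangles to the torus. -/
noncomputable def beta {T : Type*} (W : T → Fin 3 → ℝ × ℝ) (N : ℝ)
    (z : T × stdSimplex ℝ (Fin 3)) : Circle × Circle :=
  proj N (∑ i, z.2.1 i • W z.1 i)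

theorem continuous_beta {T : Type*} [TopologicalSpace T] [DiscreteTopology T]
    (W : T → Fin 3 → ℝ × ℝ) (N : ℝ) : Continuous (beta W N) := by
  unfold beta
  refine (continuous_proj N).comp ?_
  rw [continuous_prod_of_discrete_left]
  intro t
  refine continuous_finsetSum _ fun i _ => ?_
  exact ((continuous_apply i).comp continuous_subtype_val).smul (continuous_const (y := W t i))

theorem mem_iff_range {T : Type*} (W : T → Fin 3 → ℝ × ℝ) {N : ℝ} (hN : 0 < N) (p : ℝ × ℝ) :
    proj N p ∈ Set.range (beta W N) ↔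
      ∃ (t : T) (m n : ℤ), Mem (W t 0) (W t 1) (W t 2) (p - ((m : ℝ) * N, (n : ℝ) * N)) := by
  constructor
  · rintro ⟨⟨t, ⟨x, hx0, hx1⟩⟩, h⟩
    unfold beta at h
    rw [eq_comm, proj_eq_iff hN] at h
    obtain ⟨m, n, h⟩ := h
    refine ⟨t, m, n, x 0, x 1, x 2, hx0 0, hx0 1, hx0 2, ?_, ?_⟩
    · rw [← hx1, Fin.sum_univ_three]
    · rw [h, Fin.sum_univ_three]; simp
  · rintro ⟨t, m, n, u, v, w, hu, hv, hw, h1, h⟩
    refine ⟨⟨t, ⟨![u, v, w], ?_, ?_⟩⟩, ?_⟩
    · rw [Fin.forall_fin_succ, Fin.forall_fin_succ, Fin.forall_fin_one]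
      exact ⟨hu, hv, hw⟩
    · rw [Fin.sum_univ_three]; exact h1
    · unfold beta
      rw [eq_comm, proj_eq_iff hN]
      refine ⟨m, n, ?_⟩
      rw [Fin.sum_univ_three]
      change p = u • W t 0 + v • W t 1 + w • W t 2 + _
      rw [← h]; abel

theorem Mem.translate {A B C p d : ℝ × ℝ} (h : Mem (A + d) (B + d) (C + d) p) :
    Mem A B C (p - d) := by
  obtain ⟨u, v, w, hu, hv, hw, h1, h⟩ := h
  refine ⟨u, v, w, hu, hv, hw, h1, ?_⟩
  rw [h]
  have : d = (u + v + w) • d := by rw [h1, one_smul]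
  nth_rewrite 4 [this]
  module

theorem ar_translate (A B C d : ℝ × ℝ) : ar (A + d) (B + d) (C + d) = ar A B C := by
  simp only [ar, Prod.fst_add, Prod.snd_add]; ring

theorem ar_rot (w : Fin 3 → ℝ × ℝ) (i : Fin 3) :
    ar (w i) (w (i + 1)) (w (i + 2)) = ar (w 0) (w 1) (w 2) := by
  fin_cases i
  · rfl
  · exact (ar_cyc _ _ _).symm
  · exact ar_cyc (w 2) (w 0) (w 1)

theorem mem_rot (w : Fin 3 → ℝ × ℝ) (i : Fin 3) (p : ℝ × ℝ)
    (h : Mem (w i) (w (i + 1)) (w (i + 2)) p) : Mem (w 0) (w 1) (w 2) p := by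
  fin_cases i
  · exact h
  · exact (Mem.cyc (Mem.cyc h))
  · exact Mem.cyc h

/-- If positively oriented triangles are matched along all their edges (modulo the lattice), they
cover the plane modulo the lattice. -/
theorem cover {T : Type*} [Finite T] [Nonempty T] (W : T → Fin 3 → ℝ × ℝ) {N : ℝ} (hN : 0 < N)
    (hpos : ∀ t, 0 < ar (W t 0) (W t 1) (W t 2))
    (hn : ∀ t i, ∃ s j, ∃ m n : ℤ, W s (j + 1) + ((m : ℝ) * N, (n : ℝ) * N) = W t (i + 2) ∧
      W s (j + 2) + ((m : ℝ) * N, (n : ℝ) * N) = W t (i + 1)) :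
    Function.Surjective (beta W N) := by
  classical
  let _ : TopologicalSpace T := ⊥
  have : DiscreteTopology T := ⟨rfl⟩
  have : CompactSpace (stdSimplex ℝ (Fin 3)) :=
    isCompact_iff_compactSpace.1 (isCompact_stdSimplex ℝ (Fin 3))
  set S : Set (ℝ × ℝ) := {p | ∃ (t : T) (m n : ℤ),
    Mem (W t 0) (W t 1) (W t 2) (p - ((m : ℝ) * N, (n : ℝ) * N))} with hS
  have hSclosed : IsClosed S := by
    have : S = proj N ⁻¹' Set.range (beta W N) := by
      ext p; exact (mem_iff_range W hN p).symm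
    rw [this]
    exact (isCompact_range (continuous_beta W N)).isClosed.preimage (continuous_proj N)
  set Z : Set (ℝ × ℝ) := Set.range (fun q : T × Fin 3 × ℤ × ℤ =>
    W q.1 q.2.1 + ((q.2.2.1 : ℝ) * N, (q.2.2.2 : ℝ) * N)) with hZ
  have : Countable T := Finite.to_countable
  have hZc : Z.Countable := Set.countable_range _
  have hmemS : ∀ (t : T) (m n : ℤ) (i : Fin 3) (p : ℝ × ℝ),
      Mem (W t i + ((m : ℝ) * N, (n : ℝ) * N)) (W t (i + 1) + ((m : ℝ) * N, (n : ℝ) * N))
        (W t (i + 2) + ((m : ℝ) * N, (n : ℝ) * N)) p → p ∈ S := by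
    intro t m n i p h
    exact ⟨t, m, n, mem_rot _ i _ h.translate⟩
  have hedge : ∀ (t : T) (m n : ℤ) (i : Fin 3) (v w : ℝ), 0 ≤ v → 0 ≤ w → v + w = 1 →
      v • (W t (i + 1) + ((m : ℝ) * N, (n : ℝ) * N)) + w • (W t (i + 2) + ((m : ℝ) * N, (n : ℝ) * N))
        ∉ Z →
      S ∈ 𝓝 (v • (W t (i + 1) + ((m : ℝ) * N, (n : ℝ) * N)) +
        w • (W t (i + 2) + ((m : ℝ) * N, (n : ℝ) * N))) := by
    intro t m n i v w hv hw h1 hq
    have hv' : 0 < v := by
      refine lt_of_le_of_ne hv fun h => hq ?_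
      have : w = 1 := by linarith
      rw [← h, this]
      exact ⟨(t, i + 2, m, n), by simp⟩
    have hw' : 0 < w := by
      refine lt_of_le_of_ne hw fun h => hq ?_
      have : v = 1 := by linarith
      rw [← h, this]
      exact ⟨(t, i + 1, m, n), by simp⟩
    obtain ⟨s, j, m', n', e1, e2⟩ := hn t i
    have E1 : W t (i + 2) + ((m : ℝ) * N, (n : ℝ) * N)
        = W s (j + 1) + (((m' + m : ℤ) : ℝ) * N, ((n' + n : ℤ) : ℝ) * N) := by
      rw [← e1]; push_cast
      ext <;> simp <;> ring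
    have E2 : W t (i + 1) + ((m : ℝ) * N, (n : ℝ) * N)
        = W s (j + 2) + (((m' + m : ℤ) : ℝ) * N, ((n' + n : ℤ) : ℝ) * N) := by
      rw [← e2]; push_cast
      ext <;> simp <;> ring
    have a1 : 0 < ar (W t i + ((m : ℝ) * N, (n : ℝ) * N)) (W t (i + 1) + ((m : ℝ) * N, (n : ℝ) * N))
        (W t (i + 2) + ((m : ℝ) * N, (n : ℝ) * N)) := by
      rw [ar_translate, ar_rot]; exact hpos t
    have a2 : 0 < ar (W s j + (((m' + m : ℤ) : ℝ) * N, ((n' + n : ℤ) : ℝ) * N))
        (W t (i + 2) + ((m : ℝ) * N, (n : ℝ) * N)) (W t (i + 1) + ((m : ℝ) * N, (n : ℝ) * N)) := by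
      rw [E1, E2, ar_translate, ar_rot]; exact hpos s
    filter_upwards [near_edge a1 a2 hv' hw' h1] with p hp
    rcases hp with hp | hp
    · exact hmemS t m n i p hp
    · rw [E1, E2] at hp
      exact hmemS s _ _ j p hp
  have hnear : ∀ q ∈ S, q ∉ Z → S ∈ 𝓝 q := by
    rintro q ⟨t, m, n, u, v, w, hu, hv, hw, h1, hq⟩ hqZ
    have hq' : q = u • (W t 0 + ((m : ℝ) * N, (n : ℝ) * N)) +
        v • (W t 1 + ((m : ℝ) * N, (n : ℝ) * N)) + w • (W t 2 + ((m : ℝ) * N, (n : ℝ) * N)) := by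
      have e : q = (q - ((m : ℝ) * N, (n : ℝ) * N)) + (u + v + w) • ((m : ℝ) * N, (n : ℝ) * N) := by
        rw [h1, one_smul]; abel
      rw [e, hq]; module
    by_cases hu0 : u = 0
    · have hq2 : q = v • (W t (0 + 1) + ((m : ℝ) * N, (n : ℝ) * N)) +
          w • (W t (0 + 2) + ((m : ℝ) * N, (n : ℝ) * N)) := by
        rw [hq', hu0, zero_smul, zero_add]; rfl
      rw [hq2] at hqZ ⊢
      exact hedge t m n 0 v w hv hw (by linarith) hqZ
    by_cases hv0 : v = 0
    · have hq2 : q = w • (W t (1 + 1) + ((m : ℝ) * N, (n : ℝ) * N)) +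
          u • (W t (1 + 2) + ((m : ℝ) * N, (n : ℝ) * N)) := by
        rw [hq', hv0, zero_smul, add_zero, add_comm]; rfl
      rw [hq2] at hqZ ⊢
      exact hedge t m n 1 w u hw hu (by linarith) hqZ
    by_cases hw0 : w = 0
    · have hq2 : q = u • (W t (2 + 1) + ((m : ℝ) * N, (n : ℝ) * N)) +
          v • (W t (2 + 2) + ((m : ℝ) * N, (n : ℝ) * N)) := by
        rw [hq', hw0, zero_smul, add_zero]; rfl
      rw [hq2] at hqZ ⊢
      exact hedge t m n 2 u v hu hv (by linarith) hqZ
    have hu' : 0 < u := lt_of_le_of_ne hu (Ne.symm hu0)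
    have hv' : 0 < v := lt_of_le_of_ne hv (Ne.symm hv0)
    have hw' : 0 < w := lt_of_le_of_ne hw (Ne.symm hw0)
    have a1 : 0 < ar (W t 0 + ((m : ℝ) * N, (n : ℝ) * N)) (W t 1 + ((m : ℝ) * N, (n : ℝ) * N))
        (W t 2 + ((m : ℝ) * N, (n : ℝ) * N)) := by
      rw [ar_translate]; exact hpos t
    rw [hq']
    filter_upwards [near_interior a1 hu' hv' hw' h1] with p hp
    exact hmemS t m n 0 p hp
  have hconn : IsConnected Zᶜ := hZc.isConnected_compl_of_one_lt_rank
    (by rw [rank_prod', Module.rank_self, one_add_one_eq_two]; exact Cardinal.one_lt_two)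
  have hdense : Dense Zᶜ := hZc.dense_compl ℝ
  have hne : (interior S).Nonempty := by
    obtain ⟨t⟩ := ‹Nonempty T›
    refine ⟨(1/3 : ℝ) • W t 0 + (1/3 : ℝ) • W t 1 + (1/3 : ℝ) • W t 2, ?_⟩
    rw [mem_interior_iff_mem_nhds]
    filter_upwards [near_interior (hpos t) (u := 1/3) (v := 1/3) (w := 1/3) (by norm_num)
      (by norm_num) (by norm_num) (by norm_num)] with p hp
    refine ⟨t, 0, 0, ?_⟩
    have : p - (((0 : ℤ) : ℝ) * N, ((0 : ℤ) : ℝ) * N) = p := by ext <;> simp
    rw [this]; exact hp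
  have hsub : Zᶜ ⊆ interior S := by
    refine hconn.isPreconnected.subset_of_closure_inter_subset isOpen_interior ?_ ?_
    · obtain ⟨q, hq1, hq2⟩ := hdense.inter_open_nonempty _ isOpen_interior hne
      exact ⟨q, hq2, hq1⟩
    · rintro q ⟨hq1, hq2⟩
      have hqS : q ∈ S := hSclosed.closure_subset_iff.2 interior_subset hq1
      exact mem_interior_iff_mem_nhds.2 (hnear q hqS hq2)
  have hall : ∀ q, q ∈ S := by
    intro q
    have : closure Zᶜ ⊆ S := hSclosed.closure_subset_iff.2 (hsub.trans interior_subset)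
    exact this (hdense q)
  intro z
  obtain ⟨p, rfl⟩ := proj_surjective hN z
  exact (mem_iff_range W hN p).2 (hall p)

end Pool.Agent.W5h62.Torus
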