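import Mathlib
import Pool.Agent.W5h62.Torus.Topo

namespace Pool.Agent.W5h62.Torus

open Topology

theorem homeo_of_quot {X Y Z : Type*} [TopologicalSpace X] [TopologicalSpace Y]
    [TopologicalSpace Z] (f : C(X, Y)) (g : C(X, Z)) (hf : IsQuotientMap f)
    (hg : IsQuotientMap g) (h : ∀ x y, f x = f y ↔ g x = g y) : Nonempty (Y ≃ₜ Z) := by
  have h1 : Function.FactorsThrough g f := fun x y hxy => (h x y).1 hxy
  have h2 : Function.FactorsThrough f g := fun x y hxy => (h x y).2 hxy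
  have e1 : ∀ x, hf.lift g h1 (f x) = g x := fun x => DFunLike.congr_fun (hf.lift_comp g h1) x
  have e2 : ∀ x, hg.lift f h2 (g x) = f x := fun x => DFunLike.congr_fun (hg.lift_comp f h2) x
  refine ⟨⟨⟨hf.lift g h1, hg.lift f h2, ?_, ?_⟩, (hf.lift g h1).continuous,
    (hg.lift f h2).continuous⟩⟩
  · intro y
    obtain ⟨x, rfl⟩ := hf.surjective y
    rw [e1, e2]
  · intro z
    obtain ⟨x, rfl⟩ := hg.surjective z
    rw [e2, e1]

/-- The homeomorphism criterion: a complex in space and a periodic triangulation of the plane with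
the same gluing pattern. -/
theorem homeo {T V E : Type*} [Finite T] [Fintype V] [DecidableEq V]
    [NormedAddCommGroup E] [NormedSpace ℝ E]
    (tv : T → Fin 3 → V) (P : V → E) (W : T → Fin 3 → ℝ × ℝ) {N : ℝ} (hN : 0 < N)
    (h1 : ∀ t s, ∀ x ∈ stdSimplex ℝ (Fin 3), ∀ y ∈ stdSimplex ℝ (Fin 3),
      ∑ i, x i • P (tv t i) = ∑ i, y i • P (tv s i) → gam (tv t) x = gam (tv s) y)
    (h2 : ∀ t s, ∃ m n : ℤ, ∃ U : V → ℝ × ℝ, (∀ i, W t i = U (tv t i)) ∧
      (∀ j, W s j + ((m : ℝ) * N, (n : ℝ) * N) = U (tv s j)))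
    (h3 : ∀ t s (m n : ℤ), ∀ x ∈ stdSimplex ℝ (Fin 3), ∀ y ∈ stdSimplex ℝ (Fin 3),
      ∑ i, x i • W t i = ∑ i, y i • W s i + ((m : ℝ) * N, (n : ℝ) * N) →
        gam (tv t) x = gam (tv s) y)
    (hsurj : Function.Surjective (beta W N)) (S : Set E)
    (hS : ∀ p, p ∈ S ↔ ∃ t, ∃ x ∈ stdSimplex ℝ (Fin 3), ∑ i, x i • P (tv t i) = p) :
    Nonempty (S ≃ₜ Circle × Circle) := by
  classical
  let _ : TopologicalSpace T := ⊥
  have : DiscreteTopology T := ⟨rfl⟩
  have : CompactSpace (stdSimplex ℝ (Fin 3)) :=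
    isCompact_iff_compactSpace.1 (isCompact_stdSimplex ℝ (Fin 3))
  have hα : ∀ z : T × stdSimplex ℝ (Fin 3), ∑ i, z.2.1 i • P (tv z.1 i) ∈ S :=
    fun z => (hS _).2 ⟨z.1, z.2.1, z.2.2, rfl⟩
  let α : C(T × stdSimplex ℝ (Fin 3), S) := ⟨fun z => ⟨∑ i, z.2.1 i • P (tv z.1 i), hα z⟩, by
    refine Continuous.subtype_mk ?_ _
    rw [continuous_prod_of_discrete_left]
    intro t
    refine continuous_finsetSum _ fun i _ => ?_
    exact ((continuous_apply i).comp continuous_subtype_val).smul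
      (continuous_const (y := P (tv t i)))⟩
  let β : C(T × stdSimplex ℝ (Fin 3), Circle × Circle) := ⟨beta W N, continuous_beta W N⟩
  have hαs : Function.Surjective α := by
    rintro ⟨p, hp⟩
    obtain ⟨t, x, hx, h⟩ := (hS p).1 hp
    exact ⟨(t, ⟨x, hx⟩), Subtype.ext h⟩
  have hαq : IsQuotientMap α := (α.continuous.isClosedMap).isQuotientMap α.continuous hαs
  have hβq : IsQuotientMap β := (β.continuous.isClosedMap).isQuotientMap β.continuous hsurj
  refine homeo_of_quot α β hαq hβq ?_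
  rintro ⟨t, ⟨x, hx⟩⟩ ⟨s, ⟨y, hy⟩⟩
  constructor
  · intro h
    have h' : ∑ i, x i • P (tv t i) = ∑ i, y i • P (tv s i) := congrArg Subtype.val h
    have hg := h1 t s x hx y hy h'
    obtain ⟨m, n, U, hU1, hU2⟩ := h2 t s
    change proj N (∑ i, x i • W t i) = proj N (∑ i, y i • W s i)
    rw [proj_eq_iff hN]
    refine ⟨m, n, ?_⟩
    calc ∑ i, x i • W t i = ∑ i, x i • U (tv t i) := by simp only [hU1]
      _ = ∑ v, gam (tv t) x v • U v := (gam_smul_sum _ _ _).symm
      _ = ∑ v, gam (tv s) y v • U v := by rw [hg]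
      _ = ∑ j, y j • U (tv s j) := gam_smul_sum _ _ _
      _ = ∑ j, y j • (W s j + ((m : ℝ) * N, (n : ℝ) * N)) := by simp only [hU2]
      _ = ∑ j, y j • W s j + (∑ j, y j) • ((m : ℝ) * N, (n : ℝ) * N) := by
        simp only [smul_add, Finset.sum_add_distrib, Finset.sum_smul]
      _ = _ := by rw [hy.2, one_smul]
  · intro h
    change proj N (∑ i, x i • W t i) = proj N (∑ i, y i • W s i) at h
    rw [proj_eq_iff hN] at h
    obtain ⟨m, n, h⟩ := h
    have hg := h3 t s m n x hx y hy h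
    apply Subtype.ext
    change ∑ i, x i • P (tv t i) = ∑ i, y i • P (tv s i)
    rw [← gam_smul_sum, ← gam_smul_sum, hg]

end Pool.Agent.W5h62.Torus
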