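import Mathlib
import Pool.Agent.W5h62.Torus.Sep

namespace Pool.Agent.W5h62.Torus

variable {V E : Type*} [Fintype V] [AddCommGroup E] [Module ℝ E]

theorem hull_val (P : V → E) (l : E →ₗ[ℝ] ℝ) (c : ℝ) {p : E} {w : V → ℝ}
    (hw1 : ∑ v, w v = 1) (hp : ∑ v, w v • P v = p) :
    l p + c = ∑ v, w v * (l (P v) + c) := by
  rw [← hp]; exact sum_affine P w hw1 l c

theorem hull_nonneg (P : V → E) (s : Set V) (l : E →ₗ[ℝ] ℝ) (c : ℝ)
    (h : ∀ v ∈ s, 0 ≤ l (P v) + c) {p : E} (hp : p ∈ convexHull ℝ (P '' s)) : 0 ≤ l p + c := by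
  obtain ⟨w, h0, hs, h1, h2⟩ := (mem_hull P s p).1 hp
  rw [hull_val P l c h1 h2]
  refine Finset.sum_nonneg fun v _ => ?_
  by_cases hv : v ∈ s
  · exact mul_nonneg (h0 v) (h v hv)
  · rw [hs v hv, zero_mul]

theorem hull_zero (P : V → E) (s t : Set V) (l : E →ₗ[ℝ] ℝ) (c : ℝ)
    (h : ∀ v ∈ s, 0 ≤ l (P v) + c) (h' : ∀ v ∈ s, v ∉ t → 0 < l (P v) + c) {p : E}
    (hp : p ∈ convexHull ℝ (P '' s)) (hz : l p + c = 0) : p ∈ convexHull ℝ (P '' (s ∩ t)) := by
  obtain ⟨w, h0, hs, h1, h2⟩ := (mem_hull P s p).1 hp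
  rw [hull_val P l c h1 h2] at hz
  have hn : ∀ v ∈ Finset.univ, 0 ≤ w v * (l (P v) + c) := fun v _ => by
    by_cases hv : v ∈ s
    · exact mul_nonneg (h0 v) (h v hv)
    · rw [hs v hv, zero_mul]
  have hz' := (Finset.sum_eq_zero_iff_of_nonneg hn).1 hz
  refine (mem_hull P (s ∩ t) p).2 ⟨w, h0, ?_, h1, h2⟩
  intro v hv
  by_cases hvs : v ∈ s
  · have hvt : v ∉ t := fun h => hv ⟨hvs, h⟩
    rcases mul_eq_zero.1 (hz' v (Finset.mem_univ v)) with h3 | h3
    · exact h3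
    · exact absurd h3 (h' v hvs hvt).ne'
  · exact hs v hvs

theorem hull_inter (P : V → E) (s t : Set V) (l : E →ₗ[ℝ] ℝ) (c : ℝ)
    (h1 : ∀ v ∈ s, v ∈ t → l (P v) + c = 0) (h2 : ∀ v ∈ s, v ∉ t → 0 < l (P v) + c)
    (h3 : ∀ v ∈ t, v ∉ s → l (P v) + c < 0) :
    convexHull ℝ (P '' s) ∩ convexHull ℝ (P '' t) = convexHull ℝ (P '' (s ∩ t)) := by
  apply Set.Subset.antisymm
  · rintro p ⟨hps, hpt⟩
    have a1 : 0 ≤ l p + c := hull_nonneg P s l c (fun v hv => by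
      by_cases hvt : v ∈ t
      · exact (h1 v hv hvt).ge
      · exact (h2 v hv hvt).le) hps
    have a2 : 0 ≤ (-l) p + (-c) := hull_nonneg P t (-l) (-c) (fun v hv => by
      simp only [LinearMap.neg_apply]
      by_cases hvs : v ∈ s
      · have := h1 v hvs hv; linarith
      · have := h3 v hv hvs; linarith) hpt
    simp only [LinearMap.neg_apply] at a2
    refine hull_zero P s t l c (fun v hv => ?_) h2 hps (by linarith)
    by_cases hvt : v ∈ t
    · exact (h1 v hv hvt).ge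
    · exact (h2 v hv hvt).le
  · exact Set.subset_inter (convexHull_mono (Set.image_mono Set.inter_subset_left))
      (convexHull_mono (Set.image_mono Set.inter_subset_right))

theorem hull_extreme (P : V → E) (s t : Set V) (l : E →ₗ[ℝ] ℝ) (c : ℝ)
    (h1 : ∀ v ∈ s, v ∈ t → l (P v) + c = 0) (h2 : ∀ v ∈ s, v ∉ t → 0 < l (P v) + c) :
    IsExtreme ℝ (convexHull ℝ (P '' s)) (convexHull ℝ (P '' (s ∩ t))) := by
  have hn : ∀ v ∈ s, 0 ≤ l (P v) + c := fun v hv => by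
    by_cases hvt : v ∈ t
    · exact (h1 v hv hvt).ge
    · exact (h2 v hv hvt).le
  refine ⟨convexHull_mono (Set.image_mono Set.inter_subset_left), ?_⟩
  intro x hx y hy z hz hxy
  have hz1 : 0 ≤ l z + c := hull_nonneg P (s ∩ t) l c (fun v hv => (h1 v hv.1 hv.2).ge) hz
  have hz2 : 0 ≤ (-l) z + (-c) := hull_nonneg P (s ∩ t) (-l) (-c) (fun v hv => by
    have := h1 v hv.1 hv.2; simp only [LinearMap.neg_apply]; linarith) hz
  simp only [LinearMap.neg_apply] at hz2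
  have hx0 := hull_nonneg P s l c hn hx
  have hy0 := hull_nonneg P s l c hn hy
  obtain ⟨a, b, ha, hb, hab, rfl⟩ := hxy
  rw [map_add, map_smul, map_smul, smul_eq_mul, smul_eq_mul] at hz1 hz2
  have e : a * (l x + c) + b * (l y + c) = 0 := by
    have : b = 1 - a := by linarith
    subst this
    linarith
  have e1 : a * (l x + c) = 0 := by
    have := mul_nonneg ha.le hx0; have := mul_nonneg hb.le hy0; linarith
  have e2 : l x + c = 0 := by
    rcases mul_eq_zero.1 e1 with h | h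
    · exact absurd h ha.ne'
    · exact h
  exact hull_zero P s t l c hn h2 hx e2

/-- A fan of triangles covers the polygon. -/
theorem fan_cover (P : V → E) (s : Set V) (st en : ℕ) (hse : st ≤ en) (τ : ℕ → Fin 3 → V)
    (l : ℕ → Fin 3 → E →ₗ[ℝ] ℝ) (c : ℕ → Fin 3 → ℝ) (D : ℕ → ℝ)
    (hD : ∀ t, st ≤ t → t ≤ en → 0 < D t)
    (b1 : ∀ t, st ≤ t → t ≤ en → ∀ v ∈ s,
      ∑ k, (l t k (P v) + c t k) • P (τ t k) = D t • P v)
    (b1' : ∀ t, st ≤ t → t ≤ en → ∀ v ∈ s, ∑ k, (l t k (P v) + c t k) = D t)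
    (b2 : ∀ t, st ≤ t → t ≤ en → ∀ v ∈ s, 0 ≤ l t 0 (P v) + c t 0)
    (b3 : ∀ v ∈ s, 0 ≤ l st 2 (P v) + c st 2)
    (b4 : ∀ v ∈ s, 0 ≤ l en 1 (P v) + c en 1)
    (b5 : ∀ t, st ≤ t → t < en → ∃ r1 r2 : ℝ, 0 < r1 ∧ r2 < 0 ∧ ∀ v ∈ s,
      r1 * (l t 1 (P v) + c t 1) = r2 * (l (t + 1) 2 (P v) + c (t + 1) 2))
    {p : E} (hp : p ∈ convexHull ℝ (P '' s)) :
    ∃ t, st ≤ t ∧ t ≤ en ∧ ∃ x ∈ stdSimplex ℝ (Fin 3), ∑ k, x k • P (τ t k) = p := by
  obtain ⟨w, h0, hs, h1, h2⟩ := (mem_hull P s p).1 hp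
  have hval : ∀ t k, l t k p + c t k = ∑ v, w v * (l t k (P v) + c t k) :=
    fun t k => hull_val P _ _ h1 h2
  have hnn : ∀ t k, (∀ v ∈ s, 0 ≤ l t k (P v) + c t k) → 0 ≤ l t k p + c t k :=
    fun t k h => hull_nonneg P s _ _ h hp
  have step : ∀ t, st ≤ t → t < en → l (t + 1) 2 p + c (t + 1) 2 < 0 → 0 ≤ l t 1 p + c t 1 := by
    intro t ht1 ht2 hneg
    obtain ⟨r1, r2, hr1, hr2, h⟩ := b5 t ht1 ht2
    have e : r1 * (l t 1 p + c t 1) = r2 * (l (t + 1) 2 p + c (t + 1) 2) := by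
      rw [hval, hval, Finset.mul_sum, Finset.mul_sum]
      refine Finset.sum_congr rfl fun v _ => ?_
      by_cases hv : v ∈ s
      · have := h v hv
        calc r1 * (w v * (l t 1 (P v) + c t 1)) = w v * (r1 * (l t 1 (P v) + c t 1)) := by ring
          _ = w v * (r2 * (l (t + 1) 2 (P v) + c (t + 1) 2)) := by rw [this]
          _ = _ := by ring
      · rw [hs v hv]; ring
    have h3 : 0 < r1 * (l t 1 p + c t 1) := by rw [e]; exact mul_pos_of_neg_of_neg hr2 hneg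
    exact le_of_lt ((mul_pos_iff_of_pos_left hr1).1 h3)
  have main : ∀ k n, n + k = en → st ≤ n → 0 ≤ l n 2 p + c n 2 →
      ∃ t, st ≤ t ∧ t ≤ en ∧ 0 ≤ l t 2 p + c t 2 ∧ 0 ≤ l t 1 p + c t 1 := by
    intro k
    induction k with
    | zero =>
      intro n hn hst hpos
      have : n = en := by omega
      subst this
      exact ⟨n, hst, le_rfl, hpos, hnn n 1 b4⟩
    | succ k ih =>
      intro n hn hst hpos
      rcases le_or_gt 0 (l (n + 1) 2 p + c (n + 1) 2) with h | h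
      · exact ih (n + 1) (by omega) (by omega) h
      · exact ⟨n, hst, by omega, hpos, step n hst (by omega) h⟩
  obtain ⟨t, ht1, ht2, g2, g1⟩ := main (en - st) st (by omega) le_rfl (hnn st 2 b3)
  have g0 := hnn t 0 (b2 t ht1 ht2)
  have hDt := hD t ht1 ht2
  refine ⟨t, ht1, ht2, fun k => (l t k p + c t k) / D t, ⟨?_, ?_⟩, ?_⟩
  · rw [Fin.forall_fin_succ, Fin.forall_fin_succ, Fin.forall_fin_one]
    exact ⟨div_nonneg g0 hDt.le, div_nonneg g1 hDt.le, div_nonneg g2 hDt.le⟩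
  · rw [← Finset.sum_div, div_eq_one_iff_eq hDt.ne']
    simp only [hval]
    rw [Finset.sum_comm]
    calc ∑ v, ∑ k, w v * (l t k (P v) + c t k) = ∑ v, w v * D t := by
          refine Finset.sum_congr rfl fun v _ => ?_
          rw [← Finset.mul_sum]
          by_cases hv : v ∈ s
          · rw [b1' t ht1 ht2 v hv]
          · rw [hs v hv]; ring
      _ = D t := by rw [← Finset.sum_mul, h1, one_mul]
  · have e : D t • p = ∑ k, (l t k p + c t k) • P (τ t k) := by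
      simp only [hval, Finset.sum_smul]
      rw [Finset.sum_comm, ← h2, Finset.smul_sum]
      refine Finset.sum_congr rfl fun v _ => ?_
      by_cases hv : v ∈ s
      · rw [smul_comm, ← b1 t ht1 ht2 v hv, Finset.smul_sum]
        refine Finset.sum_congr rfl fun k _ => ?_
        rw [smul_smul]
      · rw [hs v hv]; simp
    have e' : p = (D t)⁻¹ • (D t • p) := by rw [smul_smul, inv_mul_cancel₀ hDt.ne', one_smul]
    conv_rhs => rw [e', e, Finset.smul_sum]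
    refine Finset.sum_congr rfl fun k _ => ?_
    simp only [smul_smul, div_eq_inv_mul]

omit [Fintype V] in
theorem tri_sub (P : V → E) (s : Set V) (τ : Fin 3 → V) (h : ∀ k, τ k ∈ s) {x : Fin 3 → ℝ}
    (hx : x ∈ stdSimplex ℝ (Fin 3)) : ∑ k, x k • P (τ k) ∈ convexHull ℝ (P '' s) :=
  mem_convexHull_of_exists_fintype x (fun k => P (τ k)) hx.1 hx.2 (fun k => ⟨_, h k, rfl⟩) rfl

theorem indep (q : Fin 3 → E) (l : Fin 3 → E →ₗ[ℝ] ℝ) (c : Fin 3 → ℝ)
    (h : ∀ k j, j ≠ k → l k (q j) + c k = 0) (h' : ∀ k, l k (q k) + c k ≠ 0)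
    (x x' : Fin 3 → ℝ) (hx : ∑ i, x i = 1) (hx' : ∑ i, x' i = 1)
    (he : ∑ i, x i • q i = ∑ i, x' i • q i) : x = x' := by
  funext k
  have e1 := sum_affine q x hx (l k) (c k)
  have e2 := sum_affine q x' hx' (l k) (c k)
  rw [he, e2] at e1
  rw [Finset.sum_eq_single k, Finset.sum_eq_single k] at e1
  · exact (mul_right_cancel₀ (h' k) e1).symm
  · intro j _ hj; rw [h k j hj, mul_zero]
  · simp
  · intro j _ hj; rw [h k j hj, mul_zero]
  · simp

theorem affineIndep (q : Fin 3 → E) (l : Fin 3 → E →ₗ[ℝ] ℝ) (c : Fin 3 → ℝ)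
    (h : ∀ k j, j ≠ k → l k (q j) + c k = 0) (h' : ∀ k, l k (q k) + c k ≠ 0) :
    AffineIndependent ℝ q := by
  rw [affineIndependent_iff]
  intro s w hw1 hw2 k hk
  have e1 : ∑ i ∈ s, w i * (l k (q i) + c k) = 0 := by
    have e2 : l k (∑ i ∈ s, w i • q i) + (∑ i ∈ s, w i) * c k = 0 := by
      rw [hw1, hw2]; simp
    rw [map_sum, Finset.sum_mul, ← Finset.sum_add_distrib] at e2
    rw [← e2]
    refine Finset.sum_congr rfl fun i _ => ?_
    rw [map_smul, smul_eq_mul, mul_add]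
  rw [Finset.sum_eq_single k] at e1
  · rcases mul_eq_zero.1 e1 with h3 | h3
    · exact h3
    · exact absurd h3 (h' k)
  · intro j _ hj; rw [h k j hj, mul_zero]
  · intro h3; exact absurd hk h3

omit [Fintype V] in
theorem finrank_hull (P : V → E) (s : Set V) (τ : Fin 3 → V) (hτ : ∀ k, τ k ∈ s)
    (l : Fin 3 → E →ₗ[ℝ] ℝ) (c : Fin 3 → ℝ) (D : ℝ) (hD : 0 < D)
    (h : ∀ k j, j ≠ k → l k (P (τ j)) + c k = 0) (h' : ∀ k, l k (P (τ k)) + c k ≠ 0)
    (b1 : ∀ v ∈ s, ∑ k, (l k (P v) + c k) • P (τ k) = D • P v)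
    (b1' : ∀ v ∈ s, ∑ k, (l k (P v) + c k) = D) :
    Module.finrank ℝ (vectorSpan ℝ (convexHull ℝ (P '' s))) = 2 := by
  have hi := affineIndep (fun k => P (τ k)) l c h h'
  have h2 : Module.finrank ℝ (vectorSpan ℝ (Set.range fun k => P (τ k))) = 2 :=
    hi.finrank_vectorSpan (by simp)
  have hspan : affineSpan ℝ (convexHull ℝ (P '' s)) = affineSpan ℝ (Set.range fun k => P (τ k)) := by
    rw [affineSpan_convexHull]
    apply le_antisymm
    · rw [affineSpan_le]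
      rintro _ ⟨v, hv, rfl⟩
      have e : P v = ∑ k, ((l k (P v) + c k) / D) • P (τ k) := by
        have e1 := b1 v hv
        have : P v = D⁻¹ • (D • P v) := by rw [smul_smul, inv_mul_cancel₀ hD.ne', one_smul]
        conv_lhs => rw [this, ← e1, Finset.smul_sum]
        refine Finset.sum_congr rfl fun k _ => ?_
        rw [smul_smul, div_eq_inv_mul]
      have e2 : ∑ k, ((l k (P v) + c k) / D) = 1 := by
        rw [← Finset.sum_div, b1' v hv, div_self hD.ne']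
      have e3 := affineCombination_mem_affineSpan (k := ℝ) e2 (fun k => P (τ k))
      rw [Finset.affineCombination_eq_linear_combination _ _ _ e2, ← e] at e3
      exact e3
    · apply affineSpan_mono
      rintro _ ⟨k, rfl⟩
      exact ⟨τ k, hτ k, rfl⟩
  rw [← direction_affineSpan, hspan, direction_affineSpan, h2]

omit [Fintype V] in
theorem span_ne (P : V → E) (s t : Set V) (l : E →ₗ[ℝ] ℝ) (c : ℝ)
    (h : ∀ v ∈ s, l (P v) + c = 0) (h' : ∃ v ∈ t, l (P v) + c ≠ 0) :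
    affineSpan ℝ (convexHull ℝ (P '' s)) ≠ affineSpan ℝ (convexHull ℝ (P '' t)) := by
  intro he
  obtain ⟨v, hv, hne⟩ := h'
  apply hne
  have hv' : P v ∈ affineSpan ℝ (convexHull ℝ (P '' s)) := by
    rw [he]; exact subset_affineSpan ℝ _ (subset_convexHull ℝ _ ⟨v, hv, rfl⟩)
  rw [affineSpan_convexHull] at hv'
  have hle : affineSpan ℝ (P '' s) ≤ (AffineSubspace.mk' (-c) (⊥ : Submodule ℝ ℝ)).comap l.toAffineMap := by
    rw [affineSpan_le]
    rintro _ ⟨u, hu, rfl⟩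
    have := h u hu
    change l (P u) ∈ AffineSubspace.mk' (-c) (⊥ : Submodule ℝ ℝ)
    rw [AffineSubspace.mem_mk', Submodule.mem_bot]
    change l (P u) - (-c) = 0
    linarith
  have h3 := hle hv'
  change l (P v) ∈ AffineSubspace.mk' (-c) (⊥ : Submodule ℝ ℝ) at h3
  rw [AffineSubspace.mem_mk', Submodule.mem_bot] at h3
  change l (P v) - (-c) = 0 at h3
  linarith

end Pool.Agent.W5h62.Torus
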