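import Mathlib
import Pool.Agent.W5h62.Torus.CheckB
import Pool.Agent.W5h62.Torus.Poly
import Pool.Agent.W5h62.Torus.Homeo

namespace Pool.Agent.W5h62.Torus
open Data

/-- Three-dimensional Euclidean space. -/
abbrev Sp : Type := EuclideanSpace ℝ (Fin 3)

/-- The position of the vertex `v`. -/
noncomputable def P (v : Fin 23) : Sp := !₂[((X v).1 : ℝ), ((X v).2.1 : ℝ), ((X v).2.2 : ℝ)]

/-- The linear part of an affine functional with integral coefficients. -/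
noncomputable def lin (h : ℤ × ℤ × ℤ × ℤ) : Sp →ₗ[ℝ] ℝ where
  toFun p := (h.1 : ℝ) * p 0 + (h.2.1 : ℝ) * p 1 + (h.2.2.1 : ℝ) * p 2
  map_add' p q := by simp only [PiLp.add_apply]; ring
  map_smul' r p := by simp only [PiLp.smul_apply, smul_eq_mul, RingHom.id_apply]; ring

theorem P0 (v : Fin 23) : P v 0 = ((X v).1 : ℝ) := rfl
theorem P1 (v : Fin 23) : P v 1 = ((X v).2.1 : ℝ) := rfl
theorem P2 (v : Fin 23) : P v 2 = ((X v).2.2 : ℝ) := rfl

theorem lin_P (h : ℤ × ℤ × ℤ × ℤ) (v : Fin 23) :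
    lin h (P v) + ((h.2.2.2 : ℤ) : ℝ) = ((evZ h (X v) : ℤ) : ℝ) := by
  change (h.1 : ℝ) * P v 0 + (h.2.1 : ℝ) * P v 1 + (h.2.2.1 : ℝ) * P v 2 + ((h.2.2.2 : ℤ) : ℝ) = _
  rw [P0, P1, P2]
  unfold evZ
  push_cast
  ring

theorem tv_inj (t : Fin 46) : Function.Injective (tv t) := by
  obtain ⟨h01, h02, h12⟩ := checkInj t
  intro i j h
  fin_cases i <;> fin_cases j <;> first | rfl | (exfalso; first | exact h01 h | exact h02 h | exact h12 h | exact h01 h.symm | exact h02 h.symm | exact h12 h.symm)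

theorem P_inj : Function.Injective P := by
  intro v w h
  by_contra hne
  apply checkXinj v w hne
  have h0 : ((X v).1 : ℝ) = ((X w).1 : ℝ) := by rw [← P0, ← P0, h]
  have h1 : ((X v).2.1 : ℝ) = ((X w).2.1 : ℝ) := by rw [← P1, ← P1, h]
  have h2 : ((X v).2.2 : ℝ) = ((X w).2.2 : ℝ) := by rw [← P2, ← P2, h]
  exact Prod.ext (Int.cast_injective h0) (Prod.ext (Int.cast_injective h1) (Int.cast_injective h2))

theorem indep3 (t : Fin 46) (x x' : Fin 3 → ℝ) (hx : ∑ i, x i = 1) (hx' : ∑ i, x' i = 1)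
    (he : ∑ i, x i • P (tv t i) = ∑ i, x' i • P (tv t i)) : x = x' := by
  obtain ⟨h1, h2, h3⟩ := checkBary t
  refine indep (fun i => P (tv t i)) (fun k => lin (al t k)) (fun k => (((al t k).2.2.2 : ℤ) : ℝ))
    ?_ ?_ x x' hx hx' he
  · intro k j hj
    rw [lin_P, h1 k j hj, Int.cast_zero]
  · intro k
    rw [lin_P, h2 k]
    exact_mod_cast h3.ne'

theorem sep3 (t s : Fin 46) (h : ℤ × ℤ × ℤ × ℤ) (hc : chk3 t s h) (x y : Fin 3 → ℝ)
    (hx : x ∈ stdSimplex ℝ (Fin 3)) (hy : y ∈ stdSimplex ℝ (Fin 3))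
    (he : ∑ i, x i • P (tv t i) = ∑ i, y i • P (tv s i)) : gam (tv t) x = gam (tv s) y := by
  obtain ⟨c1, c2⟩ := hc
  refine sep (fun i => P (tv t i)) (fun j => P (tv s j)) (tv t) (tv s) (tv_inj t) (indep3 t)
    (lin h) ((h.2.2.2 : ℤ) : ℝ) ?_ ?_ x y hx hy he
  · intro i
    rw [lin_P]
    exact_mod_cast c1 i
  · intro j
    rw [lin_P]
    rcases c2 j with h' | ⟨h', i, hi⟩
    · left; exact_mod_cast h'
    · right
      exact ⟨by exact_mod_cast h', i, hi, by rw [hi]⟩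

theorem emb3 (t s : Fin 46) (x : Fin 3 → ℝ) (hx : x ∈ stdSimplex ℝ (Fin 3)) (y : Fin 3 → ℝ)
    (hy : y ∈ stdSimplex ℝ (Fin 3))
    (he : ∑ i, x i • P (tv t i) = ∑ i, y i • P (tv s i)) : gam (tv t) x = gam (tv s) y := by
  rcases lt_trichotomy t s with h | h | h
  · rcases checkTri t s h with hc | hc
    · exact sep3 t s _ hc x y hx hy he
    · exact (sep3 s t _ hc y x hy hx he.symm).symm
  · subst h
    rw [indep3 t x y hx.2 hy.2 he]
  · rcases checkTri s t h with hc | hc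
    · exact (sep3 s t _ hc y x hy hx he.symm).symm
    · exact sep3 t s _ hc x y hx hy he

/-! The planar side. -/

/-- The planar triangulation. -/
noncomputable def Wr (t : Fin 46) (i : Fin 3) : ℝ × ℝ := (((WZ t i).1 : ℝ), ((WZ t i).2 : ℝ))

noncomputable def toR (x : ℤ × ℤ) : ℝ × ℝ := ((x.1 : ℝ), (x.2 : ℝ))

theorem toR_inj : Function.Injective toR := by
  intro a b h
  have h1 : (a.1 : ℝ) = (b.1 : ℝ) := congrArg Prod.fst h
  have h2 : (a.2 : ℝ) = (b.2 : ℝ) := congrArg Prod.snd h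
  exact Prod.ext (Int.cast_injective h1) (Int.cast_injective h2)

theorem Wr_eq (t : Fin 46) (i : Fin 3) : Wr t i = toR (WZ t i) := rfl

theorem toR_shf (x : ℤ × ℤ) (m n : ℤ) : toR (shf x m n) = toR x + ((m : ℝ) * 13, (n : ℝ) * 13) := by
  unfold toR shf
  ext <;> simp

noncomputable def lin2 (h : ℤ × ℤ × ℤ) : (ℝ × ℝ) →ₗ[ℝ] ℝ where
  toFun p := (h.1 : ℝ) * p.1 + (h.2.1 : ℝ) * p.2
  map_add' p q := by simp only [Prod.fst_add, Prod.snd_add]; ring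
  map_smul' r p := by simp only [Prod.smul_fst, Prod.smul_snd, smul_eq_mul, RingHom.id_apply]; ring

theorem lin2_toR (h : ℤ × ℤ × ℤ) (x : ℤ × ℤ) :
    lin2 h (toR x) + ((h.2.2 : ℤ) : ℝ) = ((ev2 h x : ℤ) : ℝ) := by
  change (h.1 : ℝ) * (x.1 : ℝ) + (h.2.1 : ℝ) * (x.2 : ℝ) + ((h.2.2 : ℤ) : ℝ) = _
  unfold ev2
  push_cast
  ring

theorem posR (t : Fin 46) : 0 < ar (Wr t 0) (Wr t 1) (Wr t 2) := by
  have h := checkPos t
  have e : ar (Wr t 0) (Wr t 1) (Wr t 2) = ((arZ (WZ t 0) (WZ t 1) (WZ t 2) : ℤ) : ℝ) := by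
    unfold ar arZ Wr
    push_cast
    ring
  rw [e]; exact_mod_cast h

theorem indep2 (t : Fin 46) (x x' : Fin 3 → ℝ) (hx : ∑ i, x i = 1) (hx' : ∑ i, x' i = 1)
    (he : ∑ i, x i • Wr t i = ∑ i, x' i • Wr t i) : x = x' := by
  have hp := posR t
  have key : ∀ (y : Fin 3 → ℝ), ∑ i, y i = 1 →
      ar (∑ i, y i • Wr t i) (Wr t 1) (Wr t 2) = y 0 * ar (Wr t 0) (Wr t 1) (Wr t 2) ∧
      ar (Wr t 0) (∑ i, y i • Wr t i) (Wr t 2) = y 1 * ar (Wr t 0) (Wr t 1) (Wr t 2) ∧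
      ar (Wr t 0) (Wr t 1) (∑ i, y i • Wr t i) = y 2 * ar (Wr t 0) (Wr t 1) (Wr t 2) := by
    intro y hy
    rw [Fin.sum_univ_three] at hy ⊢
    have h0 : y 0 = 1 - y 1 - y 2 := by linarith
    simp only [ar, Prod.fst_add, Prod.snd_add, Prod.smul_fst, Prod.smul_snd, smul_eq_mul, h0]
    refine ⟨by ring, by ring, by ring⟩
  obtain ⟨a0, a1, a2⟩ := key x hx
  obtain ⟨b0, b1, b2⟩ := key x' hx'
  rw [he] at a0 a1 a2
  rw [b0] at a0; rw [b1] at a1; rw [b2] at a2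
  have c0 := mul_right_cancel₀ hp.ne' a0
  have c1 := mul_right_cancel₀ hp.ne' a1
  have c2 := mul_right_cancel₀ hp.ne' a2
  funext i
  fin_cases i
  · exact c0.symm
  · exact c1.symm
  · exact c2.symm

theorem sep2 (t s : Fin 46) (m n : ℤ) (h : ℤ × ℤ × ℤ) (hc : chk2 t s m n h) (x y : Fin 3 → ℝ)
    (hx : x ∈ stdSimplex ℝ (Fin 3)) (hy : y ∈ stdSimplex ℝ (Fin 3))
    (he : ∑ i, x i • Wr t i = ∑ i, y i • Wr s i + ((m : ℝ) * 13, (n : ℝ) * 13)) :
    gam (tv t) x = gam (tv s) y := by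
  obtain ⟨c1, c2⟩ := hc
  refine sep (Wr t) (fun j => toR (shf (WZ s j) m n)) (tv t) (tv s) (tv_inj t) (indep2 t)
    (lin2 h) ((h.2.2 : ℤ) : ℝ) ?_ ?_ x y hx hy ?_
  · intro i
    rw [Wr_eq, lin2_toR]
    exact_mod_cast c1 i
  · intro j
    rw [lin2_toR]
    rcases c2 j with h' | ⟨h', i, hi, hi'⟩
    · left; exact_mod_cast h'
    · right
      exact ⟨by exact_mod_cast h', i, hi, by rw [Wr_eq, hi']⟩
  · rw [he]
    simp only [toR_shf, smul_add, Finset.sum_add_distrib, ← Finset.sum_smul, hy.2, one_smul]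
    rfl

theorem box_val (t : Fin 46) (x : Fin 3 → ℝ) (hx : x ∈ stdSimplex ℝ (Fin 3)) :
    -2 ≤ (∑ i, x i • Wr t i).1 ∧ (∑ i, x i • Wr t i).1 ≤ 13 ∧
    -2 ≤ (∑ i, x i • Wr t i).2 ∧ (∑ i, x i • Wr t i).2 ≤ 13 := by
  obtain ⟨h0, h1⟩ := hx
  have hb : ∀ i, (-2 : ℝ) ≤ (Wr t i).1 ∧ (Wr t i).1 ≤ 13 ∧ -2 ≤ (Wr t i).2 ∧ (Wr t i).2 ≤ 13 := by
    intro i
    obtain ⟨a, b, c, d⟩ := checkBox t i
    refine ⟨?_, ?_, ?_, ?_⟩ <;> · simp only [Wr]; exact_mod_cast ‹_›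
  have e1 : (∑ i, x i • Wr t i).1 = ∑ i, x i * (Wr t i).1 := by simp [Prod.fst_sum]
  have e2 : (∑ i, x i • Wr t i).2 = ∑ i, x i * (Wr t i).2 := by simp [Prod.snd_sum]
  rw [e1, e2]
  have s : ∀ c : ℝ, c = ∑ i, x i * c := fun c => by rw [← Finset.sum_mul, h1, one_mul]
  refine ⟨?_, ?_, ?_, ?_⟩
  · rw [s (-2)]; exact Finset.sum_le_sum fun i _ => mul_le_mul_of_nonneg_left (hb i).1 (h0 i)
  · rw [s 13]; exact Finset.sum_le_sum fun i _ => mul_le_mul_of_nonneg_left (hb i).2.1 (h0 i)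
  · rw [s (-2)]; exact Finset.sum_le_sum fun i _ => mul_le_mul_of_nonneg_left (hb i).2.2.1 (h0 i)
  · rw [s 13]; exact Finset.sum_le_sum fun i _ => mul_le_mul_of_nonneg_left (hb i).2.2.2 (h0 i)

theorem emb2 (t s : Fin 46) (m n : ℤ) (x : Fin 3 → ℝ) (hx : x ∈ stdSimplex ℝ (Fin 3))
    (y : Fin 3 → ℝ) (hy : y ∈ stdSimplex ℝ (Fin 3))
    (he : ∑ i, x i • Wr t i = ∑ i, y i • Wr s i + ((m : ℝ) * 13, (n : ℝ) * 13)) :
    gam (tv t) x = gam (tv s) y := by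
  obtain ⟨a1, a2, a3, a4⟩ := box_val t x hx
  obtain ⟨b1, b2, b3, b4⟩ := box_val s y hy
  have f1 : (∑ i, x i • Wr t i).1 = (∑ i, y i • Wr s i).1 + (m : ℝ) * 13 := by rw [he]; rfl
  have f2 : (∑ i, x i • Wr t i).2 = (∑ i, y i • Wr s i).2 + (n : ℝ) * 13 := by rw [he]; rfl
  have hm1 : (m : ℝ) < 2 := by linarith
  have hm2 : (-2 : ℝ) < m := by linarith
  have hn1 : (n : ℝ) < 2 := by linarith
  have hn2 : (-2 : ℝ) < n := by linarith
  have hm1' : m < 2 := by exact_mod_cast hm1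
  have hm2' : -2 < m := by exact_mod_cast hm2
  have hn1' : n < 2 := by exact_mod_cast hn1
  have hn2' : -2 < n := by exact_mod_cast hn2
  have hm : m ∈ [(-1 : ℤ), 0, 1] := by simp; omega
  have hn : n ∈ [(-1 : ℤ), 0, 1] := by simp; omega
  have hmn : -m ∈ [(-1 : ℤ), 0, 1] := by simp; omega
  have hnn : -n ∈ [(-1 : ℤ), 0, 1] := by simp; omega
  have he' : ∑ i, y i • Wr s i = ∑ i, x i • Wr t i +
      (((-m : ℤ) : ℝ) * 13, ((-n : ℤ) : ℝ) * 13) := by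
    rw [he]; ext <;> simp
  rcases le_total t s with h | h
  · rcases checkFlat t s h m hm n hn with ⟨h1, h2, h3⟩ | ⟨c, _, hc⟩ | ⟨c, _, hc⟩
    · subst h1 h2 h3
      have : ∑ i, x i • Wr t i = ∑ i, y i • Wr t i := by
        rw [he]; ext <;> simp
      rw [indep2 t x y hx.2 hy.2 this]
    · exact sep2 t s m n c hc x y hx hy he
    · exact (sep2 s t (-m) (-n) c hc y x hy hx he').symm
  · rcases checkFlat s t h (-m) hmn (-n) hnn with ⟨h1, h2, h3⟩ | ⟨c, _, hc⟩ | ⟨c, _, hc⟩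
    · subst h1
      have h2' : m = 0 := by omega
      have h3' : n = 0 := by omega
      subst h2' h3'
      have : ∑ i, x i • Wr s i = ∑ i, y i • Wr s i := by
        rw [he]; ext <;> simp
      rw [indep2 s x y hx.2 hy.2 this]
    · exact (sep2 s t (-m) (-n) c hc y x hy hx he').symm
    · rw [neg_neg, neg_neg] at hc
      exact sep2 t s m n c hc x y hx hy he

theorem surjR : Function.Surjective (beta Wr 13) := by
  refine cover Wr (by norm_num) posR ?_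
  intro t i
  obtain ⟨h1, h2⟩ := checkNb t i
  refine ⟨(nb t i).1, (nb t i).2.1, (nb t i).2.2.1, (nb t i).2.2.2, ?_, ?_⟩
  · rw [Wr_eq, Wr_eq, ← toR_shf, h1]
  · rw [Wr_eq, Wr_eq, ← toR_shf, h2]

theorem liftR (t s : Fin 46) : ∃ m n : ℤ, ∃ U : Fin 23 → ℝ × ℝ, (∀ i, Wr t i = U (tv t i)) ∧
    (∀ j, Wr s j + ((m : ℝ) * 13, (n : ℝ) * 13) = U (tv s j)) := by
  classical
  obtain ⟨m, _, n, _, h⟩ := checkLift t s
  refine ⟨m, n, Function.extend (tv t) (Wr t)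
    (Function.extend (tv s) (fun j => Wr s j + ((m : ℝ) * 13, (n : ℝ) * 13)) 0), ?_, ?_⟩
  · intro i
    rw [(tv_inj t).extend_apply]
  · intro j
    by_cases hj : ∃ i, tv t i = tv s j
    · obtain ⟨i, hi⟩ := hj
      rw [← hi, (tv_inj t).extend_apply, Wr_eq, Wr_eq, h i j hi, toR_shf]
    · rw [Function.extend_apply' _ _ _ hj, (tv_inj s).extend_apply]

/-! The faces. -/

/-- The face with index `f`. -/
noncomputable def Fc (f : Fin 21) : Set Sp := convexHull ℝ (P '' {v | v ∈ fv f})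

theorem Fc_inter (f g : Fin 21) (h : f ≠ g) : Fc f ∩ Fc g = convexHull ℝ (P '' {v | v ∈ cm f g}) ∧
    IsExtreme ℝ (Fc f) (Fc f ∩ Fc g) ∧ IsExtreme ℝ (Fc g) (Fc f ∩ Fc g) := by
  have hcm : ∀ f g : Fin 21, {v | v ∈ fv f} ∩ {v | v ∈ fv g} = {v | v ∈ cm f g} := by
    intro f g; ext v; simp [cm]
  have key : ∀ f g : Fin 21, f < g → Fc f ∩ Fc g = convexHull ℝ (P '' {v | v ∈ cm f g}) ∧
      IsExtreme ℝ (Fc f) (Fc f ∩ Fc g) ∧ IsExtreme ℝ (Fc g) (Fc f ∩ Fc g) := by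
    intro f g h
    have hc := checkFaces f g h
    unfold chkF at hc
    rw [Bool.and_eq_true, List.all_eq_true, List.all_eq_true] at hc
    obtain ⟨hc1, hc2⟩ := hc
    have a1 : ∀ v ∈ {v | v ∈ fv f}, v ∈ {v | v ∈ fv g} →
        lin (cf f g) (P v) + (((cf f g).2.2.2 : ℤ) : ℝ) = 0 := by
      intro v hv hv'
      have := hc1 v hv
      rw [if_pos (show v ∈ fv g from hv')] at this
      rw [lin_P]
      exact_mod_cast (beq_iff_eq.1 this)
    have a2 : ∀ v ∈ {v | v ∈ fv f}, v ∉ {v | v ∈ fv g} →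
        0 < lin (cf f g) (P v) + (((cf f g).2.2.2 : ℤ) : ℝ) := by
      intro v hv hv'
      have := hc1 v hv
      rw [if_neg (show ¬ v ∈ fv g from hv')] at this
      rw [lin_P]
      exact_mod_cast (of_decide_eq_true this)
    have a3 : ∀ v ∈ {v | v ∈ fv g}, v ∉ {v | v ∈ fv f} →
        lin (cf f g) (P v) + (((cf f g).2.2.2 : ℤ) : ℝ) < 0 := by
      intro v hv hv'
      have := hc2 v hv
      rw [lin_P]
      rw [Bool.or_eq_true] at this
      rcases this with h | h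
      · exact absurd (of_decide_eq_true h) hv'
      · exact_mod_cast (of_decide_eq_true h)
    have e := hull_inter P {v | v ∈ fv f} {v | v ∈ fv g} (lin (cf f g))
      (((cf f g).2.2.2 : ℤ) : ℝ) a1 a2 a3
    have e1 := hull_extreme P {v | v ∈ fv f} {v | v ∈ fv g} (lin (cf f g))
      (((cf f g).2.2.2 : ℤ) : ℝ) a1 a2
    have e2 := hull_extreme P {v | v ∈ fv g} {v | v ∈ fv f} (-lin (cf f g))
      (-(((cf f g).2.2.2 : ℤ) : ℝ)) (fun v hv hv' => by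
        have := a1 v hv' hv
        rw [LinearMap.neg_apply]; linarith) (fun v hv hv' => by
        have := a3 v hv hv'
        rw [LinearMap.neg_apply]; linarith)
    rw [Set.inter_comm {v | v ∈ fv g}] at e2
    rw [hcm] at e e1 e2
    refine ⟨e, ?_, ?_⟩
    · unfold Fc; rw [e]; exact e1
    · unfold Fc; rw [e]; exact e2
  rcases lt_or_gt_of_ne h with h | h
  · exact key f g h
  · obtain ⟨k1, k2, k3⟩ := key g f h
    rw [Set.inter_comm]
    refine ⟨?_, k3, k2⟩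
    rw [k1]
    congr 2
    ext v
    exact checkCmSymm g f v

theorem Fc_span_ne (f g : Fin 21) (h : f ≠ g) : affineSpan ℝ (Fc f) ≠ affineSpan ℝ (Fc g) := by
  obtain ⟨h1, v, hv, h2⟩ := checkPlane f g h
  refine span_ne P _ _ (lin (nf f)) (((nf f).2.2.2 : ℤ) : ℝ) ?_ ⟨v, hv, ?_⟩
  · intro v hv
    rw [lin_P, h1 v hv, Int.cast_zero]
  · rw [lin_P]
    exact_mod_cast h2

theorem Fc_ne (f g : Fin 21) (h : f ≠ g) : Fc f ≠ Fc g := fun e =>
  Fc_span_ne f g h (by rw [e])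

theorem sp_ext {p q : Sp} (h0 : p 0 = q 0) (h1 : p 1 = q 1) (h2 : p 2 = q 2) : p = q := by
  ext i
  fin_cases i
  · exact h0
  · exact h1
  · exact h2

theorem fan_data (f : Fin 21) (t : Fin 46) (h1 : st f ≤ t.1) (h2 : t.1 ≤ en f) (v : Fin 23)
    (hv : v ∈ fv f) :
    ∑ k, (lin (al t k) (P v) + (((al t k).2.2.2 : ℤ) : ℝ)) • P (tv t k) = ((dl t : ℤ) : ℝ) • P v ∧
    ∑ k, (lin (al t k) (P v) + (((al t k).2.2.2 : ℤ) : ℝ)) = ((dl t : ℤ) : ℝ) ∧
    0 ≤ lin (al t 0) (P v) + (((al t 0).2.2.2 : ℤ) : ℝ) := by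
  obtain ⟨_, h⟩ := checkFan f t h1 h2
  obtain ⟨c0, c1, c2, c3, c4⟩ := h v hv
  simp only [Fin.sum_univ_three, lin_P]
  refine ⟨?_, by exact_mod_cast c1, by exact_mod_cast c0⟩
  apply sp_ext
  · simp only [PiLp.add_apply, PiLp.smul_apply, smul_eq_mul, P0]
    exact_mod_cast c2
  · simp only [PiLp.add_apply, PiLp.smul_apply, smul_eq_mul, P1]
    exact_mod_cast c3
  · simp only [PiLp.add_apply, PiLp.smul_apply, smul_eq_mul, P2]
    exact_mod_cast c4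

theorem Fc_finrank (f : Fin 21) : Module.finrank ℝ (vectorSpan ℝ (Fc f)) = 2 := by
  obtain ⟨h1, h2⟩ := checkRange f
  have hlt : st f < 46 := by omega
  obtain ⟨b1, b2, b3⟩ := checkBary ⟨st f, hlt⟩
  obtain ⟨g1, _⟩ := checkFan f ⟨st f, hlt⟩ le_rfl h1
  refine finrank_hull P {v | v ∈ fv f} (tv ⟨st f, hlt⟩) g1 (fun k => lin (al ⟨st f, hlt⟩ k))
    (fun k => (((al ⟨st f, hlt⟩ k).2.2.2 : ℤ) : ℝ)) ((dl ⟨st f, hlt⟩ : ℤ) : ℝ)
    (by exact_mod_cast b3) ?_ ?_ ?_ ?_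
  · intro k j hj
    rw [lin_P, b1 k j hj, Int.cast_zero]
  · intro k
    rw [lin_P, b2 k]
    exact_mod_cast b3.ne'
  · intro v hv
    exact (fan_data f ⟨st f, hlt⟩ le_rfl h1 v hv).1
  · intro v hv
    exact (fan_data f ⟨st f, hlt⟩ le_rfl h1 v hv).2.1

theorem mem_union (p : Sp) : p ∈ (⋃ f, Fc f) ↔
    ∃ t, ∃ x ∈ stdSimplex ℝ (Fin 3), ∑ i, x i • P (tv t i) = p := by
  constructor
  · intro h
    obtain ⟨f, hf⟩ := Set.mem_iUnion.1 h
    obtain ⟨h1, h2⟩ := checkRange f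
    have hlt : ∀ t, t ≤ en f → t < 46 := fun t ht => by omega
    have hof : ∀ t (ht : t ≤ en f), Fin.ofNat 46 t = ⟨t, hlt t ht⟩ := fun t ht => by
      apply Fin.ext
      exact Nat.mod_eq_of_lt (hlt t ht)
    obtain ⟨t, ht1, ht2, x, hx, he⟩ := fan_cover P {v | v ∈ fv f} (st f) (en f) h1
      (fun t => tv (Fin.ofNat 46 t)) (fun t k => lin (al (Fin.ofNat 46 t) k))
      (fun t k => (((al (Fin.ofNat 46 t) k).2.2.2 : ℤ) : ℝ))
      (fun t => ((dl (Fin.ofNat 46 t) : ℤ) : ℝ))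
      (fun t _ ht => by
        rw [hof t ht]
        exact_mod_cast (checkBary ⟨t, hlt t ht⟩).2.2)
      (fun t ht' ht v hv => by
        rw [hof t ht]
        exact (fan_data f ⟨t, hlt t ht⟩ ht' ht v hv).1)
      (fun t ht' ht v hv => by
        rw [hof t ht]
        exact (fan_data f ⟨t, hlt t ht⟩ ht' ht v hv).2.1)
      (fun t ht' ht v hv => by
        rw [hof t ht]
        exact (fan_data f ⟨t, hlt t ht⟩ ht' ht v hv).2.2)
      (fun v hv => by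
        rw [hof (st f) h1, lin_P]
        exact_mod_cast checkFirst f ⟨st f, hlt _ h1⟩ rfl v hv)
      (fun v hv => by
        rw [hof (en f) le_rfl, lin_P]
        exact_mod_cast checkLast f ⟨en f, hlt _ le_rfl⟩ rfl v hv)
      (fun t ht' ht => by
        rw [hof t ht.le, hof (t + 1) ht]
        obtain ⟨c1, c2⟩ := checkStep f ⟨t, hlt t ht.le⟩ ⟨t + 1, hlt (t + 1) ht⟩ rfl ht' ht
        refine ⟨((dl ⟨t + 1, hlt (t + 1) ht⟩ : ℤ) : ℝ),
          ((evZ (al ⟨t, hlt t ht.le⟩ 1) (X (tv ⟨t + 1, hlt (t + 1) ht⟩ 2)) : ℤ) : ℝ),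
          by exact_mod_cast (checkBary ⟨t + 1, hlt (t + 1) ht⟩).2.2, by exact_mod_cast c1, ?_⟩
        intro v hv
        rw [lin_P, lin_P]
        exact_mod_cast c2 v hv)
      hf
    exact ⟨_, x, hx, he⟩
  · rintro ⟨t, x, hx, rfl⟩
    obtain ⟨f, hf1, hf2⟩ := checkOwn t
    exact Set.mem_iUnion.2 ⟨f, tri_sub P _ (tv t) (checkFan f t hf1 hf2).1 hx⟩

/-- The union of the faces is a torus. -/
theorem torus : Nonempty ((⋃ f, Fc f : Set Sp) ≃ₜ Circle × Circle) :=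
  homeo tv P Wr (N := 13) (by norm_num) (fun t s x hx y hy he => emb3 t s x hx y hy he) liftR
    (fun t s m n x hx y hy he => emb2 t s m n x hx y hy he) surjR _ mem_union

end Pool.Agent.W5h62.Torus
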